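import Mathlib

set_option autoImplicit false

namespace Pool.Agent.Helper8.ArtinLS

open Finset

/-- The divisor bound `d(n) ≪ n ^ δ`. -/
theorem divisor_bound (δ : ℝ) (hδ : 0 < δ) :
    ∃ C : ℝ, 1 ≤ C ∧ ∀ n : ℕ, 1 ≤ n → (n.divisors.card : ℝ) ≤ C * (n : ℝ) ^ δ := by
  classical
  set B : ℕ := ⌈(2 : ℝ) ^ (1 / δ)⌉₊ with hB
  set c : ℝ := 1 + 1 / (δ * Real.log 2) with hc
  have hlog2 : 0 < Real.log 2 := Real.log_pos (by norm_num)
  have hc1 : 1 ≤ c := by
    rw [hc]
    have : 0 < 1 / (δ * Real.log 2) := by positivity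
    linarith
  refine ⟨c ^ B, one_le_pow₀ hc1, ?_⟩
  intro n hn
  have hn0 : n ≠ 0 := by omega
  rw [Nat.card_divisors hn0]
  have h1 : (n : ℝ) ^ δ = ∏ p ∈ n.primeFactors, ((p : ℝ) ^ δ) ^ (n.factorization p) := by
    have h2 : (n : ℝ) = ∏ p ∈ n.primeFactors, ((p : ℝ)) ^ (n.factorization p) := by
      conv_lhs => rw [← Nat.prod_factorization_pow_eq_self hn0]
      rw [Finsupp.prod, Nat.support_factorization]
      push_cast
      rfl
    rw [h2, ← Real.finsetProd_rpow]
    · refine Finset.prod_congr rfl fun p _ => ?_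
      rw [← Real.rpow_natCast, ← Real.rpow_natCast, ← Real.rpow_mul (Nat.cast_nonneg p),
        ← Real.rpow_mul (Nat.cast_nonneg p), mul_comm]
    · intro p _
      positivity
  rw [h1]
  push_cast
  -- pointwise estimate
  have h3 : ∀ p ∈ n.primeFactors, ((n.factorization p : ℝ) + 1) ≤
      (if p < B then c else 1) * ((p : ℝ) ^ δ) ^ (n.factorization p) := by
    intro p hp
    have hpp := Nat.prime_of_mem_primeFactors hp
    have hp2 : (2 : ℝ) ≤ p := by exact_mod_cast hpp.two_le
    set a := n.factorization p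
    split_ifs with h
    · have h4 : 1 + a * (δ * Real.log 2) ≤ ((p : ℝ) ^ δ) ^ a := by
        have h5 : (2 : ℝ) ^ δ ≤ (p : ℝ) ^ δ := Real.rpow_le_rpow (by norm_num) hp2 hδ.le
        have h6 : ((2 : ℝ) ^ δ) ^ a = Real.exp (a * (δ * Real.log 2)) := by
          rw [← Real.rpow_natCast, ← Real.rpow_mul (by norm_num), Real.rpow_def_of_pos (by norm_num)]
          congr 1; ring
        calc 1 + a * (δ * Real.log 2) ≤ Real.exp (a * (δ * Real.log 2)) := by
              have := Real.add_one_le_exp (a * (δ * Real.log 2)); linarith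
          _ = ((2 : ℝ) ^ δ) ^ a := h6.symm
          _ ≤ _ := by gcongr
      have h7 : (1 : ℝ) ≤ ((p : ℝ) ^ δ) ^ a := by
        have : 0 ≤ (a : ℝ) * (δ * Real.log 2) := by positivity
        linarith
      have h8 : (a : ℝ) ≤ (1 / (δ * Real.log 2)) * ((p : ℝ) ^ δ) ^ a := by
        have h9 : (a : ℝ) = (1 / (δ * Real.log 2)) * (a * (δ * Real.log 2)) := by field_simp
        rw [h9]
        gcongr
        linarith
      rw [hc]
      nlinarith
    · rw [one_mul]
      push Not at h
      have h4 : (2 : ℝ) ≤ (p : ℝ) ^ δ := by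
        have h5 : (2 : ℝ) ^ (1 / δ) ≤ p := (Nat.le_ceil _).trans (by exact_mod_cast h)
        calc (2 : ℝ) = ((2 : ℝ) ^ (1 / δ)) ^ δ := by
              rw [← Real.rpow_mul (by norm_num)]
              field_simp
              norm_num
          _ ≤ (p : ℝ) ^ δ := Real.rpow_le_rpow (by positivity) h5 hδ.le
      calc (a : ℝ) + 1 ≤ (2 : ℝ) ^ a := by
            have := Nat.lt_two_pow_self (n := a)
            exact_mod_cast this
        _ ≤ ((p : ℝ) ^ δ) ^ a := by gcongr
  calc ∏ p ∈ n.primeFactors, ((n.factorization p : ℝ) + 1)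
      ≤ ∏ p ∈ n.primeFactors, ((if p < B then c else 1) * ((p : ℝ) ^ δ) ^ (n.factorization p)) :=
        Finset.prod_le_prod (fun p _ => by positivity) h3
    _ = (∏ p ∈ n.primeFactors, (if p < B then c else 1)) *
        ∏ p ∈ n.primeFactors, ((p : ℝ) ^ δ) ^ (n.factorization p) := Finset.prod_mul_distrib
    _ ≤ c ^ B * ∏ p ∈ n.primeFactors, ((p : ℝ) ^ δ) ^ (n.factorization p) := by
        apply mul_le_mul_of_nonneg_right
        · rw [← Finset.prod_filter, Finset.prod_const]
          apply pow_le_pow_right₀ hc1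
          calc (n.primeFactors.filter (fun p => p < B)).card ≤ (range B).card := by
                apply Finset.card_le_card
                intro p hp
                rw [Finset.mem_range]
                exact (Finset.mem_filter.mp hp).2
            _ = B := Finset.card_range B
        · exact Finset.prod_nonneg fun p _ => by positivity

/-- The number of ordered factorisations of `n` of length `r` with factors in `E`. -/
theorem card_factorisations_le (r : ℕ) (E : Finset ℕ) (hE : ∀ m ∈ E, 1 ≤ m) (n : ℕ) :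
    ((Fintype.piFinset fun _ : Fin r => E).filter (fun t => ∏ i, t i = n)).card ≤
      n.divisors.card ^ r := by
  classical
  rcases Nat.eq_zero_or_pos n with rfl | hn
  · rcases Finset.eq_empty_or_nonempty ((Fintype.piFinset fun _ : Fin r => E).filter
      (fun t => ∏ i, t i = 0)) with h | ⟨t, ht⟩
    · rw [h]; simp
    · rw [Finset.mem_filter, Fintype.mem_piFinset] at ht
      exfalso
      have : ∏ i, t i ≠ 0 := Finset.prod_ne_zero_iff.mpr fun i _ => by
        have := hE _ (ht.1 i); omega
      exact this ht.2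
  · have hsub : (Fintype.piFinset fun _ : Fin r => E).filter (fun t => ∏ i, t i = n) ⊆
        Fintype.piFinset fun _ : Fin r => n.divisors := by
      intro t ht
      rw [Finset.mem_filter] at ht
      rw [Fintype.mem_piFinset]
      intro i
      rw [Nat.mem_divisors]
      refine ⟨?_, by omega⟩
      rw [← ht.2]
      exact Finset.dvd_prod_of_mem t (Finset.mem_univ i)
    refine (Finset.card_le_card hsub).trans ?_
    rw [Fintype.card_piFinset]
    simp

end Pool.Agent.Helper8.ArtinLS
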