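import Pool.Agent.Helper8.Gallagher

set_option autoImplicit false

namespace Pool.Agent.Helper8.ArtinLS

open Finset ComplexConjugate MeasureTheory

/-- The additive large sieve for the fractions with prime denominators `≤ X`. -/
theorem additive_large_sieve (X N : ℕ) (a : ℕ → ℂ) :
    ∑ p ∈ (range (X + 1)).filter Nat.Prime, ∑ b ∈ Icc 1 (p - 1),
      ‖∑ n ∈ range (N + 1), a n * eC n ((b : ℝ) / p)‖ ^ 2 ≤
      ((X : ℝ) ^ 2 + 4 * Real.pi * (N + 1)) * ∑ n ∈ range (N + 1), ‖a n‖ ^ 2 := by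
  classical
  rcases Nat.eq_zero_or_pos X with rfl | hX
  · have h0 : (range (0 + 1)).filter Nat.Prime = ∅ := by
      ext p
      simp only [Finset.mem_filter, Finset.mem_range, Finset.notMem_empty, iff_false, not_and]
      intro h hp
      have := hp.pos
      omega
    rw [h0, Finset.sum_empty]
    have := Real.pi_pos
    positivity
  have hX1 : (1 : ℝ) ≤ X := by exact_mod_cast hX
  have hX0 : (0 : ℝ) < X := by linarith
  set f : ℝ → ℂ := fun t => ∑ n ∈ range (N + 1), a n * eC n t with hf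
  set f' : ℝ → ℂ := fun t => ∑ n ∈ range (N + 1), (a n * (2 * Real.pi * Complex.I * n)) * eC n t with hf'
  have hder : ∀ t, HasDerivAt f (f' t) t := by
    intro t
    rw [hf, hf']
    apply HasDerivAt.fun_sum
    intro n _
    have h1 : HasDerivAt (fun t : ℝ => (2 * Real.pi * Complex.I * n * t : ℂ))
        (2 * Real.pi * Complex.I * n) t := by
      have := (Complex.ofRealCLM.hasDerivAt (x := t)).const_mul (2 * Real.pi * Complex.I * n : ℂ)
      simpa using this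
    have h2 := h1.cexp.const_mul (a n)
    refine h2.congr_deriv ?_
    unfold eC
    ring
  have hfc : Continuous f := continuous_iff_continuousAt.mpr fun t => (hder t).continuousAt
  have hf'c : Continuous f' := by
    rw [hf']
    apply continuous_finsetSum
    intro n _
    exact continuous_const.mul (eC_cont n)
  -- Parseval
  set Sa : ℝ := ∑ n ∈ range (N + 1), ‖a n‖ ^ 2 with hSa
  have hSa0 : 0 ≤ Sa := Finset.sum_nonneg fun n _ => by positivity
  have hP1 : ∫ t in (0:ℝ)..1, ‖f t‖ ^ 2 = Sa := parseval_trig a (N + 1)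
  set T : ℝ := 2 * Real.pi * (N + 1) with hT
  have hT0 : 0 < T := by
    have := Real.pi_pos
    positivity
  have hP2 : ∫ t in (0:ℝ)..1, ‖f' t‖ ^ 2 ≤ T ^ 2 * Sa := by
    rw [hf', parseval_trig, hSa, Finset.mul_sum]
    apply Finset.sum_le_sum
    intro n hn
    rw [Finset.mem_range] at hn
    have h1 : ‖(2 * Real.pi * Complex.I * n : ℂ)‖ ≤ T := by
      rw [norm_mul, norm_mul, norm_mul, Complex.norm_I, Complex.norm_natCast, Complex.norm_real,
        Real.norm_of_nonneg Real.pi_pos.le, Complex.norm_ofNat, hT, mul_one]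
      have : (n : ℝ) ≤ N + 1 := by exact_mod_cast hn.le
      have := Real.pi_pos
      gcongr
    rw [norm_mul, mul_pow, mul_comm]
    gcongr
  -- the points
  set P := (range (X + 1)).filter Nat.Prime with hP
  set δ : ℝ := 1 / (X : ℝ) ^ 2 with hδ
  have hδ0 : 0 < δ := by positivity
  set S : Finset (Σ _ : ℕ, ℕ) := P.sigma (fun p => Icc 1 (p - 1)) with hS
  set α : (Σ _ : ℕ, ℕ) → ℝ := fun i => (i.2 : ℝ) / i.1 with hα
  have hmem : ∀ i ∈ S, i.1 ≤ X ∧ i.1.Prime ∧ 1 ≤ i.2 ∧ i.2 < i.1 := by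
    intro i hi
    rw [hS, Finset.mem_sigma, hP, Finset.mem_filter, Finset.mem_range, Finset.mem_Icc] at hi
    have := hi.1.2.two_le
    exact ⟨by omega, hi.1.2, hi.2.1, by omega⟩
  have hδX : δ / 2 ≤ 1 / (X : ℝ) := by
    rw [hδ, div_div, div_le_div_iff₀ (by positivity) hX0]
    nlinarith
  have hin : ∀ i ∈ S, 0 ≤ α i - δ/2 ∧ α i + δ/2 ≤ 1 := by
    intro i hi
    obtain ⟨h1, h2, h3, h4⟩ := hmem i hi
    have hp0 : (0 : ℝ) < i.1 := by exact_mod_cast h2.pos
    have hpX : (i.1 : ℝ) ≤ X := by exact_mod_cast h1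
    have h5 : 1 / (X : ℝ) ≤ 1 / (i.1 : ℝ) := one_div_le_one_div_of_le hp0 hpX
    have h6 : 1 / (i.1 : ℝ) ≤ α i := by
      rw [hα]
      simp only
      gcongr
      exact_mod_cast h3
    have h7 : α i ≤ 1 - 1 / (i.1 : ℝ) := by
      rw [hα]
      simp only
      rw [le_sub_iff_add_le, ← add_div, div_le_one hp0]
      exact_mod_cast h4
    exact ⟨by linarith, by linarith⟩
  have hsep : ∀ i ∈ S, ∀ j ∈ S, i ≠ j → δ ≤ |α i - α j| := by
    intro i hi j hj hij
    obtain ⟨h1, h2, h3, h4⟩ := hmem i hi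
    obtain ⟨g1, g2, g3, g4⟩ := hmem j hj
    have hp0 : (0 : ℝ) < i.1 := by exact_mod_cast h2.pos
    have hq0 : (0 : ℝ) < j.1 := by exact_mod_cast g2.pos
    have hpX : (i.1 : ℝ) ≤ X := by exact_mod_cast h1
    have hqX : (j.1 : ℝ) ≤ X := by exact_mod_cast g1
    have hne : (i.2 : ℤ) * j.1 - j.2 * i.1 ≠ 0 := by
      intro h
      have h5 : i.2 * j.1 = j.2 * i.1 := by
        have : (i.2 : ℤ) * j.1 = j.2 * i.1 := by omega
        exact_mod_cast this
      have h6 : i.1 ∣ i.2 * j.1 := by rw [h5]; exact Dvd.intro_left _ rfl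
      have h7 : i.1 ∣ j.1 := by
        rcases h2.dvd_mul.mp h6 with h | h
        · exact absurd (Nat.le_of_dvd (by omega) h) (by omega)
        · exact h
      have h8 : i.1 = j.1 := (Nat.prime_dvd_prime_iff_eq h2 g2).mp h7
      have h9 : i.2 = j.2 := by
        rw [h8] at h5
        exact Nat.eq_of_mul_eq_mul_right g2.pos h5
      apply hij
      exact Sigma.ext h8 (heq_of_eq h9)
    have h10 : α i - α j = (((i.2 : ℤ) * j.1 - j.2 * i.1 : ℤ) : ℝ) / (i.1 * j.1) := by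
      rw [hα]
      simp only
      push_cast
      field_simp
    rw [h10, abs_div, abs_of_pos (mul_pos hp0 hq0), hδ]
    have h11 : (1 : ℝ) ≤ |(((i.2 : ℤ) * j.1 - j.2 * i.1 : ℤ) : ℝ)| := by
      exact_mod_cast Int.one_le_abs hne
    rw [div_le_div_iff₀ (by positivity) (by positivity)]
    calc 1 * ((i.1 : ℝ) * j.1) ≤ 1 * (X * X) := by gcongr
      _ ≤ |(((i.2 : ℤ) * j.1 - j.2 * i.1 : ℤ) : ℝ)| * (X * X) := by gcongr
      _ = _ := by ring
  have hsum : ∑ p ∈ P, ∑ b ∈ Icc 1 (p - 1), ‖f ((b : ℝ) / p)‖ ^ 2 = ∑ i ∈ S, ‖f (α i)‖ ^ 2 := by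
    rw [hS, Finset.sum_sigma]
  have hgoal : ∑ i ∈ S, ‖f (α i)‖ ^ 2 ≤ ((X : ℝ) ^ 2 + 4 * Real.pi * (N + 1)) * Sa := by
    calc ∑ i ∈ S, ‖f (α i)‖ ^ 2 ≤ ∑ i ∈ S, (δ⁻¹ * (∫ t in (α i - δ/2)..(α i + δ/2), ‖f t‖ ^ 2) +
          ∫ t in (α i - δ/2)..(α i + δ/2), 2 * (‖f t‖ * ‖f' t‖)) :=
          Finset.sum_le_sum fun i _ => gallagher_ineq f f' hder hf'c (α i) δ hδ0
      _ = δ⁻¹ * (∑ i ∈ S, ∫ t in (α i - δ/2)..(α i + δ/2), ‖f t‖ ^ 2) +
          ∑ i ∈ S, ∫ t in (α i - δ/2)..(α i + δ/2), 2 * (‖f t‖ * ‖f' t‖) := by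
          rw [Finset.sum_add_distrib, Finset.mul_sum]
      _ ≤ δ⁻¹ * (∫ t in (0:ℝ)..1, ‖f t‖ ^ 2) + ∫ t in (0:ℝ)..1, 2 * (‖f t‖ * ‖f' t‖) := by
          apply add_le_add
          · apply mul_le_mul_of_nonneg_left _ (by positivity)
            exact sum_integral_le S α δ hδ0 hin hsep _ (by fun_prop) (fun t => by positivity)
          · exact sum_integral_le S α δ hδ0 hin hsep _ (by fun_prop) (fun t => by positivity)
      _ ≤ δ⁻¹ * Sa + ∫ t in (0:ℝ)..1, (T * ‖f t‖ ^ 2 + T⁻¹ * ‖f' t‖ ^ 2) := by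
          rw [hP1]
          gcongr
          apply intervalIntegral.integral_mono_on zero_le_one
          · apply Continuous.intervalIntegrable; fun_prop
          · apply Continuous.intervalIntegrable; fun_prop
          · intro t _
            have h1 : T * ‖f t‖ ^ 2 + T⁻¹ * ‖f' t‖ ^ 2 - 2 * (‖f t‖ * ‖f' t‖) =
                T⁻¹ * (T * ‖f t‖ - ‖f' t‖) ^ 2 := by field_simp; ring
            have h2 : 0 ≤ T⁻¹ * (T * ‖f t‖ - ‖f' t‖) ^ 2 := by positivity
            linarith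
      _ = δ⁻¹ * Sa + (T * Sa + T⁻¹ * ∫ t in (0:ℝ)..1, ‖f' t‖ ^ 2) := by
          rw [intervalIntegral.integral_add, intervalIntegral.integral_const_mul,
            intervalIntegral.integral_const_mul, hP1]
          · apply Continuous.intervalIntegrable; fun_prop
          · apply Continuous.intervalIntegrable; fun_prop
      _ ≤ δ⁻¹ * Sa + (T * Sa + T⁻¹ * (T ^ 2 * Sa)) := by gcongr
      _ = ((X : ℝ) ^ 2 + 4 * Real.pi * (N + 1)) * Sa := by
          rw [hδ, hT]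
          have := Real.pi_pos
          field_simp
          ring
  rw [← hsum] at hgoal
  exact hgoal

section prime

variable {p : ℕ} [hp : Fact p.Prime]

theorem mult_parseval (Z : ZMod p → ℂ) :
    ∑ χ : DirichletCharacter ℂ p, ‖∑ x : ZMod p, χ x * Z x‖ ^ 2 =
      ((p : ℝ) - 1) * ∑ x ∈ Finset.univ.erase (0 : ZMod p), ‖Z x‖ ^ 2 := by
  classical
  have h1 : ∀ χ : DirichletCharacter ℂ p, ∑ x : ZMod p, χ x * Z x =
      ∑ x ∈ Finset.univ.erase (0 : ZMod p), χ x * Z x := by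
    intro χ
    rw [← Finset.add_sum_erase _ _ (Finset.mem_univ (0 : ZMod p)),
      DirichletCharacter.map_zero' χ hp.out.one_lt.ne', zero_mul, zero_add]
  simp only [h1]
  apply parseval_of_orth
  intro h hh k hk
  rw [Finset.mem_erase] at hh hk
  have h2 := DirichletCharacter.sum_char_inv_mul_char_eq ℂ (a := k)
        (isUnit_iff_ne_zero.2 hk.1) h
  have h3 : ∀ χ : DirichletCharacter ℂ p, χ h * conj (χ k) = χ k⁻¹ * χ h := by
    intro χ
    rw [mul_comm, ← MulChar.inv_apply' χ k, ← MulChar.star_eq_inv χ, MulChar.star_apply]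
    rfl
  simp only [h3, h2]
  by_cases hhk : h = k
  · subst hhk
    simp only [if_true]
    rw [Nat.totient_prime hp.out, Nat.cast_sub hp.out.one_le]
    push_cast
    rfl
  · rw [if_neg (Ne.symm hhk), if_neg hhk]

theorem add_parseval (Z : ZMod p → ℂ) :
    ∑ b : ZMod p, ‖∑ x : ZMod p, ZMod.stdAddChar (b * x) * Z x‖ ^ 2 =
      (p : ℝ) * ∑ x : ZMod p, ‖Z x‖ ^ 2 := by
  classical
  apply parseval_of_orth
  intro h _ k _
  have h1 : ∀ b : ZMod p, (ZMod.stdAddChar (b * h) : ℂ) * conj (ZMod.stdAddChar (b * k) : ℂ) =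
      ZMod.stdAddChar (b * (h - k)) := by
    intro b
    rw [← AddChar.map_neg_eq_conj, ← AddChar.map_add_eq_mul]
    congr 1
    ring
  simp only [h1]
  rw [AddChar.sum_mulShift (h - k) (ZMod.isPrimitive_stdAddChar p)]
  by_cases hhk : h = k
  · subst hhk
    simp
  · rw [if_neg (sub_ne_zero.mpr hhk), if_neg hhk]
    simp

/-- Comparison of the multiplicative and the additive second moments. -/
theorem mult_le_add (Z : ZMod p → ℂ) :
    ∑ χ ∈ NT p, ‖∑ x : ZMod p, χ x * Z x‖ ^ 2 ≤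
      ∑ b ∈ Finset.univ.erase (0 : ZMod p), ‖∑ x : ZMod p, ZMod.stdAddChar (b * x) * Z x‖ ^ 2 := by
  classical
  have h1 := mult_parseval Z
  have h2 := add_parseval Z
  rw [← Finset.add_sum_erase _ _ (Finset.mem_univ (0 : ZMod p))] at h2
  rw [← Finset.sum_filter_add_sum_filter_not Finset.univ
    (fun χ : DirichletCharacter ℂ p => χ ≠ 1)] at h1
  have h3 : Finset.univ.filter (fun χ : DirichletCharacter ℂ p => χ ≠ 1) = NT p := by
    ext χ; rw [mem_NT]; simp
  have h4 : Finset.univ.filter (fun χ : DirichletCharacter ℂ p => ¬ (χ ≠ 1)) = {1} := by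
    ext χ; simp
  rw [h3, h4, Finset.sum_singleton] at h1
  set U := Finset.univ.erase (0 : ZMod p) with hU
  have h5 : ∑ x : ZMod p, (1 : DirichletCharacter ℂ p) x * Z x = ∑ x ∈ U, Z x := by
    rw [← Finset.add_sum_erase _ _ (Finset.mem_univ (0 : ZMod p)),
      DirichletCharacter.map_zero' _ hp.out.one_lt.ne', zero_mul, zero_add]
    refine Finset.sum_congr rfl fun x hx => ?_
    rw [Finset.mem_erase] at hx
    have : (1 : DirichletCharacter ℂ p) x = 1 := MulChar.one_apply_coe (Units.mk0 x hx.1)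
    rw [this, one_mul]
  have h6 : ∑ x : ZMod p, (ZMod.stdAddChar ((0 : ZMod p) * x) : ℂ) * Z x = Z 0 + ∑ x ∈ U, Z x := by
    simp only [zero_mul, AddChar.map_zero_eq_one, one_mul]
    rw [Finset.add_sum_erase _ _ (Finset.mem_univ (0 : ZMod p))]
  rw [h5] at h1
  rw [h6] at h2
  have h7 : ∑ x : ZMod p, ‖Z x‖ ^ 2 = ‖Z 0‖ ^ 2 + ∑ x ∈ U, ‖Z x‖ ^ 2 :=
    (Finset.add_sum_erase _ _ (Finset.mem_univ (0 : ZMod p))).symm
  rw [h7] at h2
  set A := ∑ x ∈ U, ‖Z x‖ ^ 2 with hA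
  set B := ∑ x ∈ U, Z x with hB
  have hp1 : (2 : ℝ) ≤ p := by exact_mod_cast hp.out.two_le
  have hcard : (U.card : ℝ) = p - 1 := by
    rw [hU, Finset.card_erase_of_mem (Finset.mem_univ _), Finset.card_univ, ZMod.card,
      Nat.cast_sub hp.out.one_le]
    simp
  have hCS : ‖B‖ ^ 2 ≤ ((p : ℝ) - 1) * A := by
    calc ‖B‖ ^ 2 ≤ (∑ x ∈ U, ‖Z x‖) ^ 2 := by
          gcongr
          exact norm_sum_le _ _
      _ ≤ U.card * ∑ x ∈ U, ‖Z x‖ ^ 2 := sq_sum_le_card_mul_sum_sq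
      _ = _ := by rw [hcard]
  have hnorm : ‖Z 0 + B‖ ≤ ‖Z 0‖ + ‖B‖ := norm_add_le _ _
  have hnorm2 : ‖Z 0 + B‖ ^ 2 ≤ (‖Z 0‖ + ‖B‖) ^ 2 := by gcongr
  have hkey : 2 * (‖Z 0‖ * ‖B‖) ≤ A + (p - 1) * ‖Z 0‖ ^ 2 := by
    have hpp : (0 : ℝ) < p - 1 := by linarith
    have h8 : ‖B‖ ^ 2 / (p - 1) ≤ A := by
      rw [div_le_iff₀ hpp]; linarith
    have h9 : ‖B‖ ^ 2 / (p - 1) + (p - 1) * ‖Z 0‖ ^ 2 - 2 * (‖Z 0‖ * ‖B‖) =
        (‖B‖ - (p - 1) * ‖Z 0‖) ^ 2 / (p - 1) := by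
      field_simp
      ring
    have h10 : 0 ≤ (‖B‖ - (p - 1) * ‖Z 0‖) ^ 2 / ((p:ℝ) - 1) := by positivity
    linarith
  nlinarith

/-- The comparison for exponential sums. -/
theorem char_le_exp (N : ℕ) (a : ℕ → ℂ) :
    ∑ χ ∈ NT p, ‖∑ n ∈ range (N + 1), a n * χ (n : ZMod p)‖ ^ 2 ≤
      ∑ b ∈ Icc 1 (p - 1), ‖∑ n ∈ range (N + 1), a n * eC n ((b : ℝ) / p)‖ ^ 2 := by
  classical
  set Z : ZMod p → ℂ := fun x => ∑ n ∈ (range (N + 1)).filter (fun n : ℕ => (n : ZMod p) = x), a n with hZ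
  have h0 : ∀ F : ZMod p → ℂ, ∑ n ∈ range (N + 1), a n * F (n : ZMod p) = ∑ x : ZMod p, F x * Z x := by
    intro F
    rw [← Finset.sum_fiberwise_of_maps_to (s := range (N + 1)) (t := Finset.univ)
      (g := fun n : ℕ => (n : ZMod p)) (fun _ _ => Finset.mem_univ _)]
    refine Finset.sum_congr rfl fun x _ => ?_
    rw [hZ]
    simp only
    rw [Finset.mul_sum]
    refine Finset.sum_congr rfl fun n hn => ?_
    rw [(Finset.mem_filter.mp hn).2]
    ring
  have h1 : ∀ χ : DirichletCharacter ℂ p, ∑ n ∈ range (N + 1), a n * χ (n : ZMod p) =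
      ∑ x : ZMod p, χ x * Z x := fun χ => h0 χ
  simp only [h1]
  refine (mult_le_add Z).trans (le_of_eq ?_)
  symm
  refine Finset.sum_bij' (fun b _ => (b : ZMod p)) (fun x _ => x.val) ?_ ?_ ?_ ?_ ?_
  · intro b hb
    rw [Finset.mem_Icc] at hb
    rw [Finset.mem_erase]
    refine ⟨?_, Finset.mem_univ _⟩
    rw [Ne, ZMod.natCast_eq_zero_iff]
    intro h
    have := Nat.le_of_dvd (by omega) h
    have := hp.out.pos
    omega
  · intro x hx
    rw [Finset.mem_erase] at hx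
    rw [Finset.mem_Icc]
    have h2 := ZMod.val_lt x
    have h3 : x.val ≠ 0 := by
      intro h
      exact hx.1 ((ZMod.val_eq_zero x).mp h)
    omega
  · intro b hb
    rw [Finset.mem_Icc] at hb
    have := hp.out.pos
    exact ZMod.val_cast_of_lt (by omega)
  · intro x _
    exact ZMod.natCast_zmod_val x
  · intro b _
    congr 2
    rw [← h0 (fun x => (ZMod.stdAddChar ((b : ZMod p) * x) : ℂ))]
    refine Finset.sum_congr rfl fun n _ => ?_
    congr 1
    have h4 : ((b : ZMod p) * (n : ZMod p)) = (((b * n : ℕ) : ℤ) : ZMod p) := by push_cast; rfl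
    rw [h4, ZMod.stdAddChar_coe]
    unfold eC
    congr 1
    push_cast
    ring

end prime

/-- The large sieve inequality for nontrivial characters to prime moduli `≤ X`. -/
theorem large_sieve_opt (X N : ℕ) (a : ℕ → ℂ) :
    ∑ j ∈ fam X, ‖∑ n ∈ range (N + 1), a n * j.2 (n : ZMod j.1)‖ ^ 2 ≤
      ((X : ℝ) ^ 2 + 4 * Real.pi * (N + 1)) * ∑ n ∈ range (N + 1), ‖a n‖ ^ 2 := by
  refine le_trans ?_ (additive_large_sieve X N a)
  unfold fam
  rw [Finset.sum_sigma]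
  refine Finset.sum_le_sum fun p hp => ?_
  have : Fact p.Prime := ⟨(Finset.mem_filter.mp hp).2⟩
  exact char_le_exp N a

end Pool.Agent.Helper8.ArtinLS
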