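import Pool.Agent.Helper8.ArtinAllD
import Pool.Agent.Helper8.LargeSieve
import Pool.Agent.Helper8.DivBound

set_option autoImplicit false

namespace Pool.Agent.Helper8.ArtinLS

open Finset ComplexConjugate

/-- The moment bound for the `r`-th power of a short character sum supported on `E ⊆ [1, M]`,
in terms of the maximal number `R` of ordered factorisations into elements of `E`. -/
theorem moment_bound_opt (X M r R : ℕ) (E : Finset ℕ) (hE : ∀ m ∈ E, m ≤ M) (ε : ℕ → ℂ)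
    (hε : ∀ m, ‖ε m‖ ≤ 1)
    (hR : ∀ n : ℕ, ((Fintype.piFinset fun _ : Fin r => E).filter
      (fun t => ∏ i, t i = n)).card ≤ R) :
    ∑ j ∈ fam X, ‖∑ m ∈ E, ε m * j.2 (m : ZMod j.1)‖ ^ (2 * r) ≤
      ((X : ℝ) ^ 2 + 4 * Real.pi * ((M : ℝ) ^ r + 1)) * (R * (E.card : ℝ) ^ r) := by
  classical
  set P := Fintype.piFinset fun _ : Fin r => E with hP
  set A : ℕ → ℂ := fun n => ∑ t ∈ P.filter (fun t => ∏ i, t i = n), ∏ i, ε (t i) with hA
  have hprod : ∀ t ∈ P, ∏ i, t i ∈ range (M ^ r + 1) := by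
    intro t ht
    rw [Finset.mem_range, Nat.lt_succ_iff]
    calc ∏ i, t i ≤ ∏ _i : Fin r, M := Finset.prod_le_prod' fun i _ =>
          hE _ (Fintype.mem_piFinset.1 ht i)
      _ = M ^ r := by simp
  -- the `r`-th power
  have h1 : ∀ j : (Σ p : ℕ, DirichletCharacter ℂ p),
      (∑ m ∈ E, ε m * j.2 (m : ZMod j.1)) ^ r =
        ∑ n ∈ range (M ^ r + 1), A n * j.2 (n : ZMod j.1) := by
    intro j
    have h2 : (∑ m ∈ E, ε m * j.2 (m : ZMod j.1)) ^ r =
        ∑ t ∈ P, ∏ i, (ε (t i) * j.2 ((t i : ℕ) : ZMod j.1)) := by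
      rw [hP, ← Finset.prod_univ_sum (fun _ : Fin r => E)
        (fun _ m => ε m * j.2 (m : ZMod j.1))]
      simp
    rw [h2, ← Finset.sum_fiberwise_of_maps_to hprod]
    refine Finset.sum_congr rfl fun n _ => ?_
    simp only [hA, Finset.sum_mul]
    refine Finset.sum_congr rfl fun t ht => ?_
    rw [Finset.mem_filter] at ht
    rw [Finset.prod_mul_distrib, ← map_prod]
    congr 2
    rw [← ht.2]
    push_cast
    rfl
  have h3 : ∑ j ∈ fam X, ‖∑ m ∈ E, ε m * j.2 (m : ZMod j.1)‖ ^ (2 * r) =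
      ∑ j ∈ fam X, ‖∑ n ∈ range (M ^ r + 1), A n * j.2 (n : ZMod j.1)‖ ^ 2 := by
    refine Finset.sum_congr rfl fun j _ => ?_
    rw [← h1, norm_pow, ← pow_mul, mul_comm]
  rw [h3]
  refine (large_sieve_opt X (M ^ r) A).trans ?_
  push_cast
  have hpi := Real.pi_pos
  refine mul_le_mul_of_nonneg_left ?_ (by positivity)
  -- the coefficients
  have h4 : ∀ n, ‖A n‖ ≤ ((P.filter (fun t => ∏ i, t i = n)).card : ℝ) := by
    intro n
    simp only [hA]
    refine (norm_sum_le _ _).trans ?_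
    calc _ ≤ ∑ t ∈ P.filter (fun t => ∏ i, t i = n), (1 : ℝ) := by
          refine Finset.sum_le_sum fun t _ => ?_
          rw [norm_prod]
          exact Finset.prod_le_one (fun i _ => norm_nonneg _) fun i _ => hε _
      _ = _ := by simp
  calc ∑ n ∈ range (M ^ r + 1), ‖A n‖ ^ 2
      ≤ ∑ n ∈ range (M ^ r + 1), (R : ℝ) * ((P.filter (fun t => ∏ i, t i = n)).card : ℝ) := by
        refine Finset.sum_le_sum fun n _ => ?_
        have h5 : ((P.filter (fun t => ∏ i, t i = n)).card : ℝ) ≤ R := by exact_mod_cast hR n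
        have h6 := h4 n
        have h7 := norm_nonneg (A n)
        rw [sq]
        exact mul_le_mul (h6.trans h5) h6 h7 (by positivity)
    _ = (R : ℝ) * (P.card : ℝ) := by
        rw [← Finset.mul_sum, Finset.card_eq_sum_card_fiberwise hprod]
        push_cast
        rfl
    _ = R * (E.card : ℝ) ^ r := by
        rw [hP, Fintype.card_piFinset]
        simp

/-- If the fluctuating part is at least `T` in absolute value for all `m` in a set `E ⊆ [1, M]`
whose elements have at most `R` ordered factorisations of length `r`, then `E` is small. -/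
theorem exceptional_opt (a : ℤ) (x M r R : ℕ) (hx : 1 ≤ x) (hr : 1 ≤ r)
    (E : Finset ℕ) (hE : ∀ m ∈ E, m ≤ M)
    (hR : ∀ n : ℕ, ((Fintype.piFinset fun _ : Fin r => E).filter
      (fun t => ∏ i, t i = n)).card ≤ R)
    (T : ℝ) (hT : 0 ≤ T) (hD : ∀ m ∈ E, T ≤ |DC a m x|) :
    (x : ℝ) * ((E.card : ℝ) * T ^ 2) ^ r ≤
      R * (((x : ℝ) * (1 + Real.log x)) ^ 2) ^ r * ((x : ℝ) ^ 2 + 4 * Real.pi * ((M : ℝ) ^ r + 1)) := by
  classical
  -- trivial case
  have hx1 : (1 : ℝ) ≤ x := by exact_mod_cast hx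
  have hlog : 0 ≤ Real.log x := Real.log_nonneg hx1
  set W : ℝ := (x : ℝ) * (1 + Real.log x) with hW
  have hWx : (x : ℝ) ≤ W := by rw [hW]; nlinarith
  have hW0 : 0 < W := lt_of_lt_of_le (by linarith) hWx
  rcases Finset.eq_empty_or_nonempty E with rfl | hEne
  · rw [Finset.card_empty, Nat.cast_zero, zero_mul, zero_pow (by omega), mul_zero]
    positivity
  have hEpos : (0 : ℝ) < E.card := by exact_mod_cast Finset.card_pos.2 hEne
  -- signs
  set ε : ℕ → ℂ := fun m => ((SignType.sign (DC a m x) : ℤ) : ℂ) with hε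
  have hεn : ∀ m, ‖ε m‖ ≤ 1 := by
    intro m
    rw [hε]
    simp only
    rcases lt_trichotomy (DC a m x) 0 with h | h | h
    · rw [sign_neg h]; simp
    · rw [h, sign_zero]; simp
    · rw [sign_pos h]; simp
  have hεD : ∀ m, ε m * (DC a m x : ℂ) = ((|DC a m x| : ℝ) : ℂ) := by
    intro m
    have := sign_mul_self (DC a m x)
    have h2 : ((SignType.sign (DC a m x) : ℝ) : ℂ) * (DC a m x : ℂ) = ((|DC a m x| : ℝ) : ℂ) := by
      exact_mod_cast congrArg (fun z : ℝ => (z : ℂ)) this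
    rw [← h2, hε]
    congr 1
    rcases lt_trichotomy (DC a m x) 0 with h | h | h
    · simp only [sign_neg h]; simp
    · simp only [h, sign_zero]; simp
    · simp only [sign_pos h]; simp
  -- the index set
  set I : Finset (Σ p : ℕ, DirichletCharacter ℂ p) := (oddPrimes x).sigma NT with hI
  set w : (Σ p : ℕ, DirichletCharacter ℂ p) → ℝ := fun j => ‖coef j.1 j.2‖ with hw
  set z : (Σ p : ℕ, DirichletCharacter ℂ p) → ℝ := fun j =>
    ‖∑ m ∈ E, ε m * j.2 (m : ZMod j.1)‖ with hz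
  have h1 : (E.card : ℝ) * T ≤ ∑ j ∈ I, w j * z j := by
    have h2 : (E.card : ℝ) * T ≤ ∑ m ∈ E, |DC a m x| := by
      rw [← nsmul_eq_mul]
      exact Finset.card_nsmul_le_sum E _ T hD
    refine h2.trans ?_
    have h3 : ((∑ m ∈ E, |DC a m x| : ℝ) : ℂ) =
        ∑ j ∈ I, coef j.1 j.2 * j.2 (a : ZMod j.1) *
          ∑ m ∈ E, ε m * j.2 (m : ZMod j.1) := by
      push_cast
      have h4 : ∀ m ∈ E, ((|DC a m x| : ℝ) : ℂ) = ∑ j ∈ I,
          ε m * (coef j.1 j.2 * j.2 (a : ZMod j.1) * j.2 (m : ZMod j.1)) := by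
        intro m _
        rw [← hεD, DC_eq, ← Finset.mul_sum]
        rw [hI, Finset.sum_sigma]
      rw [Finset.sum_congr rfl h4, Finset.sum_comm]
      refine Finset.sum_congr rfl fun j _ => ?_
      rw [Finset.mul_sum]
      refine Finset.sum_congr rfl fun m _ => ?_
      ring
    have h5 : ∑ m ∈ E, |DC a m x| = ‖((∑ m ∈ E, |DC a m x| : ℝ) : ℂ)‖ := by
      rw [Complex.norm_real, Real.norm_of_nonneg (Finset.sum_nonneg fun m _ => abs_nonneg _)]
    rw [h5, h3]
    refine (norm_sum_le _ _).trans (Finset.sum_le_sum fun j _ => ?_)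
    rw [norm_mul, norm_mul]
    refine mul_le_mul_of_nonneg_right ?_ (norm_nonneg _)
    exact mul_le_of_le_one_right (norm_nonneg _) (norm_char_le_one _ _)
  -- Hölder
  obtain ⟨k, hk⟩ : ∃ k, 2 * r = k + 1 := ⟨2 * r - 1, by omega⟩
  have h6 := holder_pow I w z (fun j _ => norm_nonneg _) (fun j _ => norm_nonneg _) k
  rw [← hk] at h6
  have h7 : ∑ j ∈ I, w j ≤ W := by
    rw [hI, Finset.sum_sigma]
    refine (Finset.sum_le_sum fun p hp => ?_).trans (sum_divisors_oddPrimes_le x)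
    have : Fact p.Prime := ⟨(mem_oddPrimes.1 hp).2.1⟩
    refine (Finset.sum_le_sum_of_subset_of_nonneg (Finset.subset_univ _)
      fun _ _ _ => norm_nonneg _).trans ?_
    exact sum_norm_coef_le
  have h8 : ∑ j ∈ I, w j * z j ^ (2 * r) ≤
      ((x : ℝ) ^ 2 + 4 * Real.pi * ((M : ℝ) ^ r + 1)) * (R * (E.card : ℝ) ^ r) := by
    have h9 : ∑ j ∈ I, w j * z j ^ (2 * r) ≤ ∑ p ∈ oddPrimes x, ∑ χ ∈ NT p,
        ‖∑ m ∈ E, ε m * χ (m : ZMod p)‖ ^ (2 * r) := by
      rw [hI, Finset.sum_sigma]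
      refine Finset.sum_le_sum fun p hp => Finset.sum_le_sum fun χ _ => ?_
      have : Fact p.Prime := ⟨(mem_oddPrimes.1 hp).2.1⟩
      have h10 : ‖coef p χ‖ ≤ 1 := norm_coef_le_one χ
      calc _ ≤ 1 * ‖∑ m ∈ E, ε m * χ (m : ZMod p)‖ ^ (2 * r) := by
            refine mul_le_mul_of_nonneg_right h10 (by positivity)
        _ = _ := one_mul _
    refine h9.trans ?_
    refine le_trans ?_ (moment_bound_opt x M r R E hE ε hεn hR)
    unfold fam
    rw [Finset.sum_sigma]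
    refine Finset.sum_le_sum_of_subset_of_nonneg ?_ fun _ _ _ =>
      Finset.sum_nonneg fun _ _ => by positivity
    intro p hp
    rw [mem_oddPrimes] at hp
    rw [Finset.mem_filter, Finset.mem_range]
    exact ⟨by omega, hp.2.1⟩
  set V : ℝ := (x : ℝ) ^ 2 + 4 * Real.pi * ((M : ℝ) ^ r + 1) with hV
  have hpi := Real.pi_pos
  have hV0 : 0 ≤ V := by positivity
  have h12 : ((E.card : ℝ) * T) ^ (2 * r) ≤ W ^ k * (V * (R * (E.card : ℝ) ^ r)) := by
    calc ((E.card : ℝ) * T) ^ (2 * r) ≤ (∑ j ∈ I, w j * z j) ^ (2 * r) := by gcongr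
      _ ≤ (∑ j ∈ I, w j) ^ k * ∑ j ∈ I, w j * z j ^ (2 * r) := h6
      _ ≤ W ^ k * (V * (R * (E.card : ℝ) ^ r)) := by
          have : 0 ≤ ∑ j ∈ I, w j := Finset.sum_nonneg fun j _ => norm_nonneg _
          have h13 : 0 ≤ ∑ j ∈ I, w j * z j ^ (2 * r) :=
            Finset.sum_nonneg fun j _ => mul_nonneg (norm_nonneg _) (by positivity)
          gcongr
  -- divide by `|E| ^ r`
  have hEr : (0 : ℝ) < (E.card : ℝ) ^ r := by positivity
  have h14 : ((E.card : ℝ) * T ^ 2) ^ r ≤ W ^ k * (V * R) := by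
    have e1 : ((E.card : ℝ) * T) ^ (2 * r) = ((E.card : ℝ) * T ^ 2) ^ r * (E.card : ℝ) ^ r := by
      rw [pow_mul, ← mul_pow]
      congr 1
      ring
    rw [e1] at h12
    have e2 : W ^ k * (V * (R * (E.card : ℝ) ^ r)) =
        W ^ k * (V * R) * (E.card : ℝ) ^ r := by ring
    rw [e2] at h12
    exact le_of_mul_le_mul_right h12 hEr
  calc (x : ℝ) * ((E.card : ℝ) * T ^ 2) ^ r ≤ W * (W ^ k * (V * R)) := by gcongr
    _ = R * W ^ (2 * r) * V := by rw [hk]; ring
    _ = R * (W ^ 2) ^ r * V := by rw [← pow_mul]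

end Pool.Agent.Helper8.ArtinLS
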