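import Pool.Agent.Helper8.ArtinAllC

open MeasureTheory Set Filter Topology Real

namespace Pool.Agent.Helper8.ArtinC

open Pool.Agent.Helper6 Pool.Agent.Helper8.ArtinLS

/-- Artin's constant -/
noncomputable def CA : ℝ := ∏' p : Nat.Primes, (1 - 1 / (((p : ℕ) : ℝ) * (((p : ℕ) : ℝ) - 1)))

lemma main_CA : Tendsto (fun x : ℕ => artinEC x / Nat.primeCounting x) atTop (𝓝 CA) :=
  Pool.Agent.Helper7.main_term_one

lemma artinEC_le (x : ℕ) : 0 ≤ artinEC x ∧ artinEC x ≤ 1 * Nat.primeCounting x := by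
  constructor
  · unfold artinEC
    exact Finset.sum_nonneg fun p _ => (mainC_bounds p).1
  · unfold artinEC
    calc _ ≤ ∑ p ∈ (Finset.range (x+1)).filter (fun p : ℕ => p.Prime ∧ p ≠ 2), (1:ℝ) :=
          Finset.sum_le_sum fun p _ => (mainC_bounds p).2
      _ = (((Finset.range (x+1)).filter (fun p : ℕ => p.Prime ∧ p ≠ 2)).card : ℝ) := by
          simp
      _ ≤ 1 * Nat.primeCounting x := by
          rw [one_mul, Nat.primeCounting, Nat.primeCounting', Nat.count_eq_card_filter_range]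
          have : (Finset.range (x+1)).filter (fun p : ℕ => p.Prime ∧ p ≠ 2) ⊆
              (Finset.range (x+1)).filter Nat.Prime := by
            intro p hp
            simp only [Finset.mem_filter] at hp ⊢
            exact ⟨hp.1, hp.2.1⟩
          exact_mod_cast Finset.card_le_card this

lemma CA_bounds : 0 ≤ CA ∧ CA ≤ 1 := by
  constructor
  · apply ge_of_tendsto' main_CA
    intro x
    exact div_nonneg (artinEC_le x).1 (Nat.cast_nonneg _)
  · apply le_of_tendsto' main_CA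
    intro x
    exact div_le_of_le_mul₀ (Nat.cast_nonneg _) (by norm_num) (artinEC_le x).2

/-- the conjectural density, for squarefree part `b = 1 mod 4` -/
noncomputable def dlt (b : ℤ) : ℝ := (1 - ((ArithmeticFunction.moebius b.natAbs : ℤ) : ℝ) *
                    ∏ q ∈ b.natAbs.primeFactors, (1 / ((q : ℝ) ^ 2 - (q : ℝ) - 1))) * CA

lemma dlt_close {b : ℤ} (hb : Squarefree b) (hb4 : b % 4 = 1) :
    |dlt b - CA| ≤ 1 / (b.natAbs : ℝ) := by
  have hsq : Squarefree b.natAbs := Int.squarefree_natAbs.2 hb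
  have hprod : ∏ q ∈ b.natAbs.primeFactors, ((q:ℕ):ℝ) = (b.natAbs : ℝ) := by
    rw [← Nat.cast_prod, Nat.prod_primeFactors_of_squarefree hsq]
  have h1 : dlt b - CA = -(((ArithmeticFunction.moebius b.natAbs : ℤ) : ℝ) *
      ((∏ q ∈ b.natAbs.primeFactors, (1 / ((q : ℝ) ^ 2 - (q : ℝ) - 1))) * CA)) := by
    unfold dlt; ring
  have hq3 : ∀ q ∈ b.natAbs.primeFactors, (3:ℝ) ≤ (q:ℝ) := by
    intro q hq
    have hp := Nat.prime_of_mem_primeFactors hq
    have hd := Nat.dvd_of_mem_primeFactors hq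
    have h2 : q ≠ 2 := by rintro rfl; omega
    have h3 := hp.two_le
    exact_mod_cast (by omega : 3 ≤ q)
  have h2 : 0 ≤ ∏ q ∈ b.natAbs.primeFactors, (1 / ((q : ℝ) ^ 2 - (q : ℝ) - 1)) := by
    apply Finset.prod_nonneg
    intro q hq
    have := hq3 q hq
    apply div_nonneg zero_le_one
    nlinarith
  have h3 : ∏ q ∈ b.natAbs.primeFactors, (1 / ((q : ℝ) ^ 2 - (q : ℝ) - 1)) ≤
      1 / (b.natAbs : ℝ) := by
    rw [← hprod, one_div, ← Finset.prod_inv_distrib]
    apply Finset.prod_le_prod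
    · intro q hq
      have := hq3 q hq
      apply div_nonneg zero_le_one
      nlinarith
    · intro q hq
      have := hq3 q hq
      rw [one_div]
      apply inv_anti₀ (by linarith)
      nlinarith
  have h4 : |((ArithmeticFunction.moebius b.natAbs : ℤ) : ℝ)| ≤ 1 := by
    exact_mod_cast ArithmeticFunction.abs_moebius_le_one
  have hC := CA_bounds
  rw [h1, abs_neg, abs_mul, abs_of_nonneg (mul_nonneg h2 hC.1)]
  calc |((ArithmeticFunction.moebius b.natAbs : ℤ) : ℝ)| *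
      ((∏ q ∈ b.natAbs.primeFactors, (1 / ((q : ℝ) ^ 2 - (q : ℝ) - 1))) * CA)
      ≤ 1 * ((∏ q ∈ b.natAbs.primeFactors, (1 / ((q : ℝ) ^ 2 - (q : ℝ) - 1))) * CA) :=
        mul_le_mul_of_nonneg_right h4 (mul_nonneg h2 hC.1)
    _ ≤ 1 * ((∏ q ∈ b.natAbs.primeFactors, (1 / ((q : ℝ) ^ 2 - (q : ℝ) - 1))) * 1) := by
        gcongr
        exact hC.2
    _ ≤ _ := by rw [one_mul, mul_one]; exact h3

/-- the integers with small squarefree part are rare -/
lemma small_part_count (B : ℕ) (N : ℕ) (E : Finset ℤ) (hE : ∀ n ∈ E, n.natAbs ≤ N ∧ n ≠ 0)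
    (h : ∀ n ∈ E, ∃ b : ℤ, b.natAbs ≤ B ∧ ∃ m : ℤ, n = b * m ^ 2) :
    E.card ≤ (2 * B + 1) * (Nat.sqrt N + 1) := by
  classical
  have hmap : ∀ n ∈ E, ∃ q : ℤ × ℕ, q ∈ Finset.Icc (-(B:ℤ)) B ×ˢ Finset.range (Nat.sqrt N + 1) ∧
      n = q.1 * (q.2:ℤ) ^ 2 := by
    intro n hn
    obtain ⟨b, hb, m, rfl⟩ := h n hn
    obtain ⟨h1, h2⟩ := hE _ hn
    have hb0 : b ≠ 0 := by rintro rfl; simp at h2
    refine ⟨(b, m.natAbs), ?_, ?_⟩
    · rw [Finset.mem_product, Finset.mem_Icc, Finset.mem_range, Nat.lt_succ_iff, Nat.le_sqrt]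
      refine ⟨by constructor <;> (simp only; omega), ?_⟩
      rw [Int.natAbs_mul, Int.natAbs_pow] at h1
      have : 1 ≤ b.natAbs := Int.natAbs_pos.mpr hb0
      nlinarith
    · simp only [Int.natCast_natAbs, sq_abs]
  choose! q hq1 hq2 using hmap
  have hinj : Set.InjOn q E := by
    intro m hm m' hm' heq
    rw [hq2 m hm, hq2 m' hm', heq]
  have hcard : E.card ≤ (Finset.Icc (-(B:ℤ)) B ×ˢ Finset.range (Nat.sqrt N + 1)).card :=
    Finset.card_le_card_of_injOn q hq1 hinj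
  rw [Finset.card_product, Finset.card_range, Int.card_Icc] at hcard
  have : ((B:ℤ) + 1 - -(B:ℤ)).toNat = 2 * B + 1 := by omega
  rwa [this] at hcard

end Pool.Agent.Helper8.ArtinC
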