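import Pool.Agent.Helper8.ArtinChar

set_option autoImplicit false

namespace Pool.Agent.Helper8.ArtinLS

open Finset ComplexConjugate

/-- The moment bound for the `r`-th power of a short character sum supported on `E ⊆ [1, M]`,
in terms of the maximal number `R` of ordered factorisations into elements of `E`. -/
theorem moment_bound (X M r R : ℕ) (E : Finset ℕ) (hE : ∀ m ∈ E, m ≤ M) (ε : ℕ → ℂ)
    (hε : ∀ m, ‖ε m‖ ≤ 1)
    (hR : ∀ n : ℕ, ((Fintype.piFinset fun _ : Fin r => E).filter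
      (fun t => ∏ i, t i = n)).card ≤ R) :
    ∑ j ∈ fam X, ‖∑ m ∈ E, ε m * j.2 (m : ZMod j.1)‖ ^ (2 * r) ≤
      ((M : ℝ) ^ r + (X : ℝ) ^ 4) * (R * (E.card : ℝ) ^ r) := by
  classical
  set P := Fintype.piFinset fun _ : Fin r => E with hP
  set A : ℕ → ℂ := fun n => ∑ t ∈ P.filter (fun t => ∏ i, t i = n), ∏ i, ε (t i) with hA
  have hprod : ∀ t ∈ P, ∏ i, t i ∈ range (M ^ r + 1) := by
    intro t ht
    rw [Finset.mem_range, Nat.lt_succ_iff]
    calc ∏ i, t i ≤ ∏ _i : Fin r, M := Finset.prod_le_prod' fun i _ =>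
          hE _ (Fintype.mem_piFinset.1 ht i)
      _ = M ^ r := by simp
  -- the `r`-th power
  have h1 : ∀ j : (Σ p : ℕ, DirichletCharacter ℂ p),
      (∑ m ∈ E, ε m * j.2 (m : ZMod j.1)) ^ r =
        ∑ n ∈ range (M ^ r + 1), A n * j.2 (n : ZMod j.1) := by
    intro j
    have h2 : (∑ m ∈ E, ε m * j.2 (m : ZMod j.1)) ^ r =
        ∑ t ∈ P, ∏ i, (ε (t i) * j.2 ((t i : ℕ) : ZMod j.1)) := by
      rw [hP, ← Finset.prod_univ_sum (fun _ : Fin r => E)
        (fun _ m => ε m * j.2 (m : ZMod j.1))]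
      simp
    rw [h2, ← Finset.sum_fiberwise_of_maps_to hprod]
    refine Finset.sum_congr rfl fun n _ => ?_
    simp only [hA, Finset.sum_mul]
    refine Finset.sum_congr rfl fun t ht => ?_
    rw [Finset.mem_filter] at ht
    rw [Finset.prod_mul_distrib, ← map_prod]
    congr 2
    rw [← ht.2]
    push_cast
    rfl
  have h3 : ∑ j ∈ fam X, ‖∑ m ∈ E, ε m * j.2 (m : ZMod j.1)‖ ^ (2 * r) =
      ∑ j ∈ fam X, ‖∑ n ∈ range (M ^ r + 1), A n * j.2 (n : ZMod j.1)‖ ^ 2 := by
    refine Finset.sum_congr rfl fun j _ => ?_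
    rw [← h1, norm_pow, ← pow_mul, mul_comm]
  rw [h3]
  refine (large_sieve X (M ^ r) A).trans ?_
  push_cast
  refine mul_le_mul_of_nonneg_left ?_ (by positivity)
  -- the coefficients
  have h4 : ∀ n, ‖A n‖ ≤ ((P.filter (fun t => ∏ i, t i = n)).card : ℝ) := by
    intro n
    simp only [hA]
    refine (norm_sum_le _ _).trans ?_
    calc _ ≤ ∑ t ∈ P.filter (fun t => ∏ i, t i = n), (1 : ℝ) := by
          refine Finset.sum_le_sum fun t _ => ?_
          rw [norm_prod]
          exact Finset.prod_le_one (fun i _ => norm_nonneg _) fun i _ => hε _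
      _ = _ := by simp
  calc ∑ n ∈ range (M ^ r + 1), ‖A n‖ ^ 2
      ≤ ∑ n ∈ range (M ^ r + 1), (R : ℝ) * ((P.filter (fun t => ∏ i, t i = n)).card : ℝ) := by
        refine Finset.sum_le_sum fun n _ => ?_
        have h5 : ((P.filter (fun t => ∏ i, t i = n)).card : ℝ) ≤ R := by exact_mod_cast hR n
        have h6 := h4 n
        have h7 := norm_nonneg (A n)
        rw [sq]
        exact mul_le_mul (h6.trans h5) h6 h7 (by positivity)
    _ = (R : ℝ) * (P.card : ℝ) := by
        rw [← Finset.mul_sum, Finset.card_eq_sum_card_fiberwise hprod]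
        push_cast
        rfl
    _ = R * (E.card : ℝ) ^ r := by
        rw [hP, Fintype.card_piFinset]
        simp

/-- The average order of the divisor function, upper bound. -/
theorem sum_card_divisors_le (N : ℕ) :
    ∑ n ∈ Icc 1 N, (n.divisors.card : ℝ) ≤ N * (1 + Real.log N) := by
  have h1 : ∑ n ∈ Icc 1 N, n.divisors.card = ∑ d ∈ Icc 1 N, N / d := by
    have h2 : ∀ n ∈ Icc 1 N, n.divisors.card = ∑ d ∈ Icc 1 N, if d ∣ n then 1 else 0 := by
      intro n hn
      rw [Finset.mem_Icc] at hn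
      rw [← Finset.card_filter]
      congr 1
      ext d
      simp only [Nat.mem_divisors, Finset.mem_filter, Finset.mem_Icc]
      constructor
      · rintro ⟨h, h0⟩
        have := Nat.le_of_dvd (by omega) h
        have := Nat.pos_of_dvd_of_pos h (by omega)
        exact ⟨⟨by omega, by omega⟩, h⟩
      · rintro ⟨_, h⟩
        exact ⟨h, by omega⟩
    rw [Finset.sum_congr rfl h2, Finset.sum_comm]
    refine Finset.sum_congr rfl fun d _ => ?_
    rw [← Finset.card_filter]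
    have h3 := Nat.card_multiples' N d
    rw [← h3]
    congr 1
    ext n
    simp only [Finset.mem_filter, Finset.mem_Icc, Finset.mem_range]
    constructor
    · rintro ⟨⟨h1, h2⟩, h3⟩
      exact ⟨by omega, by omega, h3⟩
    · rintro ⟨h1, h2, h3⟩
      exact ⟨⟨by omega, by omega⟩, h3⟩
  calc ∑ n ∈ Icc 1 N, (n.divisors.card : ℝ) = ((∑ n ∈ Icc 1 N, n.divisors.card : ℕ) : ℝ) := by
        push_cast; rfl
    _ = ∑ d ∈ Icc 1 N, ((N / d : ℕ) : ℝ) := by rw [h1]; push_cast; rfl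
    _ ≤ ∑ d ∈ Icc 1 N, (N : ℝ) * (d : ℝ)⁻¹ := by
        refine Finset.sum_le_sum fun d _ => ?_
        exact (Nat.cast_div_le).trans (le_of_eq (div_eq_mul_inv _ _))
    _ = N * ((harmonic N : ℚ) : ℝ) := by
        rw [← Finset.mul_sum, harmonic_eq_sum_Icc]
        push_cast
        rfl
    _ ≤ N * (1 + Real.log N) := by
        gcongr
        exact harmonic_le_one_add_log N

/-- The indicator function of `n` being a primitive root modulo `p`. -/
noncomputable def fprim (p : ℕ) (n : ℤ) : ℝ := if orderOf (n : ZMod p) = p - 1 then 1 else 0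

/-- The fluctuating part of the number of primes `p ≤ x` having `b * m ^ 2` as a primitive
root. -/
noncomputable def D (b : ℤ) (m x : ℕ) : ℝ :=
  ∑ p ∈ (range (x + 1)).filter (fun p : ℕ => p.Prime ∧ p ≠ 2 ∧ ¬ ((p : ℤ) ∣ b * m)),
    (fprim p (b * m ^ 2) - (Nat.totient (p - 1) : ℝ) / ((p : ℝ) - 1) * (1 - jacobiSym b p))

/-- The odd primes up to `x`. -/
def oddPrimes (x : ℕ) : Finset ℕ := (range (x + 1)).filter (fun p => p.Prime ∧ p ≠ 2)

theorem mem_oddPrimes {x p : ℕ} : p ∈ oddPrimes x ↔ p ≤ x ∧ p.Prime ∧ p ≠ 2 := by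
  unfold oddPrimes
  rw [Finset.mem_filter, Finset.mem_range, Nat.lt_succ_iff]

theorem D_eq (b : ℤ) (m x : ℕ) :
    ((D b m x : ℝ) : ℂ) = ∑ p ∈ oddPrimes x, ∑ χ ∈ Q p,
        coef p χ * χ (b : ZMod p) * (χ ^ 2) (m : ZMod p) := by
  classical
  have h1 : (range (x + 1)).filter (fun p : ℕ => p.Prime ∧ p ≠ 2 ∧ ¬ ((p : ℤ) ∣ b * m)) =
      (oddPrimes x).filter (fun p : ℕ => ¬ ((p : ℤ) ∣ b * m)) := by
    unfold oddPrimes
    rw [Finset.filter_filter]
    congr 1
    ext p
    tauto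
  unfold D
  rw [h1, ← Finset.sum_filter_add_sum_filter_not (oddPrimes x)
    (fun p : ℕ => ¬ ((p : ℤ) ∣ b * m)) (fun p => ∑ χ ∈ Q p,
        coef p χ * χ (b : ZMod p) * (χ ^ 2) (m : ZMod p))]
  have h2 : ∑ p ∈ (oddPrimes x).filter (fun p : ℕ => ¬ ¬ ((p : ℤ) ∣ b * m)), ∑ χ ∈ Q p,
        coef p χ * χ (b : ZMod p) * (χ ^ 2) (m : ZMod p) = 0 := by
    refine Finset.sum_eq_zero fun p hp => ?_
    rw [Finset.mem_filter, mem_oddPrimes, not_not] at hp
    obtain ⟨⟨_, hpp, _⟩, hdvd⟩ := hp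
    have : Fact p.Prime := ⟨hpp⟩
    refine Finset.sum_eq_zero fun χ hχ => ?_
    rcases (Nat.prime_iff_prime_int.1 hpp).dvd_or_dvd hdvd with h | h
    · have : (b : ZMod p) = 0 := (ZMod.intCast_zmod_eq_zero_iff_dvd b p).2 h
      rw [this, DirichletCharacter.map_zero' χ hpp.one_lt.ne']
      simp
    · have : (m : ZMod p) = 0 := (ZMod.natCast_eq_zero_iff m p).2 (by exact_mod_cast h)
      rw [this, DirichletCharacter.map_zero' _ hpp.one_lt.ne']
      simp
  rw [h2, add_zero]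
  push_cast
  refine Finset.sum_congr rfl fun p hp => ?_
  rw [Finset.mem_filter, mem_oddPrimes] at hp
  obtain ⟨⟨_, hpp, hp2⟩, hdvd⟩ := hp
  have : Fact p.Prime := ⟨hpp⟩
  have hb : (b : ZMod p) ≠ 0 := by
    intro h
    exact hdvd (Dvd.dvd.mul_right ((ZMod.intCast_zmod_eq_zero_iff_dvd b p).1 h) _)
  have hm : (m : ZMod p) ≠ 0 := by
    intro h
    have : p ∣ m := (ZMod.natCast_eq_zero_iff m p).1 h
    exact hdvd (Dvd.dvd.mul_left (by exact_mod_cast this) _)
  rw [← expansion_sq hp2 hb hm]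
  have h3 : (jacobiSym b p : ℤ) = quadraticChar (ZMod p) (b : ZMod p) := by
    rw [← jacobiSym.legendreSym.to_jacobiSym]
    rfl
  unfold fprim
  rw [h3]
  push_cast
  congr 1
  split_ifs <;> simp

/-- The divisor sum over shifted primes. -/
theorem sum_divisors_oddPrimes_le (x : ℕ) :
    ∑ p ∈ oddPrimes x, ((p - 1).divisors.card : ℝ) ≤ x * (1 + Real.log x) := by
  classical
  have h1 : ∑ p ∈ oddPrimes x, ((p - 1).divisors.card : ℝ) ≤
      ∑ n ∈ Icc 1 x, (n.divisors.card : ℝ) := by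
    have hinj : Set.InjOn (fun p : ℕ => p - 1) (oddPrimes x) := by
      intro p hp q hq h
      have h1 := (mem_oddPrimes.1 hp).2.1.two_le
      have h2 := (mem_oddPrimes.1 hq).2.1.two_le
      simp only at h
      omega
    rw [← Finset.sum_image (s := oddPrimes x) (g := fun p : ℕ => p - 1)
      (f := fun n => (n.divisors.card : ℝ)) hinj]
    refine Finset.sum_le_sum_of_subset_of_nonneg ?_ fun _ _ _ => by positivity
    intro n hn
    rw [Finset.mem_image] at hn
    obtain ⟨p, hp, rfl⟩ := hn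
    have h1 := (mem_oddPrimes.1 hp).2.1.two_le
    have h2 := (mem_oddPrimes.1 hp).1
    rw [Finset.mem_Icc]
    omega
  exact h1.trans (sum_card_divisors_le x)

/-- **Main theorem of part (3).**  If the fluctuating part is at least `T` in absolute value for
all `m` in a set `E ⊆ [1, M]` whose elements have at most `R` ordered factorisations of length `r`,
then `E` is small. -/
theorem exceptional_set (b : ℤ) (x M r R : ℕ) (hx : 1 ≤ x) (hr : 1 ≤ r) (hM : x ^ 4 ≤ M ^ r)
    (E : Finset ℕ) (hE : ∀ m ∈ E, m ≤ M)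
    (hR : ∀ n : ℕ, ((Fintype.piFinset fun _ : Fin r => E).filter
      (fun t => ∏ i, t i = n)).card ≤ R)
    (T : ℝ) (hT : 0 ≤ T) (hD : ∀ m ∈ E, T ≤ |D b m x|) :
    (x : ℝ) * ((E.card : ℝ) * T ^ 2) ^ r ≤
      4 * R * (((x : ℝ) * (1 + Real.log x)) ^ 2 * M) ^ r := by
  classical
  -- trivial case
  have hx1 : (1 : ℝ) ≤ x := by exact_mod_cast hx
  have hlog : 0 ≤ Real.log x := Real.log_nonneg hx1
  set W : ℝ := (x : ℝ) * (1 + Real.log x) with hW
  have hWx : (x : ℝ) ≤ W := by rw [hW]; nlinarith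
  have hW0 : 0 < W := lt_of_lt_of_le (by linarith) hWx
  rcases Finset.eq_empty_or_nonempty E with rfl | hEne
  · rw [Finset.card_empty, Nat.cast_zero, zero_mul, zero_pow (by omega), mul_zero]
    positivity
  have hEpos : (0 : ℝ) < E.card := by exact_mod_cast Finset.card_pos.2 hEne
  -- signs
  set ε : ℕ → ℂ := fun m => ((SignType.sign (D b m x) : ℤ) : ℂ) with hε
  have hεn : ∀ m, ‖ε m‖ ≤ 1 := by
    intro m
    rw [hε]
    simp only
    rcases lt_trichotomy (D b m x) 0 with h | h | h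
    · rw [sign_neg h]; simp
    · rw [h, sign_zero]; simp
    · rw [sign_pos h]; simp
  have hεD : ∀ m, ε m * (D b m x : ℂ) = ((|D b m x| : ℝ) : ℂ) := by
    intro m
    have := sign_mul_self (D b m x)
    have h2 : ((SignType.sign (D b m x) : ℝ) : ℂ) * (D b m x : ℂ) = ((|D b m x| : ℝ) : ℂ) := by
      exact_mod_cast congrArg (fun z : ℝ => (z : ℂ)) this
    rw [← h2, hε]
    congr 1
    rcases lt_trichotomy (D b m x) 0 with h | h | h
    · simp only [sign_neg h]; simp
    · simp only [h, sign_zero]; simp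
    · simp only [sign_pos h]; simp
  -- the index set
  set I : Finset (Σ p : ℕ, DirichletCharacter ℂ p) := (oddPrimes x).sigma Q with hI
  set w : (Σ p : ℕ, DirichletCharacter ℂ p) → ℝ := fun j => ‖coef j.1 j.2‖ with hw
  set z : (Σ p : ℕ, DirichletCharacter ℂ p) → ℝ := fun j =>
    ‖∑ m ∈ E, ε m * (j.2 ^ 2) (m : ZMod j.1)‖ with hz
  have h1 : (E.card : ℝ) * T ≤ ∑ j ∈ I, w j * z j := by
    have h2 : (E.card : ℝ) * T ≤ ∑ m ∈ E, |D b m x| := by
      rw [← nsmul_eq_mul]
      exact Finset.card_nsmul_le_sum E _ T hD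
    refine h2.trans ?_
    have h3 : ((∑ m ∈ E, |D b m x| : ℝ) : ℂ) =
        ∑ j ∈ I, coef j.1 j.2 * j.2 (b : ZMod j.1) *
          ∑ m ∈ E, ε m * (j.2 ^ 2) (m : ZMod j.1) := by
      push_cast
      have h4 : ∀ m ∈ E, ((|D b m x| : ℝ) : ℂ) = ∑ j ∈ I,
          ε m * (coef j.1 j.2 * j.2 (b : ZMod j.1) * (j.2 ^ 2) (m : ZMod j.1)) := by
        intro m _
        rw [← hεD, D_eq, ← Finset.mul_sum]
        rw [hI, Finset.sum_sigma]
      rw [Finset.sum_congr rfl h4, Finset.sum_comm]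
      refine Finset.sum_congr rfl fun j _ => ?_
      rw [Finset.mul_sum]
      refine Finset.sum_congr rfl fun m _ => ?_
      ring
    have h5 : ∑ m ∈ E, |D b m x| = ‖((∑ m ∈ E, |D b m x| : ℝ) : ℂ)‖ := by
      rw [Complex.norm_real, Real.norm_of_nonneg (Finset.sum_nonneg fun m _ => abs_nonneg _)]
    rw [h5, h3]
    refine (norm_sum_le _ _).trans (Finset.sum_le_sum fun j _ => ?_)
    rw [norm_mul, norm_mul]
    refine mul_le_mul_of_nonneg_right ?_ (norm_nonneg _)
    exact mul_le_of_le_one_right (norm_nonneg _) (norm_char_le_one _ _)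
  -- Hölder
  obtain ⟨k, hk⟩ : ∃ k, 2 * r = k + 1 := ⟨2 * r - 1, by omega⟩
  have h6 := holder_pow I w z (fun j _ => norm_nonneg _) (fun j _ => norm_nonneg _) k
  rw [← hk] at h6
  have h7 : ∑ j ∈ I, w j ≤ W := by
    rw [hI, Finset.sum_sigma]
    refine (Finset.sum_le_sum fun p hp => ?_).trans (sum_divisors_oddPrimes_le x)
    have : Fact p.Prime := ⟨(mem_oddPrimes.1 hp).2.1⟩
    refine (Finset.sum_le_sum_of_subset_of_nonneg (Finset.subset_univ _)
      fun _ _ _ => norm_nonneg _).trans ?_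
    exact sum_norm_coef_le
  have h8 : ∑ j ∈ I, w j * z j ^ (2 * r) ≤
      2 * (((M : ℝ) ^ r + (x : ℝ) ^ 4) * (R * (E.card : ℝ) ^ r)) := by
    have h9 : ∑ j ∈ I, w j * z j ^ (2 * r) ≤ ∑ p ∈ oddPrimes x, ∑ χ ∈ Q p,
        ‖∑ m ∈ E, ε m * (χ ^ 2) (m : ZMod p)‖ ^ (2 * r) := by
      rw [hI, Finset.sum_sigma]
      refine Finset.sum_le_sum fun p hp => Finset.sum_le_sum fun χ _ => ?_
      have : Fact p.Prime := ⟨(mem_oddPrimes.1 hp).2.1⟩
      have h10 : ‖coef p χ‖ ≤ 1 := norm_coef_le_one χ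
      calc _ ≤ 1 * ‖∑ m ∈ E, ε m * (χ ^ 2) (m : ZMod p)‖ ^ (2 * r) := by
            refine mul_le_mul_of_nonneg_right h10 (by positivity)
        _ = _ := one_mul _
    refine h9.trans ?_
    have h11 : ∑ p ∈ oddPrimes x, ∑ χ ∈ Q p,
        ‖∑ m ∈ E, ε m * (χ ^ 2) (m : ZMod p)‖ ^ (2 * r) ≤
        ∑ p ∈ oddPrimes x, 2 * ∑ ψ ∈ NT p, ‖∑ m ∈ E, ε m * ψ (m : ZMod p)‖ ^ (2 * r) := by
      refine Finset.sum_le_sum fun p hp => ?_
      have : Fact p.Prime := ⟨(mem_oddPrimes.1 hp).2.1⟩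
      exact sum_sq_le (mem_oddPrimes.1 hp).2.2
        (fun ψ => ‖∑ m ∈ E, ε m * ψ (m : ZMod p)‖ ^ (2 * r)) (fun ψ => by positivity)
    refine h11.trans ?_
    rw [← Finset.mul_sum]
    refine mul_le_mul_of_nonneg_left ?_ zero_le_two
    refine le_trans ?_ (moment_bound x M r R E hE ε hεn hR)
    unfold fam
    rw [Finset.sum_sigma]
    refine Finset.sum_le_sum_of_subset_of_nonneg ?_ fun _ _ _ =>
      Finset.sum_nonneg fun _ _ => by positivity
    intro p hp
    rw [mem_oddPrimes] at hp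
    rw [Finset.mem_filter, Finset.mem_range]
    exact ⟨by omega, hp.2.1⟩
  have hMx : (x : ℝ) ^ 4 ≤ (M : ℝ) ^ r := by exact_mod_cast hM
  have h12 : ((E.card : ℝ) * T) ^ (2 * r) ≤ W ^ k * (4 * ((M : ℝ) ^ r * (R * (E.card : ℝ) ^ r))) := by
    calc ((E.card : ℝ) * T) ^ (2 * r) ≤ (∑ j ∈ I, w j * z j) ^ (2 * r) := by gcongr
      _ ≤ (∑ j ∈ I, w j) ^ k * ∑ j ∈ I, w j * z j ^ (2 * r) := h6
      _ ≤ W ^ k * (2 * (((M : ℝ) ^ r + (x : ℝ) ^ 4) * (R * (E.card : ℝ) ^ r))) := by
          have : 0 ≤ ∑ j ∈ I, w j := Finset.sum_nonneg fun j _ => norm_nonneg _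
          have h13 : 0 ≤ ∑ j ∈ I, w j * z j ^ (2 * r) :=
            Finset.sum_nonneg fun j _ => mul_nonneg (norm_nonneg _) (by positivity)
          gcongr
      _ ≤ W ^ k * (2 * (((M : ℝ) ^ r + (M : ℝ) ^ r) * (R * (E.card : ℝ) ^ r))) := by gcongr
      _ = _ := by ring
  -- divide by `|E| ^ r`
  have hEr : (0 : ℝ) < (E.card : ℝ) ^ r := by positivity
  have h14 : ((E.card : ℝ) * T ^ 2) ^ r ≤ W ^ k * (4 * ((M : ℝ) ^ r * R)) := by
    have e1 : ((E.card : ℝ) * T) ^ (2 * r) = ((E.card : ℝ) * T ^ 2) ^ r * (E.card : ℝ) ^ r := by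
      rw [pow_mul, ← mul_pow]
      congr 1
      ring
    rw [e1] at h12
    have e2 : W ^ k * (4 * ((M : ℝ) ^ r * (R * (E.card : ℝ) ^ r))) =
        W ^ k * (4 * ((M : ℝ) ^ r * R)) * (E.card : ℝ) ^ r := by ring
    rw [e2] at h12
    exact le_of_mul_le_mul_right h12 hEr
  calc (x : ℝ) * ((E.card : ℝ) * T ^ 2) ^ r ≤ W * (W ^ k * (4 * ((M : ℝ) ^ r * R))) := by gcongr
    _ = 4 * R * (W ^ (2 * r) * (M : ℝ) ^ r) := by rw [hk]; ring
    _ = 4 * R * (W ^ 2 * M) ^ r := by rw [mul_pow (W ^ 2) (M : ℝ) r, ← pow_mul]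

/-- The number of ordered factorisations of `n` into `r` primes is at most `r!`. -/
theorem card_factorisations_prime (r : ℕ) (E : Finset ℕ) (hE : ∀ m ∈ E, m.Prime) (n : ℕ) :
    ((Fintype.piFinset fun _ : Fin r => E).filter (fun t => ∏ i, t i = n)).card ≤ r.factorial := by
  classical
  induction r generalizing n with
  | zero =>
    refine (Finset.card_filter_le _ _).trans ?_
    rw [Fintype.card_piFinset]
    simp
  | succ r ih =>
    set S := (Fintype.piFinset fun _ : Fin (r + 1) => E).filter (fun t => ∏ i, t i = n) with hS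
    -- the first entry is a prime factor of `n`
    have hmaps : ∀ t ∈ S, t 0 ∈ n.primeFactors.filter (fun q => q ∈ E) := by
      intro t ht
      rw [hS, Finset.mem_filter, Fintype.mem_piFinset] at ht
      rw [Finset.mem_filter]
      refine ⟨Nat.mem_primeFactors.2 ⟨hE _ (ht.1 0), ?_, ?_⟩, ht.1 0⟩
      · rw [← ht.2]
        exact Finset.dvd_prod_of_mem t (Finset.mem_univ 0)
      · rw [← ht.2]
        exact Finset.prod_ne_zero_iff.2 fun i _ => (hE _ (ht.1 i)).ne_zero
    have hfib : ∀ q ∈ n.primeFactors.filter (fun q => q ∈ E),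
        (S.filter (fun t => t 0 = q)).card ≤ r.factorial := by
      intro q hq
      rw [Finset.mem_filter, Nat.mem_primeFactors] at hq
      refine le_trans ?_ (ih (n / q))
      refine Finset.card_le_card_of_injOn (fun t => fun i : Fin r => t i.succ) ?_ ?_
      · intro t ht
        simp only [hS, Finset.coe_filter, Finset.mem_filter, Fintype.mem_piFinset,
          Set.mem_ofPred_eq] at ht ⊢
        obtain ⟨⟨h1, h2⟩, h3⟩ := ht
        refine ⟨fun i => h1 _, ?_⟩
        rw [Fin.prod_univ_succ, h3] at h2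
        rw [← h2, Nat.mul_div_cancel_left _ hq.1.1.pos]
      · intro t ht t' ht' h
        simp only [hS, Finset.coe_filter, Finset.mem_filter, Fintype.mem_piFinset,
          Set.mem_ofPred_eq] at ht ht'
        funext i
        refine Fin.cases ?_ (fun i => ?_) i
        · rw [ht.2, ht'.2]
        · exact congrFun h i
    rcases S.eq_empty_or_nonempty with h0 | ⟨t0, ht0⟩
    · rw [h0, Finset.card_empty]; exact Nat.zero_le _
    · have hcard : (n.primeFactors.filter (fun q => q ∈ E)).card ≤ r + 1 := by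
        refine (Finset.card_filter_le _ _).trans ?_
        rw [hS, Finset.mem_filter, Fintype.mem_piFinset] at ht0
        have hsub : n.primeFactors ⊆ Finset.univ.image t0 := by
          intro q hq
          rw [Nat.mem_primeFactors] at hq
          obtain ⟨hqp, hqn, _⟩ := hq
          rw [← ht0.2] at hqn
          obtain ⟨i, _, hi⟩ := (hqp.prime.dvd_finsetProd_iff _).1 hqn
          rw [Finset.mem_image]
          exact ⟨i, Finset.mem_univ _, ((Nat.prime_dvd_prime_iff_eq hqp (hE _ (ht0.1 i))).1 hi).symm⟩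
        refine (Finset.card_le_card hsub).trans ?_
        refine Finset.card_image_le.trans ?_
        simp
      rw [Finset.card_eq_sum_card_fiberwise hmaps]
      calc _ ≤ ∑ q ∈ n.primeFactors.filter (fun q => q ∈ E), r.factorial :=
            Finset.sum_le_sum hfib
        _ = (n.primeFactors.filter (fun q => q ∈ E)).card * r.factorial := by simp
        _ ≤ (r + 1) * r.factorial := Nat.mul_le_mul_right _ hcard
        _ = (r + 1).factorial := (Nat.factorial_succ r).symm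

/-- The exceptional set among primes. -/
theorem exceptional_primes (b : ℤ) (x M r : ℕ) (hx : 1 ≤ x) (hr : 1 ≤ r) (hM : x ^ 4 ≤ M ^ r)
    (E : Finset ℕ) (hE : ∀ m ∈ E, m.Prime ∧ m ≤ M)
    (T : ℝ) (hT : 0 ≤ T) (hD : ∀ m ∈ E, T ≤ |D b m x|) :
    (x : ℝ) * ((E.card : ℝ) * T ^ 2) ^ r ≤
      4 * r.factorial * (((x : ℝ) * (1 + Real.log x)) ^ 2 * M) ^ r := by
  have := exceptional_set b x M r r.factorial hx hr hM E (fun m hm => (hE m hm).2)
    (card_factorisations_prime r E fun m hm => (hE m hm).1) T hT hD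
  exact_mod_cast this

/-- The exceptional set among all integers, in the range `M ≥ x ^ 4`. -/
theorem exceptional_all (b : ℤ) (x M : ℕ) (hx : 1 ≤ x) (hM : x ^ 4 ≤ M)
    (E : Finset ℕ) (hE : ∀ m ∈ E, m ≤ M)
    (T : ℝ) (hT : 0 ≤ T) (hD : ∀ m ∈ E, T ≤ |D b m x|) :
    (x : ℝ) * ((E.card : ℝ) * T ^ 2) ≤ 4 * (((x : ℝ) * (1 + Real.log x)) ^ 2 * M) := by
  have := exceptional_set b x M 1 1 hx le_rfl (by simpa using hM) E hE ?_ T hT hD
  · simpa using this
  · intro n
    refine Finset.card_le_one.2 ?_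
    intro t ht t' ht'
    simp only [Finset.mem_filter, Fin.prod_univ_one] at ht ht'
    funext i
    rw [Subsingleton.elim i 0, ht.2, ht'.2]

end Pool.Agent.Helper8.ArtinLS
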