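import Pool.Agent.Helper8.ArtinMain

set_option autoImplicit false

namespace Pool.Agent.Helper8.ArtinLS

open Finset ComplexConjugate

/-- The fluctuating part of the number of primes `p ≤ x` having `a * m` as a primitive root. -/
noncomputable def DC (a : ℤ) (m x : ℕ) : ℝ :=
  ∑ p ∈ (range (x + 1)).filter (fun p : ℕ => p.Prime ∧ p ≠ 2 ∧ ¬ ((p : ℤ) ∣ a * m)),
    (fprim p (a * m) - (Nat.totient (p - 1) : ℝ) / ((p : ℝ) - 1))

section prime3

variable {p : ℕ} [hp : Fact p.Prime]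

/-- The expansion over the nontrivial characters. -/
theorem expansion_NT {u : ZMod p} (hu : u ≠ 0) :
    (if orderOf u = p - 1 then (1 : ℂ) else 0) -
      ((Nat.totient (p - 1) : ℕ) : ℂ) / ((p : ℂ) - 1) =
      ∑ χ ∈ NT p, coef p χ * χ u := by
  classical
  rw [← expansion hu]
  rw [← Finset.sum_filter_add_sum_filter_not Finset.univ
    (fun χ : DirichletCharacter ℂ p => χ ≠ 1) (fun χ => coef p χ * χ u)]
  have h3 : ∑ χ ∈ Finset.univ.filter (fun χ : DirichletCharacter ℂ p => ¬ (χ ≠ 1)),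
      coef p χ * χ u = ((Nat.totient (p - 1) : ℕ) : ℂ) / ((p : ℂ) - 1) := by
    have h4 : Finset.univ.filter (fun χ : DirichletCharacter ℂ p => ¬ (χ ≠ 1)) = {1} := by
      ext χ
      simp
    rw [h4, Finset.sum_singleton, coef_one]
    have h5 : (1 : DirichletCharacter ℂ p) u = 1 :=
      MulChar.one_apply_coe (Units.mk0 _ hu)
    rw [h5, mul_one]
  rw [h3, add_sub_cancel_right]
  exact Finset.sum_congr (by ext χ; rw [mem_NT]; simp) fun χ _ => rfl

end prime3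

theorem DC_eq (a : ℤ) (m x : ℕ) :
    ((DC a m x : ℝ) : ℂ) = ∑ p ∈ oddPrimes x, ∑ χ ∈ NT p,
        coef p χ * χ (a : ZMod p) * χ (m : ZMod p) := by
  classical
  have h1 : (range (x + 1)).filter (fun p : ℕ => p.Prime ∧ p ≠ 2 ∧ ¬ ((p : ℤ) ∣ a * m)) =
      (oddPrimes x).filter (fun p : ℕ => ¬ ((p : ℤ) ∣ a * m)) := by
    unfold oddPrimes
    rw [Finset.filter_filter]
    congr 1
    ext p
    tauto
  unfold DC
  rw [h1, ← Finset.sum_filter_add_sum_filter_not (oddPrimes x)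
    (fun p : ℕ => ¬ ((p : ℤ) ∣ a * m)) (fun p => ∑ χ ∈ NT p,
        coef p χ * χ (a : ZMod p) * χ (m : ZMod p))]
  have h2 : ∑ p ∈ (oddPrimes x).filter (fun p : ℕ => ¬ ¬ ((p : ℤ) ∣ a * m)), ∑ χ ∈ NT p,
        coef p χ * χ (a : ZMod p) * χ (m : ZMod p) = 0 := by
    refine Finset.sum_eq_zero fun p hp => ?_
    rw [Finset.mem_filter, mem_oddPrimes, not_not] at hp
    obtain ⟨⟨_, hpp, _⟩, hdvd⟩ := hp
    have : Fact p.Prime := ⟨hpp⟩
    refine Finset.sum_eq_zero fun χ hχ => ?_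
    rcases (Nat.prime_iff_prime_int.1 hpp).dvd_or_dvd hdvd with h | h
    · have : (a : ZMod p) = 0 := (ZMod.intCast_zmod_eq_zero_iff_dvd a p).2 h
      rw [this, DirichletCharacter.map_zero' χ hpp.one_lt.ne']
      simp
    · have : (m : ZMod p) = 0 := (ZMod.natCast_eq_zero_iff m p).2 (by exact_mod_cast h)
      rw [this, DirichletCharacter.map_zero' _ hpp.one_lt.ne']
      simp
  rw [h2, add_zero]
  push_cast
  refine Finset.sum_congr rfl fun p hp => ?_
  rw [Finset.mem_filter, mem_oddPrimes] at hp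
  obtain ⟨⟨_, hpp, hp2⟩, hdvd⟩ := hp
  have : Fact p.Prime := ⟨hpp⟩
  have ha : (a : ZMod p) ≠ 0 := by
    intro h
    exact hdvd (Dvd.dvd.mul_right ((ZMod.intCast_zmod_eq_zero_iff_dvd a p).1 h) _)
  have hm : (m : ZMod p) ≠ 0 := by
    intro h
    have : p ∣ m := (ZMod.natCast_eq_zero_iff m p).1 h
    exact hdvd (Dvd.dvd.mul_left (by exact_mod_cast this) _)
  have h4 := expansion_NT (mul_ne_zero ha hm)
  have h5 : ∑ χ ∈ NT p, coef p χ * χ (a : ZMod p) * χ (m : ZMod p) =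
      ∑ χ ∈ NT p, coef p χ * χ ((a : ZMod p) * (m : ZMod p)) := by
    refine Finset.sum_congr rfl fun χ _ => ?_
    rw [map_mul]; ring
  rw [h5, ← h4]
  unfold fprim
  push_cast
  congr 1
  split_ifs <;> simp

/-- If the fluctuating part is at least `T` in absolute value for all `m` in a set `E ⊆ [1, M]`
whose elements have at most `R` ordered factorisations of length `r`, then `E` is small. -/
theorem exceptional_setC (a : ℤ) (x M r R : ℕ) (hx : 1 ≤ x) (hr : 1 ≤ r) (hM : x ^ 4 ≤ M ^ r)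
    (E : Finset ℕ) (hE : ∀ m ∈ E, m ≤ M)
    (hR : ∀ n : ℕ, ((Fintype.piFinset fun _ : Fin r => E).filter
      (fun t => ∏ i, t i = n)).card ≤ R)
    (T : ℝ) (hT : 0 ≤ T) (hD : ∀ m ∈ E, T ≤ |DC a m x|) :
    (x : ℝ) * ((E.card : ℝ) * T ^ 2) ^ r ≤
      2 * R * (((x : ℝ) * (1 + Real.log x)) ^ 2 * M) ^ r := by
  classical
  -- trivial case
  have hx1 : (1 : ℝ) ≤ x := by exact_mod_cast hx
  have hlog : 0 ≤ Real.log x := Real.log_nonneg hx1
  set W : ℝ := (x : ℝ) * (1 + Real.log x) with hW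
  have hWx : (x : ℝ) ≤ W := by rw [hW]; nlinarith
  have hW0 : 0 < W := lt_of_lt_of_le (by linarith) hWx
  rcases Finset.eq_empty_or_nonempty E with rfl | hEne
  · rw [Finset.card_empty, Nat.cast_zero, zero_mul, zero_pow (by omega), mul_zero]
    positivity
  have hEpos : (0 : ℝ) < E.card := by exact_mod_cast Finset.card_pos.2 hEne
  -- signs
  set ε : ℕ → ℂ := fun m => ((SignType.sign (DC a m x) : ℤ) : ℂ) with hε
  have hεn : ∀ m, ‖ε m‖ ≤ 1 := by
    intro m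
    rw [hε]
    simp only
    rcases lt_trichotomy (DC a m x) 0 with h | h | h
    · rw [sign_neg h]; simp
    · rw [h, sign_zero]; simp
    · rw [sign_pos h]; simp
  have hεD : ∀ m, ε m * (DC a m x : ℂ) = ((|DC a m x| : ℝ) : ℂ) := by
    intro m
    have := sign_mul_self (DC a m x)
    have h2 : ((SignType.sign (DC a m x) : ℝ) : ℂ) * (DC a m x : ℂ) = ((|DC a m x| : ℝ) : ℂ) := by
      exact_mod_cast congrArg (fun z : ℝ => (z : ℂ)) this
    rw [← h2, hε]
    congr 1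
    rcases lt_trichotomy (DC a m x) 0 with h | h | h
    · simp only [sign_neg h]; simp
    · simp only [h, sign_zero]; simp
    · simp only [sign_pos h]; simp
  -- the index set
  set I : Finset (Σ p : ℕ, DirichletCharacter ℂ p) := (oddPrimes x).sigma NT with hI
  set w : (Σ p : ℕ, DirichletCharacter ℂ p) → ℝ := fun j => ‖coef j.1 j.2‖ with hw
  set z : (Σ p : ℕ, DirichletCharacter ℂ p) → ℝ := fun j =>
    ‖∑ m ∈ E, ε m * j.2 (m : ZMod j.1)‖ with hz
  have h1 : (E.card : ℝ) * T ≤ ∑ j ∈ I, w j * z j := by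
    have h2 : (E.card : ℝ) * T ≤ ∑ m ∈ E, |DC a m x| := by
      rw [← nsmul_eq_mul]
      exact Finset.card_nsmul_le_sum E _ T hD
    refine h2.trans ?_
    have h3 : ((∑ m ∈ E, |DC a m x| : ℝ) : ℂ) =
        ∑ j ∈ I, coef j.1 j.2 * j.2 (a : ZMod j.1) *
          ∑ m ∈ E, ε m * j.2 (m : ZMod j.1) := by
      push_cast
      have h4 : ∀ m ∈ E, ((|DC a m x| : ℝ) : ℂ) = ∑ j ∈ I,
          ε m * (coef j.1 j.2 * j.2 (a : ZMod j.1) * j.2 (m : ZMod j.1)) := by
        intro m _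
        rw [← hεD, DC_eq, ← Finset.mul_sum]
        rw [hI, Finset.sum_sigma]
      rw [Finset.sum_congr rfl h4, Finset.sum_comm]
      refine Finset.sum_congr rfl fun j _ => ?_
      rw [Finset.mul_sum]
      refine Finset.sum_congr rfl fun m _ => ?_
      ring
    have h5 : ∑ m ∈ E, |DC a m x| = ‖((∑ m ∈ E, |DC a m x| : ℝ) : ℂ)‖ := by
      rw [Complex.norm_real, Real.norm_of_nonneg (Finset.sum_nonneg fun m _ => abs_nonneg _)]
    rw [h5, h3]
    refine (norm_sum_le _ _).trans (Finset.sum_le_sum fun j _ => ?_)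
    rw [norm_mul, norm_mul]
    refine mul_le_mul_of_nonneg_right ?_ (norm_nonneg _)
    exact mul_le_of_le_one_right (norm_nonneg _) (norm_char_le_one _ _)
  -- Hölder
  obtain ⟨k, hk⟩ : ∃ k, 2 * r = k + 1 := ⟨2 * r - 1, by omega⟩
  have h6 := holder_pow I w z (fun j _ => norm_nonneg _) (fun j _ => norm_nonneg _) k
  rw [← hk] at h6
  have h7 : ∑ j ∈ I, w j ≤ W := by
    rw [hI, Finset.sum_sigma]
    refine (Finset.sum_le_sum fun p hp => ?_).trans (sum_divisors_oddPrimes_le x)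
    have : Fact p.Prime := ⟨(mem_oddPrimes.1 hp).2.1⟩
    refine (Finset.sum_le_sum_of_subset_of_nonneg (Finset.subset_univ _)
      fun _ _ _ => norm_nonneg _).trans ?_
    exact sum_norm_coef_le
  have h8 : ∑ j ∈ I, w j * z j ^ (2 * r) ≤
      ((M : ℝ) ^ r + (x : ℝ) ^ 4) * (R * (E.card : ℝ) ^ r) := by
    have h9 : ∑ j ∈ I, w j * z j ^ (2 * r) ≤ ∑ p ∈ oddPrimes x, ∑ χ ∈ NT p,
        ‖∑ m ∈ E, ε m * χ (m : ZMod p)‖ ^ (2 * r) := by
      rw [hI, Finset.sum_sigma]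
      refine Finset.sum_le_sum fun p hp => Finset.sum_le_sum fun χ _ => ?_
      have : Fact p.Prime := ⟨(mem_oddPrimes.1 hp).2.1⟩
      have h10 : ‖coef p χ‖ ≤ 1 := norm_coef_le_one χ
      calc _ ≤ 1 * ‖∑ m ∈ E, ε m * χ (m : ZMod p)‖ ^ (2 * r) := by
            refine mul_le_mul_of_nonneg_right h10 (by positivity)
        _ = _ := one_mul _
    refine h9.trans ?_
    refine le_trans ?_ (moment_bound x M r R E hE ε hεn hR)
    unfold fam
    rw [Finset.sum_sigma]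
    refine Finset.sum_le_sum_of_subset_of_nonneg ?_ fun _ _ _ =>
      Finset.sum_nonneg fun _ _ => by positivity
    intro p hp
    rw [mem_oddPrimes] at hp
    rw [Finset.mem_filter, Finset.mem_range]
    exact ⟨by omega, hp.2.1⟩
  have hMx : (x : ℝ) ^ 4 ≤ (M : ℝ) ^ r := by exact_mod_cast hM
  have h12 : ((E.card : ℝ) * T) ^ (2 * r) ≤ W ^ k * (2 * ((M : ℝ) ^ r * (R * (E.card : ℝ) ^ r))) := by
    calc ((E.card : ℝ) * T) ^ (2 * r) ≤ (∑ j ∈ I, w j * z j) ^ (2 * r) := by gcongr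
      _ ≤ (∑ j ∈ I, w j) ^ k * ∑ j ∈ I, w j * z j ^ (2 * r) := h6
      _ ≤ W ^ k * (((M : ℝ) ^ r + (x : ℝ) ^ 4) * (R * (E.card : ℝ) ^ r)) := by
          have : 0 ≤ ∑ j ∈ I, w j := Finset.sum_nonneg fun j _ => norm_nonneg _
          have h13 : 0 ≤ ∑ j ∈ I, w j * z j ^ (2 * r) :=
            Finset.sum_nonneg fun j _ => mul_nonneg (norm_nonneg _) (by positivity)
          gcongr
      _ ≤ W ^ k * (((M : ℝ) ^ r + (M : ℝ) ^ r) * (R * (E.card : ℝ) ^ r)) := by gcongr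
      _ = _ := by ring
  -- divide by `|E| ^ r`
  have hEr : (0 : ℝ) < (E.card : ℝ) ^ r := by positivity
  have h14 : ((E.card : ℝ) * T ^ 2) ^ r ≤ W ^ k * (2 * ((M : ℝ) ^ r * R)) := by
    have e1 : ((E.card : ℝ) * T) ^ (2 * r) = ((E.card : ℝ) * T ^ 2) ^ r * (E.card : ℝ) ^ r := by
      rw [pow_mul, ← mul_pow]
      congr 1
      ring
    rw [e1] at h12
    have e2 : W ^ k * (2 * ((M : ℝ) ^ r * (R * (E.card : ℝ) ^ r))) =
        W ^ k * (2 * ((M : ℝ) ^ r * R)) * (E.card : ℝ) ^ r := by ring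
    rw [e2] at h12
    exact le_of_mul_le_mul_right h12 hEr
  calc (x : ℝ) * ((E.card : ℝ) * T ^ 2) ^ r ≤ W * (W ^ k * (2 * ((M : ℝ) ^ r * R))) := by gcongr
    _ = 2 * R * (W ^ (2 * r) * (M : ℝ) ^ r) := by rw [hk]; ring
    _ = 2 * R * (W ^ 2 * M) ^ r := by rw [mul_pow (W ^ 2) (M : ℝ) r, ← pow_mul]

/-- The exceptional set among primes. -/
theorem exceptional_primesC (a : ℤ) (x M r : ℕ) (hx : 1 ≤ x) (hr : 1 ≤ r) (hM : x ^ 4 ≤ M ^ r)
    (E : Finset ℕ) (hE : ∀ m ∈ E, m.Prime ∧ m ≤ M)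
    (T : ℝ) (hT : 0 ≤ T) (hD : ∀ m ∈ E, T ≤ |DC a m x|) :
    (x : ℝ) * ((E.card : ℝ) * T ^ 2) ^ r ≤
      2 * r.factorial * (((x : ℝ) * (1 + Real.log x)) ^ 2 * M) ^ r := by
  have := exceptional_setC a x M r r.factorial hx hr hM E (fun m hm => (hE m hm).2)
    (card_factorisations_prime r E fun m hm => (hE m hm).1) T hT hD
  exact_mod_cast this

/-- The exceptional set among all integers, in the range `M ≥ x ^ 4`. -/
theorem exceptional_allC (a : ℤ) (x M : ℕ) (hx : 1 ≤ x) (hM : x ^ 4 ≤ M)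
    (E : Finset ℕ) (hE : ∀ m ∈ E, m ≤ M)
    (T : ℝ) (hT : 0 ≤ T) (hD : ∀ m ∈ E, T ≤ |DC a m x|) :
    (x : ℝ) * ((E.card : ℝ) * T ^ 2) ≤ 2 * (((x : ℝ) * (1 + Real.log x)) ^ 2 * M) := by
  have := exceptional_setC a x M 1 1 hx le_rfl (by simpa using hM) E hE ?_ T hT hD
  · simpa using this
  · intro n
    refine Finset.card_le_one.2 ?_
    intro t ht t' ht'
    simp only [Finset.mem_filter, Fin.prod_univ_one] at ht ht'
    funext i
    rw [Subsingleton.elim i 0, ht.2, ht'.2]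

end Pool.Agent.Helper8.ArtinLS
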