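import Pool.Agent.Helper8.ArtinAll
import Pool.Agent.Helper6.ArtinExtra

open MeasureTheory Set Filter Topology Real

namespace Pool.Agent.Helper8.ArtinC

open Pool.Agent.Helper6 Pool.Agent.Helper8.ArtinLS

/-- expected count -/
noncomputable def artinEC (x : ℕ) : ℝ :=
  ∑ p ∈ (Finset.range (x+1)).filter (fun p : ℕ => p.Prime ∧ p ≠ 2),
    ((Nat.totient (p-1) : ℝ)/((p-1 : ℕ):ℝ))

lemma mainC_bounds (p : ℕ) :
    0 ≤ ((Nat.totient (p-1) : ℝ)/((p-1 : ℕ):ℝ)) ∧
    ((Nat.totient (p-1) : ℝ)/((p-1 : ℕ):ℝ)) ≤ 1 := by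
  constructor
  · positivity
  · apply div_le_one_of_le₀ _ (Nat.cast_nonneg _)
    exact_mod_cast Nat.totient_le _

lemma DC_def' (a : ℤ) (m x : ℕ) : DC a m x =
    ∑ p ∈ (Finset.range (x+1)).filter (fun p : ℕ => p.Prime ∧ p ≠ 2 ∧ ¬ ((p:ℤ) ∣ a * m)),
    ((if orderOf ((a * (m:ℤ) : ℤ) : ZMod p) = p - 1 then (1:ℝ) else 0) -
      ((Nat.totient (p-1) : ℝ)/((p-1 : ℕ):ℝ))) := by
  unfold DC fprim
  apply Finset.sum_congr rfl
  intro p hp
  simp only [Finset.mem_filter] at hp
  rw [Nat.cast_sub hp.2.1.one_le]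
  simp

lemma artinC_decomp (a : ℤ) (ha : a ≠ 0) (m x : ℕ) :
    |artinP (a * (m:ℤ)) x - artinEC x - DC a m x| ≤
      1 + (a.natAbs.primeFactors.card + omegaX m x) := by
  classical
  rw [DC_def']
  set ind : ℕ → ℝ := fun p => if orderOf ((a * (m:ℤ) : ℤ) : ZMod p) = p - 1 then (1:ℝ) else 0 with hind
  set mn : ℕ → ℝ := fun p => ((Nat.totient (p-1) : ℝ)/((p-1 : ℕ):ℝ)) with hmn
  have hP : artinP (a * (m:ℤ)) x = ∑ p ∈ (Finset.range (x+1)).filter (fun p : ℕ => p.Prime), ind p := by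
    unfold artinP
    rw [← Finset.filter_filter, Finset.card_filter]
    simp only [hind]
    push_cast
    rfl
  set S := (Finset.range (x+1)).filter (fun p : ℕ => p.Prime) with hS
  have hsplit1 : ∑ p ∈ S, ind p = ∑ p ∈ S.filter (fun p => p = 2), ind p +
      ∑ p ∈ S.filter (fun p => ¬ p = 2), ind p := (Finset.sum_filter_add_sum_filter_not _ _ _).symm
  have hE : artinEC x = ∑ p ∈ S.filter (fun p => ¬ p = 2), mn p := by
    unfold artinEC
    rw [hS, Finset.filter_filter]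
  have hD : ∑ p ∈ (Finset.range (x+1)).filter (fun p : ℕ => p.Prime ∧ p ≠ 2 ∧ ¬ ((p:ℤ) ∣ a * m)),
      (ind p - mn p) =
      ∑ p ∈ (S.filter (fun p => ¬ p = 2)).filter (fun p : ℕ => ¬ ((p:ℤ) ∣ a * m)), (ind p - mn p) := by
    rw [hS, Finset.filter_filter, Finset.filter_filter]
  rw [hD]
  have hsplit2 : ∑ p ∈ S.filter (fun p => ¬ p = 2), (ind p - mn p) =
      ∑ p ∈ (S.filter (fun p => ¬ p = 2)).filter (fun p : ℕ => ((p:ℤ) ∣ a * m)), (ind p - mn p) +
      ∑ p ∈ (S.filter (fun p => ¬ p = 2)).filter (fun p : ℕ => ¬ ((p:ℤ) ∣ a * m)), (ind p - mn p) :=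
    (Finset.sum_filter_add_sum_filter_not _ _ _).symm
  have key : artinP (a * (m:ℤ)) x - artinEC x -
      ∑ p ∈ (S.filter (fun p => ¬ p = 2)).filter (fun p : ℕ => ¬ ((p:ℤ) ∣ a * m)), (ind p - mn p) =
      ∑ p ∈ S.filter (fun p => p = 2), ind p +
      ∑ p ∈ (S.filter (fun p => ¬ p = 2)).filter (fun p : ℕ => ((p:ℤ) ∣ a * m)), (ind p - mn p) := by
    rw [hP, hE, hsplit1]
    rw [Finset.sum_sub_distrib] at hsplit2
    linarith
  rw [key]
  have hb1 : |∑ p ∈ S.filter (fun p => p = 2), ind p| ≤ 1 := by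
    have h1 : S.filter (fun p => p = 2) ⊆ {2} := by
      intro p hp
      simp only [Finset.mem_filter] at hp
      simp [hp.2]
    calc |∑ p ∈ S.filter (fun p => p = 2), ind p| ≤ ∑ p ∈ S.filter (fun p => p = 2), |ind p| :=
          Finset.abs_sum_le_sum_abs _ _
      _ ≤ ∑ p ∈ ({2} : Finset ℕ), |ind p| :=
          Finset.sum_le_sum_of_subset_of_nonneg h1 fun _ _ _ => abs_nonneg _
      _ = |ind 2| := Finset.sum_singleton _ _
      _ ≤ 1 := by simp only [hind]; split_ifs <;> simp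
  have hb2 : |∑ p ∈ (S.filter (fun p => ¬ p = 2)).filter (fun p : ℕ => ((p:ℤ) ∣ a * m)), (ind p - mn p)| ≤
      (a.natAbs.primeFactors.card + omegaX m x) := by
    have h1 : ∀ p, |ind p - mn p| ≤ 1 := by
      intro p
      have hb := mainC_bounds p
      rw [abs_le]
      simp only [hind, hmn]
      split_ifs <;> constructor <;> linarith [hb.1, hb.2]
    have h2 : (S.filter (fun p => ¬ p = 2)).filter (fun p : ℕ => ((p:ℤ) ∣ a * m)) ⊆
        a.natAbs.primeFactors ∪ (Finset.range (x + 1)).filter (fun p : ℕ => p.Prime ∧ p ∣ m) := by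
      intro p hp
      simp only [hS, Finset.mem_filter] at hp
      obtain ⟨⟨⟨hr, hpp⟩, _⟩, hd⟩ := hp
      have : Prime (p:ℤ) := Nat.prime_iff_prime_int.mp hpp
      rcases this.dvd_or_dvd hd with h | h
      · apply Finset.mem_union_left
        rw [Nat.mem_primeFactors]
        exact ⟨hpp, Int.natCast_dvd.mp h, by simpa using ha⟩
      · apply Finset.mem_union_right
        simp only [Finset.mem_filter]
        exact ⟨hr, hpp, by exact_mod_cast h⟩
    calc _ ≤ ∑ p ∈ (S.filter (fun p => ¬ p = 2)).filter (fun p : ℕ => ((p:ℤ) ∣ a * m)), |ind p - mn p| :=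
          Finset.abs_sum_le_sum_abs _ _
      _ ≤ ∑ p ∈ (S.filter (fun p => ¬ p = 2)).filter (fun p : ℕ => ((p:ℤ) ∣ a * m)), (1:ℝ) :=
          Finset.sum_le_sum fun p _ => h1 p
      _ = ((S.filter (fun p => ¬ p = 2)).filter (fun p : ℕ => ((p:ℤ) ∣ a * m))).card := by
          simp
      _ ≤ ((a.natAbs.primeFactors.card + omegaX m x)) := by
          unfold omegaX
          calc (((S.filter (fun p => ¬ p = 2)).filter (fun p : ℕ => ((p:ℤ) ∣ a * m))).card : ℝ)
              ≤ ((a.natAbs.primeFactors ∪ (Finset.range (x + 1)).filter (fun p : ℕ => p.Prime ∧ p ∣ m)).card : ℝ) := by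
                exact_mod_cast Finset.card_le_card h2
            _ ≤ _ := by exact_mod_cast Finset.card_union_le _ _
  calc |_| ≤ |∑ p ∈ S.filter (fun p => p = 2), ind p| + |∑ p ∈ (S.filter (fun p => ¬ p = 2)).filter (fun p : ℕ => ((p:ℤ) ∣ a * m)), (ind p - mn p)| := abs_add_le _ _
    _ ≤ _ := by linarith

theorem lsHypC1 (a : ℤ) (x M : ℕ) (hx : 3 ≤ x) (hM : x^4 ≤ M) (E : Finset ℕ)
    (hE : E ⊆ Finset.Icc 1 M) (T : ℝ) (hT : 0 < T) (h : ∀ m ∈ E, T < |DC a m x|) :
    (E.card : ℝ) ≤ 4 * x * (1 + Real.log x)^2 * M / T^2 := by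
  have hx0 : (0:ℝ) < x := by exact_mod_cast (by omega : 0 < x)
  have h1 := exceptional_allC a x M (by omega) hM E
    (fun m hm => (Finset.mem_Icc.mp (hE hm)).2) T hT.le (fun m hm => (h m hm).le)
  rw [le_div_iff₀ (by positivity)]
  have h2 : (x:ℝ) * ((E.card : ℝ) * T ^ 2) ≤ x * (4 * x * (1 + Real.log x)^2 * M) := by
    calc (x:ℝ) * ((E.card : ℝ) * T ^ 2) ≤ 2 * (((x : ℝ) * (1 + Real.log x)) ^ 2 * M) := h1
      _ ≤ 4 * (((x : ℝ) * (1 + Real.log x)) ^ 2 * M) := by
        apply mul_le_mul_of_nonneg_right (by norm_num) (by positivity)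
      _ = x * (4 * x * (1 + Real.log x)^2 * M) := by ring
  exact le_of_mul_le_mul_left h2 hx0

theorem lsHypC2 (a : ℤ) (x M r : ℕ) (hx : 3 ≤ x) (hM1 : 1 ≤ M) (hr : 1 ≤ r) (hM : x^4 ≤ M^r)
    (E : Finset ℕ) (hE : E ⊆ Finset.Icc 1 M) (hEp : ∀ m ∈ E, m.Prime) (T : ℝ) (hT : 0 < T)
    (h : ∀ m ∈ E, T < |DC a m x|) :
    (E.card : ℝ) ≤ 4 * x^2 * (1 + Real.log x)^2 * M * (r * (x:ℝ)^(-(1/(r:ℝ)))) / T^2 := by
  have hx0 : (0:ℝ) < x := by exact_mod_cast (by omega : 0 < x)
  have hlog : 0 < Real.log x := Real.log_pos (by exact_mod_cast (by omega : 1 < x))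
  have hr0 : (0:ℝ) < r := by exact_mod_cast hr
  have h1 := exceptional_primesC a x M r (by omega) hr hM E
    (fun m hm => ⟨hEp m hm, (Finset.mem_Icc.mp (hE hm)).2⟩) T hT.le (fun m hm => (h m hm).le)
  rw [le_div_iff₀ (by positivity)]
  -- take r-th roots
  have h2 : ((E.card : ℝ) * T ^ 2) ^ r ≤
      (4 * x^2 * (1 + Real.log x)^2 * M * (r * (x:ℝ)^(-(1/(r:ℝ))))) ^ r := by
    have h3 : (4 * x^2 * (1 + Real.log x)^2 * M * (r * (x:ℝ)^(-(1/(r:ℝ))))) ^ r =
        4 ^ r * (r:ℝ) ^ r * (((x : ℝ) * (1 + Real.log x)) ^ 2 * M) ^ r * (x:ℝ)⁻¹ := by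
      have h4 : ((x:ℝ)^(-(1/(r:ℝ)))) ^ r = (x:ℝ)⁻¹ := by
        rw [← Real.rpow_natCast, ← Real.rpow_mul hx0.le]
        have : -(1/(r:ℝ)) * r = -1 := by field_simp
        rw [this, Real.rpow_neg_one]
      calc _ = 4 ^ r * (r:ℝ) ^ r * (((x : ℝ) * (1 + Real.log x)) ^ 2 * M) ^ r * ((x:ℝ)^(-(1/(r:ℝ)))) ^ r := by
            rw [← mul_pow, ← mul_pow, ← mul_pow]; congr 1; ring
        _ = _ := by rw [h4]
    rw [h3, ← div_eq_mul_inv, le_div_iff₀ hx0]
    calc ((E.card : ℝ) * T ^ 2) ^ r * x = x * ((E.card : ℝ) * T ^ 2) ^ r := by ring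
      _ ≤ 2 * r.factorial * (((x : ℝ) * (1 + Real.log x)) ^ 2 * M) ^ r := h1
      _ ≤ 4 ^ r * (r:ℝ) ^ r * (((x : ℝ) * (1 + Real.log x)) ^ 2 * M) ^ r := by
          gcongr
          · calc (2:ℝ) ≤ 4 ^ 1 := by norm_num
              _ ≤ 4 ^ r := pow_le_pow_right₀ (by norm_num) hr
          · exact_mod_cast Nat.factorial_le_pow r
  exact le_of_pow_le_pow_left₀ (by omega) (by positivity) h2

/-- small `x` -/
lemma small_x_boundC (b : ℤ) {x M : ℕ} (hx3 : 3 ≤ x)
    (hx : (x:ℝ) / (2 * Real.log x) ≤ Nat.primeCounting x) (hM : x^4 ≤ M) {e : ℝ} (he : 0 < e)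
    (E : Finset ℕ) (hE : E ⊆ Finset.Icc 1 M) (h : ∀ m ∈ E, e * Nat.primeCounting x < |DC b m x|) :
    (E.card : ℝ) ≤ (16 / e^2) * ((1 + Real.log x)^5 / x) * M := by
  have hx0 : (0:ℝ) < x := by exact_mod_cast (by omega : 0 < x)
  have hlog : 0 < Real.log x := Real.log_pos (by exact_mod_cast (by omega : 1 < x))
  have hT : 0 < e * Nat.primeCounting x := mul_pos he (primeCounting_pos (by omega))
  have h1 := lsHypC1 b x M hx3 hM E hE _ hT h
  have h2 := T_sq_lower he hx3 hx
  have h3 : 0 < (x:ℝ)^2 * e^2 / (4 * (1 + Real.log x)^2) := by positivity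
  calc (E.card : ℝ) ≤ 4 * x * (1 + Real.log x)^2 * M / (e * Nat.primeCounting x)^2 := h1
    _ ≤ 4 * x * (1 + Real.log x)^2 * M / ((x:ℝ)^2 * e^2 / (4 * (1 + Real.log x)^2)) := by
        apply div_le_div_of_nonneg_left (by positivity) h3 h2
    _ = (16 / e^2) * ((1 + Real.log x)^4 / x) * M := by field_simp; ring
    _ ≤ (16 / e^2) * ((1 + Real.log x)^5 / x) * M := by
        gcongr
        · linarith
        · norm_num

/-- large `x` -/
lemma large_x_boundC (b : ℤ) {x M : ℕ} (hx3 : 3 ≤ x)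
    (hx : (x:ℝ) / (2 * Real.log x) ≤ Nat.primeCounting x) (hM : M < x^4) {e : ℝ} (he : 0 < e)
    {κ : ℝ} (_ : 0 < κ) (hM3 : 3 ≤ M) (hκM : 1 ≤ κ * Real.log M)
    (B : Finset ℕ) (hB : B ⊆ Finset.Icc 1 M)
    (hB1 : ∀ m ∈ B, ∃ p : ℕ, p.Prime ∧ p ∣ m ∧ (M:ℝ)^κ < p)
    (hB2 : ∀ m ∈ B, e * Nat.primeCounting x < |DC b m x|) :
    (B.card : ℝ) ≤ (128 / e^2) * (1 + Real.log x)^5 * ((M:ℝ) * (M:ℝ)^(-(κ/8)) * (1 + Real.log M)) := by
  classical
  have hx0 : (0:ℝ) < x := by exact_mod_cast (by omega : 0 < x)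
  have hlog : 0 < Real.log x := Real.log_pos (by exact_mod_cast (by omega : 1 < x))
  have hM0 : (0:ℝ) < M := by exact_mod_cast (by omega : 0 < M)
  have hT : 0 < e * Nat.primeCounting x := mul_pos he (primeCounting_pos (by omega))
  set Bm : ℕ → Finset ℕ := fun m₁ => (Finset.Icc 1 (M / m₁)).filter (fun P : ℕ => P.Prime ∧
    (M:ℝ)^κ < P ∧ e * Nat.primeCounting x < |DC (b * (m₁:ℤ)) P x|) with hBm
  -- covering
  have hcov : B ⊆ (Finset.Icc 1 M).biUnion (fun m₁ => (Bm m₁).image (fun P => m₁ * P)) := by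
    intro m hm
    obtain ⟨P, hP, hPm, hPκ⟩ := hB1 m hm
    obtain ⟨m₁, rfl⟩ := hPm
    have hmM := Finset.mem_Icc.mp (hB hm)
    have hm1 : 1 ≤ m₁ := by
      rcases Nat.eq_zero_or_pos m₁ with h | h
      · subst h; simp at hmM
      · exact h
    have hP1 : 1 ≤ P := hP.one_le
    rw [Finset.mem_biUnion]
    refine ⟨m₁, ?_, ?_⟩
    · rw [Finset.mem_Icc]
      refine ⟨hm1, ?_⟩
      calc m₁ = 1 * m₁ := (one_mul _).symm
        _ ≤ P * m₁ := Nat.mul_le_mul_right _ hP1
        _ ≤ M := hmM.2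
    · rw [Finset.mem_image]
      refine ⟨P, ?_, mul_comm _ _⟩
      simp only [hBm, Finset.mem_filter, Finset.mem_Icc]
      refine ⟨⟨hP1, (Nat.le_div_iff_mul_le (by omega)).mpr hmM.2⟩, hP, hPκ, ?_⟩
      have h1 := hB2 _ hm
      have h2 : DC (b * (m₁:ℤ)) P x = DC b (P * m₁) x := by
        unfold DC
        have h3 : (b * (m₁:ℤ) * (P:ℤ) : ℤ) = b * (((P * m₁ : ℕ):ℤ)) := by push_cast; ring
        rw [h3]
      rw [h2]
      exact h1
  -- each piece
  have hpiece : ∀ m₁ ∈ Finset.Icc 1 M, ((Bm m₁).card : ℝ) ≤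
      (128 / e^2) * (1 + Real.log x)^5 * ((M:ℝ) * (m₁:ℝ)⁻¹ * (M:ℝ)^(-(κ/8))) := by
    intro m₁ hm₁
    rw [Finset.mem_Icc] at hm₁
    have hm₁0 : (0:ℝ) < m₁ := by exact_mod_cast hm₁.1
    rcases Finset.eq_empty_or_nonempty (Bm m₁) with hemp | ⟨P, hP⟩
    · rw [hemp]; simp; positivity
    · simp only [hBm, Finset.mem_filter, Finset.mem_Icc] at hP
      set M₁ := M / m₁ with hM₁
      have hM₁P : (M:ℝ)^κ < (M₁:ℝ) := hP.2.2.1.trans_le (by exact_mod_cast hP.1.2)
      have hM₁pos : (0:ℝ) < M₁ := lt_trans (by positivity) hM₁P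
      have hM₁le : (M₁:ℝ) ≤ M * (m₁:ℝ)⁻¹ := by
        rw [← div_eq_mul_inv]; exact Nat.cast_div_le
      have hlogM₁ : κ * Real.log M ≤ Real.log M₁ := by
        rw [← Real.log_rpow hM0]
        exact Real.log_le_log (by positivity) hM₁P.le
      have hlogM₁1 : 1 ≤ Real.log M₁ := hκM.trans hlogM₁
      have hlogM₁x : Real.log M₁ ≤ 4 * Real.log x := by
        have h1 : (M₁:ℝ) ≤ (x:ℝ)^4 := by
          have : M₁ ≤ x^4 := (Nat.div_le_self _ _).trans hM.le
          exact_mod_cast this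
        calc Real.log M₁ ≤ Real.log ((x:ℝ)^4) := Real.log_le_log hM₁pos h1
          _ = 4 * Real.log x := by rw [Real.log_pow]; norm_num
      set r : ℕ := ⌈4 * Real.log x / Real.log M₁⌉₊ with hr
      have hquo : 0 < 4 * Real.log x / Real.log M₁ := by positivity
      have hr1 : 1 ≤ r := Nat.one_le_iff_ne_zero.mpr (by
        rw [hr]; exact (Nat.ceil_pos.mpr hquo).ne')
      have hr2 : 4 * Real.log x / Real.log M₁ ≤ r := Nat.le_ceil _
      have hr3 : (r:ℝ) ≤ 8 * Real.log x / Real.log M₁ := by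
        have h1 := (Nat.ceil_lt_add_one hquo.le).le
        rw [← hr] at h1
        have h2 : 1 ≤ 4 * Real.log x / Real.log M₁ := by
          rw [le_div_iff₀ (by linarith)]; linarith
        calc (r:ℝ) ≤ 4 * Real.log x / Real.log M₁ + 1 := h1
          _ ≤ 4 * Real.log x / Real.log M₁ + 4 * Real.log x / Real.log M₁ := by linarith
          _ = 8 * Real.log x / Real.log M₁ := by ring
      have hr4 : (r:ℝ) ≤ 8 * Real.log x := by
        refine hr3.trans ?_
        apply div_le_self (by positivity) hlogM₁1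
      have hr0 : (0:ℝ) < r := by exact_mod_cast hr1
      have hMr : x^4 ≤ M₁^r := by
        have h1 : Real.log ((x:ℝ)^4) ≤ Real.log ((M₁:ℝ)^r) := by
          rw [Real.log_pow, Real.log_pow]
          rw [div_le_iff₀ (by linarith)] at hr2
          push_cast
          exact hr2
        have h2 := (Real.log_le_log_iff (by positivity) (by positivity)).mp h1
        exact_mod_cast h2
      have hM₁1 : 1 ≤ M₁ := by
        rcases Nat.eq_zero_or_pos M₁ with h | h
        · rw [h] at hM₁pos; simp at hM₁pos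
        · exact h
      have h1 := lsHypC2 (b * (m₁:ℤ)) x M₁ r hx3 hM₁1 hr1 hMr (Bm m₁)
        (Finset.filter_subset _ _) (fun m hm => (Finset.mem_filter.mp hm).2.1) _ hT
        (fun m hm => (Finset.mem_filter.mp hm).2.2.2)
      have h2 := T_sq_lower he hx3 hx
      have h3 : 0 < (x:ℝ)^2 * e^2 / (4 * (1 + Real.log x)^2) := by positivity
      have h4 : (x:ℝ)^(-(1/(r:ℝ))) ≤ (M:ℝ)^(-(κ/8)) := by
        rw [Real.rpow_def_of_pos hx0, Real.rpow_def_of_pos hM0]
        apply Real.exp_le_exp.mpr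
        have h5 : κ * Real.log M * r ≤ 8 * Real.log x := by
          rw [le_div_iff₀ (by linarith)] at hr3
          calc κ * Real.log M * r ≤ Real.log M₁ * r := mul_le_mul_of_nonneg_right hlogM₁ hr0.le
            _ = r * Real.log M₁ := mul_comm _ _
            _ ≤ 8 * Real.log x := hr3
        have h6 : κ * Real.log M / 8 ≤ Real.log x * (1 / r) := by
          rw [mul_one_div, le_div_iff₀ hr0]
          linarith
        linarith
      calc ((Bm m₁).card : ℝ) ≤ 4 * x^2 * (1 + Real.log x)^2 * M₁ * (r * (x:ℝ)^(-(1/(r:ℝ)))) /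
            (e * Nat.primeCounting x)^2 := h1
        _ ≤ 4 * x^2 * (1 + Real.log x)^2 * M₁ * (r * (x:ℝ)^(-(1/(r:ℝ)))) /
            ((x:ℝ)^2 * e^2 / (4 * (1 + Real.log x)^2)) := by
            apply div_le_div_of_nonneg_left (by positivity) h3 h2
        _ = (16 / e^2) * (1 + Real.log x)^4 * M₁ * (r * (x:ℝ)^(-(1/(r:ℝ)))) := by
            field_simp; ring
        _ ≤ (16 / e^2) * (1 + Real.log x)^4 * (M * (m₁:ℝ)⁻¹) * ((8 * (1 + Real.log x)) * (M:ℝ)^(-(κ/8))) := by
            have h7 : (r:ℝ) ≤ 8 * (1 + Real.log x) := by linarith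
            gcongr
        _ = _ := by ring
  calc (B.card : ℝ) ≤ (((Finset.Icc 1 M).biUnion (fun m₁ => (Bm m₁).image (fun P => m₁ * P))).card : ℝ) := by
        exact_mod_cast Finset.card_le_card hcov
    _ ≤ ∑ m₁ ∈ Finset.Icc 1 M, (((Bm m₁).image (fun P => m₁ * P)).card : ℝ) := by
        exact_mod_cast Finset.card_biUnion_le
    _ ≤ ∑ m₁ ∈ Finset.Icc 1 M, ((Bm m₁).card : ℝ) := by
        apply Finset.sum_le_sum
        intro m₁ _
        exact_mod_cast Finset.card_image_le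
    _ ≤ ∑ m₁ ∈ Finset.Icc 1 M, (128 / e^2) * (1 + Real.log x)^5 * ((M:ℝ) * (m₁:ℝ)⁻¹ * (M:ℝ)^(-(κ/8))) :=
        Finset.sum_le_sum hpiece
    _ = (128 / e^2) * (1 + Real.log x)^5 * ((M:ℝ) * (M:ℝ)^(-(κ/8)) * ∑ m₁ ∈ Finset.Icc 1 M, (m₁:ℝ)⁻¹) := by
        rw [Finset.mul_sum, Finset.mul_sum]
        apply Finset.sum_congr rfl
        intro m₁ _
        ring
    _ ≤ _ := by
        have h9 := harmonic_le_one_add_log M
        rw [harmonic_eq_sum_Icc] at h9
        push_cast at h9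
        gcongr


/-- Main assembly. -/
theorem artin_all_of (η : ℝ) (hη : 0 < η) :
    ∃ c : ℝ, 0 < c ∧ ∀ (b : ℤ) (_ : b ≠ 0) (δ : ℝ) (_ : 0 ≤ δ) (_ : δ ≤ 2)
    (_ : Tendsto (fun x : ℕ => artinEC x / Nat.primeCounting x) atTop (𝓝 δ))
    (ε : ℝ) (_ : 0 < ε),
    ∃ X₀ : ℕ, ∀ᶠ M : ℕ in atTop, ∀ E : Finset ℕ, E ⊆ Finset.Icc 1 M →
      (∀ m ∈ E, ∃ x : ℕ, X₀ ≤ x ∧ (x:ℝ) ≤ Real.exp ((M:ℝ)^c) ∧
        ε < |artinP (b * (m:ℤ)) x / Nat.primeCounting x - δ|) → (E.card : ℝ) ≤ η * M := by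
  classical
  obtain ⟨κ, hκ0, hκ1, hsmooth⟩ := smooth_count (η/4) (by positivity)
  refine ⟨κ/96, by positivity, ?_⟩
  intro b hb δ hδ0 hδ1 hmain ε hε
  obtain ⟨lam, hlam, ε', hε', j₁, hscale⟩ := scale_reduction δ hδ0 hδ1 ε hε
  obtain ⟨X₁, hX₁3, hX₁⟩ := pi_lower
  have hlogl : 0 < Real.log lam := Real.log_pos hlam
  have hlam0 : 0 < lam := by linarith
  -- main term
  have hm1 : ∀ᶠ x : ℕ in atTop, |artinEC x / Nat.primeCounting x - δ| < ε'/4 := by
    have := (hmain.sub_const δ).abs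
    simp only [sub_self, abs_zero] at this
    exact this.eventually (gt_mem_nhds (by positivity))
  have hm2 : ∀ᶠ x : ℕ in atTop, (1 + 2 * (b.natAbs.primeFactors.card : ℝ)) ≤ ε'/8 * Nat.primeCounting x := by
    have h1 : Tendsto (fun x : ℕ => ε'/8 * (Nat.primeCounting x : ℝ)) atTop atTop := by
      apply Tendsto.const_mul_atTop (by positivity)
      exact tendsto_natCast_atTop_atTop.comp Nat.tendsto_primeCounting
    exact h1.eventually_ge_atTop _
  obtain ⟨X₂, hX₂⟩ := eventually_atTop.mp (hm1.and hm2)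
  -- tail of the series
  set e : ℝ := ε'/4 with he
  have he0 : 0 < e := by positivity
  set K : ℝ := 16 / e^2 + 32 / ε' with hK
  have hK0 : 0 < K := by positivity
  set a : ℕ → ℝ := fun j => (1 + Real.log (scl lam j)) ^ 5 / (scl lam j : ℝ) with ha
  have hsum : Summable a := summable_scales hlam
  have htail : ∀ᶠ i : ℕ in atTop, ∑' k, a (k + i) < η / (4 * K) := by
    have := tendsto_sum_nat_add a
    exact this.eventually (gt_mem_nhds (by positivity))
  have hscl : ∀ᶠ j : ℕ in atTop, max X₁ X₂ ≤ scl lam j := (scl_tendsto hlam).eventually_ge_atTop _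
  obtain ⟨j₂, hj₂⟩ := eventually_atTop.mp (htail.and hscl)
  set j₀ := max j₁ j₂ with hj₀
  have hj₀₁ : j₁ ≤ j₀ := le_max_left _ _
  have hj₀₂ : j₂ ≤ j₀ := le_max_right _ _
  refine ⟨⌈lam ^ j₀⌉₊, ?_⟩
  -- growth
  have hG := (final_growth (e := e) hκ0 hlam).comp tendsto_natCast_atTop_atTop
  have hG1 := hG.eventually (gt_mem_nhds (show (0:ℝ) < η/4 by positivity))
  have hκM : ∀ᶠ M : ℕ in atTop, 1 ≤ κ * Real.log M := by
    have h1 : Tendsto (fun M : ℕ => κ * Real.log M) atTop atTop := by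
      apply Tendsto.const_mul_atTop hκ0
      exact Real.tendsto_log_atTop.comp tendsto_natCast_atTop_atTop
    exact h1.eventually_ge_atTop _
  filter_upwards [hsmooth, hG1, hκM, eventually_ge_atTop 3] with M hsm hG2 hκM1 hM3
  intro E hE hbad
  have hM0 : (0:ℝ) < M := by exact_mod_cast (by omega : 0 < M)
  set J : ℕ := ⌊(M:ℝ)^(κ/96) / Real.log lam⌋₊ with hJ
  have hJ1 : (J:ℝ) ≤ (M:ℝ)^(κ/96) / Real.log lam := Nat.floor_le (by positivity)
  have hJ2 : (M:ℝ)^(κ/96) / Real.log lam < J + 1 := Nat.lt_floor_add_one _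
  -- bad sets
  set nonsm : ℕ → Prop := fun m => ∃ p : ℕ, p.Prime ∧ p ∣ m ∧ (M:ℝ)^κ < p with hnonsm
  set S := (Finset.Icc 1 M).filter (fun m => ¬ nonsm m) with hS
  set BD : ℕ → Finset ℕ := fun j => (Finset.Icc 1 M).filter (fun m => nonsm m ∧
    e * Nat.primeCounting (scl lam j) < |DC b m (scl lam j)|) with hBD
  set BO : ℕ → Finset ℕ := fun j => (Finset.Icc 1 M).filter (fun m =>
    ε'/16 * Nat.primeCounting (scl lam j) < omegaX m (scl lam j)) with hBO
  have hcov : E ⊆ S ∪ (Finset.Icc j₀ (J+1)).biUnion (fun j => BD j ∪ BO j) := by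
    intro m hm
    have hmI := hE hm
    by_cases hns : nonsm m
    · rw [Finset.mem_union]
      right
      by_contra hcon
      rw [Finset.mem_biUnion] at hcon
      push Not at hcon
      obtain ⟨x, hx1, hx2, hx3⟩ := hbad m hm
      apply absurd _ (not_le.mpr hx3)
      apply hscale j₀ hj₀₁ (artinP (b * (m:ℤ))) (artinP_mono _) (artinP_nonneg _) J
      · intro j hj1 hj2
        have hc1 := hcon j (Finset.mem_Icc.mpr ⟨hj1, hj2⟩)
        rw [Finset.notMem_union] at hc1
        obtain ⟨hc2, hc3⟩ := hc1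
        simp only [hBD, Finset.mem_filter, not_and, not_lt] at hc2
        simp only [hBO, Finset.mem_filter, not_and, not_lt] at hc3
        have hc2' := hc2 hmI hns
        have hc3' := hc3 hmI
        have hsj := (hj₂ j (hj₀₂.trans hj1)).2
        obtain ⟨h5, h6⟩ := hX₂ (scl lam j) ((le_max_right _ _).trans hsj)
        have h7 : 3 ≤ scl lam j := hX₁3.trans ((le_max_left _ _).trans hsj)
        have hpi := primeCounting_pos (show 2 ≤ scl lam j by omega)
        have hdec := artinC_decomp b hb m (scl lam j)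
        set pi : ℝ := (Nat.primeCounting (scl lam j) : ℝ)
        set PP := artinP (b * (m:ℤ)) (scl lam j)
        set EE := artinEC (scl lam j)
        set DD := DC b m (scl lam j)
        have h8 : |PP - EE| ≤ 3 * ε' / 4 * pi := by
          calc |PP - EE| = |(PP - EE - DD) + DD| := by ring_nf
            _ ≤ |PP - EE - DD| + |DD| := abs_add_le _ _
            _ ≤ (1 + 2 * (b.natAbs.primeFactors.card + omegaX m (scl lam j))) + e * pi := by
                have := omegaX_nonneg m (scl lam j)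
                have h20 : (0:ℝ) ≤ b.natAbs.primeFactors.card := Nat.cast_nonneg _
                linarith
            _ ≤ 3 * ε' / 4 * pi := by
                rw [he]
                nlinarith
        have h9 : PP / pi - δ = (PP - EE) / pi + (EE / pi - δ) := by ring
        rw [h9]
        calc |(PP - EE) / pi + (EE / pi - δ)| ≤ |(PP - EE) / pi| + |EE / pi - δ| := abs_add_le _ _
          _ ≤ 3 * ε' / 4 + ε' / 4 := by
              apply add_le_add _ h5.le
              rw [abs_div, abs_of_pos hpi, div_le_iff₀ hpi]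
              exact h8
          _ = ε' := by ring
      · calc lam ^ j₀ ≤ (⌈lam ^ j₀⌉₊ : ℝ) := Nat.le_ceil _
          _ ≤ x := by exact_mod_cast hx1
      · refine lt_of_le_of_lt hx2 ?_
        rw [← Real.exp_log (pow_pos hlam0 (J+1)), Real.log_pow]
        apply Real.exp_lt_exp.mpr
        rw [div_lt_iff₀ hlogl] at hJ2
        push_cast
        exact hJ2
    · rw [Finset.mem_union]
      left
      exact Finset.mem_filter.mpr ⟨hmI, hns⟩
  have hScard : (S.card : ℝ) ≤ η/4 * M := by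
    apply hsm S (Finset.filter_subset _ _)
    intro m hm p hp hpm
    have := (Finset.mem_filter.mp hm).2
    simp only [hnonsm, not_exists, not_and, not_lt] at this
    exact this p hp hpm
  set Lg : ℝ := (128 / e^2) * (1 + ((M:ℝ) ^ (κ/96) + Real.log lam)) ^ 5 *
    ((M:ℝ) * (M:ℝ) ^ (-(κ/8)) * (1 + Real.log M)) with hLg
  have hlogM : 0 < Real.log M := Real.log_pos (by exact_mod_cast (by omega : 1 < M))
  have hLg0 : 0 ≤ Lg := by positivity
  have hj : ∀ j ∈ Finset.Icc j₀ (J+1), ((BD j ∪ BO j).card : ℝ) ≤ K * a j * M + Lg := by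
    intro j hj
    rw [Finset.mem_Icc] at hj
    have hsj := (hj₂ j (hj₀₂.trans hj.1)).2
    have hsX₁ : X₁ ≤ scl lam j := (le_max_left _ _).trans hsj
    have hs3 : 3 ≤ scl lam j := hX₁3.trans hsX₁
    have hs0 : (0:ℝ) < scl lam j := by exact_mod_cast (by omega : 0 < scl lam j)
    have hpl := hX₁ (scl lam j) hsX₁
    have hlogs : 0 < Real.log (scl lam j) := Real.log_pos (by exact_mod_cast (by omega : 1 < scl lam j))
    have hpi := primeCounting_pos (show 2 ≤ scl lam j by omega)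
    have haj : 0 ≤ a j := by simp only [ha]; positivity
    have hO : ((BO j).card : ℝ) ≤ 32 / ε' * a j * M := by
      have h1 := omega_count (scl lam j) M (by omega) (BO j) (Finset.filter_subset _ _)
        (ε'/16 * Nat.primeCounting (scl lam j)) (by positivity)
        (fun m hm => (Finset.mem_filter.mp hm).2)
      refine h1.trans ?_
      rw [div_le_iff₀ (by positivity)]
      have h2 : (1 + Real.log (scl lam j)) ≤ 2 * a j * Nat.primeCounting (scl lam j) := by
        calc (1 + Real.log (scl lam j)) = 2 * ((1 + Real.log (scl lam j)) ^ 2 / (scl lam j)) *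
              ((scl lam j : ℝ) / (2 * (1 + Real.log (scl lam j)))) := by field_simp
          _ ≤ 2 * a j * Nat.primeCounting (scl lam j) := by
              apply mul_le_mul _ _ (by positivity) (by positivity)
              · simp only [ha]
                gcongr
                · linarith
                · norm_num
              · refine le_trans ?_ hpl
                gcongr
                linarith
      calc (M:ℝ) * (1 + Real.log (scl lam j)) ≤ M * (2 * a j * Nat.primeCounting (scl lam j)) := by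
            gcongr
        _ = 32 / ε' * a j * M * (ε' / 16 * Nat.primeCounting (scl lam j)) := by
            field_simp; ring
    have hDc : ((BD j).card : ℝ) ≤ 16 / e^2 * a j * M + Lg := by
      rcases le_or_gt ((scl lam j)^4) M with hcase | hcase
      · have h1 := small_x_boundC b hs3 hpl hcase he0 (BD j) (Finset.filter_subset _ _)
          (fun m hm => (Finset.mem_filter.mp hm).2.2)
        linarith
      · have h1 := large_x_boundC b hs3 hpl hcase he0 hκ0 hM3 hκM1 (BD j)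
          (Finset.filter_subset _ _) (fun m hm => (Finset.mem_filter.mp hm).2.1)
          (fun m hm => (Finset.mem_filter.mp hm).2.2)
        have h2 : Real.log (scl lam j) ≤ (M:ℝ) ^ (κ/96) + Real.log lam := by
          have h3 : (scl lam j : ℝ) ≤ lam ^ (J+1) := by
            calc (scl lam j : ℝ) ≤ lam ^ j := Nat.floor_le (by positivity)
              _ ≤ lam ^ (J+1) := pow_le_pow_right₀ hlam.le hj.2
          calc Real.log (scl lam j) ≤ Real.log (lam ^ (J+1)) := Real.log_le_log hs0 h3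
            _ = J * Real.log lam + Real.log lam := by rw [Real.log_pow]; push_cast; ring
            _ ≤ (M:ℝ) ^ (κ/96) + Real.log lam := by
                rw [le_div_iff₀ hlogl] at hJ1
                linarith
        have h4 : (128 / e^2) * (1 + Real.log (scl lam j))^5 * ((M:ℝ) * (M:ℝ)^(-(κ/8)) * (1 + Real.log M)) ≤ Lg := by
          simp only [hLg]
          gcongr
        have h5 : 0 ≤ 16 / e^2 * a j * M := by positivity
        linarith
    calc ((BD j ∪ BO j).card : ℝ) ≤ (BD j).card + (BO j).card := by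
          exact_mod_cast Finset.card_union_le _ _
      _ ≤ K * a j * M + Lg := by rw [hK]; linarith
  have hsuma : ∑ j ∈ Finset.Icc j₀ (J+1), a j ≤ η / (4 * K) := by
    have h1 := (hj₂ j₀ hj₀₂).1
    have ha0 : ∀ j, 0 ≤ a j := by
      intro j
      simp only [ha]
      have : 0 ≤ Real.log (scl lam j) := by
        apply Real.log_natCast_nonneg
      positivity
    have h2 : ∑ j ∈ Finset.Icc j₀ (J+1), a j ≤ ∑' k, a (k + j₀) := by
      have h3 : Finset.Icc j₀ (J+1) = (Finset.range (J + 2 - j₀)).image (fun k => k + j₀) := by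
        ext j
        simp only [Finset.mem_Icc, Finset.mem_image, Finset.mem_range]
        constructor
        · rintro ⟨h4, h5⟩
          exact ⟨j - j₀, by omega, by omega⟩
        · rintro ⟨k, hk, rfl⟩
          omega
      rw [h3, Finset.sum_image (by intro x _ y _ hxy; simpa using hxy)]
      apply ((summable_nat_add_iff j₀).mpr hsum).sum_le_tsum
      intro k _
      exact ha0 _
    linarith
  have hcardE : (E.card : ℝ) ≤ S.card + ∑ j ∈ Finset.Icc j₀ (J+1), ((BD j ∪ BO j).card : ℝ) := by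
    calc (E.card : ℝ) ≤ ((S ∪ (Finset.Icc j₀ (J+1)).biUnion (fun j => BD j ∪ BO j)).card : ℝ) := by
          exact_mod_cast Finset.card_le_card hcov
      _ ≤ (S.card : ℝ) + (((Finset.Icc j₀ (J+1)).biUnion (fun j => BD j ∪ BO j)).card : ℝ) := by
          exact_mod_cast Finset.card_union_le _ _
      _ ≤ _ := by
          gcongr
          exact_mod_cast Finset.card_biUnion_le
  have hfin : ∑ j ∈ Finset.Icc j₀ (J+1), ((BD j ∪ BO j).card : ℝ) ≤ η/4 * M + η/4 * M := by
    calc ∑ j ∈ Finset.Icc j₀ (J+1), ((BD j ∪ BO j).card : ℝ)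
        ≤ ∑ j ∈ Finset.Icc j₀ (J+1), (K * a j * M + Lg) := Finset.sum_le_sum hj
      _ = K * M * (∑ j ∈ Finset.Icc j₀ (J+1), a j) + ((Finset.Icc j₀ (J+1)).card : ℝ) * Lg := by
          rw [Finset.sum_add_distrib, Finset.sum_const, nsmul_eq_mul, Finset.mul_sum]
          congr 1
          apply Finset.sum_congr rfl
          intro j _
          ring
      _ ≤ K * M * (η / (4 * K)) + ((M:ℝ) ^ (κ/96) / Real.log lam + 3) * Lg := by
          gcongr
          rw [Nat.card_Icc]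
          have : ((J + 1 + 1 - j₀ : ℕ) : ℝ) ≤ (J:ℝ) + 2 := by
            have : J + 1 + 1 - j₀ ≤ J + 2 := by omega
            exact_mod_cast this
          linarith
      _ = η/4 * M + (((M:ℝ) ^ (κ/96) / Real.log lam + 3) * ((128 / e^2) *
      (1 + ((M:ℝ) ^ (κ/96) + Real.log lam)) ^ 5 * ((M:ℝ) ^ (-(κ/8)) * (1 + Real.log M)))) * M := by
          simp only [hLg]
          field_simp
      _ ≤ η/4 * M + η/4 * M := by
          gcongr
          exact hG2.le
  nlinarith


end Pool.Agent.Helper8.ArtinC
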