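import Pool.Agent.Helper8.ArtinLS

set_option autoImplicit false

namespace Pool.Agent.Helper8.ArtinLS

open Finset ComplexConjugate

/-- Weighted power mean inequality for natural exponents (a form of Hölder's inequality). -/
theorem holder_pow {ι : Type*} (s : Finset ι) (w z : ι → ℝ) (hw : ∀ i ∈ s, 0 ≤ w i)
    (hz : ∀ i ∈ s, 0 ≤ z i) (k : ℕ) :
    (∑ i ∈ s, w i * z i) ^ (k + 1) ≤ (∑ i ∈ s, w i) ^ k * ∑ i ∈ s, w i * z i ^ (k + 1) := by
  set W := ∑ i ∈ s, w i with hW
  have hW0 : 0 ≤ W := Finset.sum_nonneg hw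
  rcases hW0.eq_or_lt with h0 | h0
  · have hall : ∀ i ∈ s, w i = 0 := (Finset.sum_eq_zero_iff_of_nonneg hw).1 h0.symm
    have h1 : ∑ i ∈ s, w i * z i = 0 := Finset.sum_eq_zero fun i hi => by rw [hall i hi, zero_mul]
    have h2 : ∑ i ∈ s, w i * z i ^ (k + 1) = 0 :=
      Finset.sum_eq_zero fun i hi => by rw [hall i hi, zero_mul]
    rw [h1, h2]
    simp
  · have h1 := Real.pow_arith_mean_le_arith_mean_pow s (fun i => w i / W) z
      (fun i hi => div_nonneg (hw i hi) hW0) (by rw [← Finset.sum_div]; exact div_self h0.ne')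
      hz (k + 1)
    have e1 : ∑ i ∈ s, w i / W * z i = (∑ i ∈ s, w i * z i) / W := by
      rw [Finset.sum_div]; exact Finset.sum_congr rfl fun i _ => by ring
    have e2 : ∑ i ∈ s, w i / W * z i ^ (k + 1) = (∑ i ∈ s, w i * z i ^ (k + 1)) / W := by
      rw [Finset.sum_div]; exact Finset.sum_congr rfl fun i _ => by ring
    rw [e1, e2, div_pow, div_le_iff₀ (by positivity)] at h1
    calc _ ≤ _ := h1
      _ = _ := by
        rw [pow_succ]
        field_simp

/-- The Fourier coefficients of the indicator function of the primitive roots modulo `p`. -/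
noncomputable def coef (p : ℕ) (χ : DirichletCharacter ℂ p) : ℂ :=
  ((p : ℂ) - 1)⁻¹ * ∑ n ∈ range p, if orderOf (n : ZMod p) = p - 1 then χ⁻¹ (n : ZMod p) else 0

section prime

variable {p : ℕ} [hp : Fact p.Prime]

theorem coef_eq (χ : DirichletCharacter ℂ p) :
    coef p χ = ((p : ℂ) - 1)⁻¹ * ∑ x : ZMod p, if orderOf x = p - 1 then χ⁻¹ x else 0 := by
  unfold coef
  rw [sum_range_zmod (fun x : ZMod p => if orderOf x = p - 1 then χ⁻¹ x else 0)]

theorem one_lt_sub (h2 : p ≠ 2) : 1 < p - 1 := by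
  have := hp.out.two_le
  omega

theorem ne_zero_of_orderOf {x : ZMod p} (h : orderOf x = p - 1) : x ≠ 0 := by
  rintro rfl
  have := hp.out.two_le
  rw [orderOf_zero] at h
  omega

theorem cast_sub_one_ne_zero : ((p : ℂ) - 1) ≠ 0 := by
  have := hp.out.one_lt
  rw [sub_ne_zero]
  exact_mod_cast this.ne'

theorem natCast_sub_one : ((p - 1 : ℕ) : ℂ) = (p : ℂ) - 1 := by
  rw [Nat.cast_sub hp.out.one_lt.le]; simp

/-- Fourier expansion of the indicator function of the primitive roots. -/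
theorem expansion {u : ZMod p} (hu : u ≠ 0) :
    ∑ χ : DirichletCharacter ℂ p, coef p χ * χ u = if orderOf u = p - 1 then 1 else 0 := by
  have h1 : ∑ χ : DirichletCharacter ℂ p, coef p χ * χ u =
      ((p : ℂ) - 1)⁻¹ * ∑ x : ZMod p, if orderOf x = p - 1 then
        ∑ χ : DirichletCharacter ℂ p, χ⁻¹ x * χ u else 0 := by
    simp only [coef_eq, mul_assoc, ← Finset.mul_sum]
    congr 1
    simp only [Finset.sum_mul]
    rw [Finset.sum_comm]
    refine Finset.sum_congr rfl fun x _ => ?_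
    split_ifs with h
    · rfl
    · simp
  rw [h1]
  have h2 : ∀ x : ZMod p, (if orderOf x = p - 1 then
        ∑ χ : DirichletCharacter ℂ p, χ⁻¹ x * χ u else 0) =
        if x = u then (if orderOf u = p - 1 then ((p : ℂ) - 1) else 0) else 0 := by
    intro x
    by_cases hx : orderOf x = p - 1
    · rw [if_pos hx]
      have hx0 : x ≠ 0 := ne_zero_of_orderOf hx
      have h3 := DirichletCharacter.sum_char_inv_mul_char_eq ℂ (a := x)
        (isUnit_iff_ne_zero.2 hx0) u
      have h4 : ∀ χ : DirichletCharacter ℂ p, χ⁻¹ x = χ x⁻¹ := fun χ => MulChar.inv_apply' χ x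
      simp only [h4, h3]
      by_cases hxu : x = u
      · subst hxu
        simp only [if_true, if_pos hx]
        rw [Nat.totient_prime hp.out, natCast_sub_one]
      · simp [hxu]
    · rw [if_neg hx]
      by_cases hxu : x = u
      · subst hxu
        simp [hx]
      · simp [hxu]
  simp only [h2, Finset.sum_ite_eq', Finset.mem_univ, if_true]
  split_ifs with h
  · exact inv_mul_cancel₀ cast_sub_one_ne_zero
  · simp

/-- Number of primitive roots. -/
theorem card_primitive :
    (Finset.univ.filter fun x : ZMod p => orderOf x = p - 1).card = Nat.totient (p - 1) := by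
  classical
  have h1 := IsCyclic.card_orderOf_eq_totient (α := (ZMod p)ˣ) (d := p - 1)
    (by rw [ZMod.card_units_eq_totient, Nat.totient_prime hp.out])
  rw [← h1]
  symm
  refine Finset.card_bij (fun u _ => (u : ZMod p)) ?_ ?_ ?_
  · intro u hu
    simp only [Finset.mem_filter, Finset.mem_univ, true_and] at hu ⊢
    rw [orderOf_units, hu]
  · intro u _ v _ h
    exact Units.ext h
  · intro x hx
    simp only [Finset.mem_filter, Finset.mem_univ, true_and] at hx
    refine ⟨Units.mk0 x (ne_zero_of_orderOf hx), ?_, rfl⟩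
    simp only [Finset.mem_filter, Finset.mem_univ, true_and]
    rw [← orderOf_units]
    exact hx

theorem norm_coef_le_one (χ : DirichletCharacter ℂ p) : ‖coef p χ‖ ≤ 1 := by
  rw [coef_eq, norm_mul, norm_inv]
  have hpos : (0 : ℝ) < ‖(p : ℂ) - 1‖ := norm_pos_iff.2 cast_sub_one_ne_zero
  rw [inv_mul_le_iff₀ hpos, mul_one]
  have h1 : ‖(p : ℂ) - 1‖ = ((p - 1 : ℕ) : ℝ) := by
    rw [← natCast_sub_one, Complex.norm_natCast]
  rw [h1]
  calc ‖∑ x : ZMod p, if orderOf x = p - 1 then χ⁻¹ x else 0‖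
      ≤ ∑ x : ZMod p, ‖if orderOf x = p - 1 then χ⁻¹ x else 0‖ := norm_sum_le _ _
    _ ≤ ∑ x : ZMod p, if orderOf x = p - 1 then (1 : ℝ) else 0 := by
        refine Finset.sum_le_sum fun x _ => ?_
        split_ifs
        · exact norm_char_le_one _ _
        · simp
    _ = (Nat.totient (p - 1) : ℝ) := by
        rw [Finset.sum_ite, Finset.sum_const_zero, add_zero, Finset.sum_const, card_primitive]
        simp
    _ ≤ ((p - 1 : ℕ) : ℝ) := by exact_mod_cast Nat.totient_le _

/-- Möbius inversion: the indicator function of the primitive roots. -/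
theorem moebius_expansion {x : ZMod p} (hx : x ≠ 0) :
    (if orderOf x = p - 1 then (1 : ℂ) else 0) =
      ∑ e ∈ (p - 1).divisors, if x ^ ((p - 1) / e) = 1 then
        ((ArithmeticFunction.moebius e : ℤ) : ℂ) else 0 := by
  have hp1 : p - 1 ≠ 0 := by have := hp.out.two_le; omega
  have hdvd : orderOf x ∣ p - 1 := ZMod.orderOf_dvd_card_sub_one hx
  obtain ⟨k, hk⟩ := hdvd
  have hk0 : k ≠ 0 := by rintro rfl; exact hp1 (by simpa using hk)
  have hord0 : orderOf x ≠ 0 := by
    intro h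
    rw [h, zero_mul] at hk
    exact hp1 hk
  -- the condition on `e`
  have h1 : ∀ e ∈ (p - 1).divisors, (x ^ ((p - 1) / e) = 1 ↔ e ∣ k) := by
    intro e he
    obtain ⟨⟨c, hc⟩, -⟩ := Nat.mem_divisors.1 he
    have he0 : e ≠ 0 := by rintro rfl; exact hp1 (by simpa using hc)
    have hdiv : (p - 1) / e = c := by
      rw [hc]; exact Nat.mul_div_cancel_left c (Nat.pos_of_ne_zero he0)
    rw [hdiv, ← orderOf_dvd_iff_pow_eq_one]
    constructor
    · rintro ⟨d, hd⟩
      refine ⟨d, ?_⟩
      have : orderOf x * k = orderOf x * (e * d) := by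
        rw [← hk, hc, hd]; ring
      exact Nat.eq_of_mul_eq_mul_left (Nat.pos_of_ne_zero hord0) this
    · rintro ⟨d, hd⟩
      refine ⟨d, ?_⟩
      have : e * c = e * (orderOf x * d) := by
        rw [← hc, hk, hd]; ring
      exact Nat.eq_of_mul_eq_mul_left (Nat.pos_of_ne_zero he0) this
  have h2 : ∑ e ∈ (p - 1).divisors, (if x ^ ((p - 1) / e) = 1 then
        ((ArithmeticFunction.moebius e : ℤ) : ℂ) else 0) =
      ∑ e ∈ k.divisors, ((ArithmeticFunction.moebius e : ℤ) : ℂ) := by
    rw [← Finset.sum_filter]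
    refine Finset.sum_congr ?_ fun _ _ => rfl
    ext e
    simp only [Finset.mem_filter, Nat.mem_divisors]
    constructor
    · rintro ⟨he, hx1⟩
      exact ⟨(h1 e (Nat.mem_divisors.2 he)).1 hx1, hk0⟩
    · rintro ⟨he, _⟩
      have he' : e ∣ p - 1 := he.trans ⟨orderOf x, by rw [hk]; ring⟩
      exact ⟨⟨he', hp1⟩, (h1 e (Nat.mem_divisors.2 ⟨he', hp1⟩)).2 he⟩
  rw [h2]
  have h3 : ∑ e ∈ k.divisors, ((ArithmeticFunction.moebius e : ℤ) : ℂ) =
      if k = 1 then 1 else 0 := by
    have h4 := congrArg (fun f : ArithmeticFunction ℤ => f k) ArithmeticFunction.moebius_mul_coe_zeta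
    simp only [ArithmeticFunction.mul_apply] at h4
    have h5 : ∑ e ∈ k.divisors, (ArithmeticFunction.moebius e : ℤ) = if k = 1 then 1 else 0 := by
      rw [← ArithmeticFunction.coe_mul_zeta_apply, ArithmeticFunction.moebius_mul_coe_zeta,
        ArithmeticFunction.one_apply]
    have h6 := congrArg (fun z : ℤ => (z : ℂ)) h5
    push_cast at h6
    exact h6
  rw [h3]
  have h7 : orderOf x = p - 1 ↔ k = 1 := by
    constructor
    · intro h
      rw [h] at hk
      have : (p - 1) * k = (p - 1) * 1 := by omega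
      exact Nat.eq_of_mul_eq_mul_left (Nat.pos_of_ne_zero hp1) this
    · rintro rfl
      omega
  simp only [h7]

/-- Sums of a character over the group of `d`-torsion elements. -/
theorem torsion_sum {d : ℕ} (hd : d ≠ 0) (ψ : DirichletCharacter ℂ p) :
    ∃ t : ℝ, 0 ≤ t ∧ ∑ x : ZMod p, (if x ^ d = 1 then ψ x else 0) = (t : ℂ) := by
  classical
  by_cases h : ∃ y : ZMod p, y ^ d = 1 ∧ ψ y ≠ 1
  · obtain ⟨y, hy, hψ⟩ := h
    refine ⟨0, le_rfl, ?_⟩
    have hy0 : y ≠ 0 := by
      rintro rfl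
      rw [zero_pow hd] at hy
      exact zero_ne_one hy
    have h1 : ψ y * ∑ x : ZMod p, (if x ^ d = 1 then ψ x else 0) =
        ∑ x : ZMod p, (if x ^ d = 1 then ψ x else 0) := by
      rw [Finset.mul_sum]
      rw [← Equiv.sum_comp (Equiv.mulLeft₀ y hy0) (fun x => if x ^ d = 1 then ψ x else 0)]
      refine Finset.sum_congr rfl fun x _ => ?_
      simp only [Equiv.mulLeft₀_apply, mul_pow, hy, one_mul, map_mul]
      split_ifs <;> simp
    have h2 : (ψ y - 1) * ∑ x : ZMod p, (if x ^ d = 1 then ψ x else 0) = 0 := by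
      rw [sub_mul, h1, one_mul, sub_self]
    rcases mul_eq_zero.1 h2 with h3 | h3
    · exact absurd (sub_eq_zero.1 h3) hψ
    · rw [h3]; simp
  · push Not at h
    refine ⟨∑ x : ZMod p, (if x ^ d = 1 then (1 : ℝ) else 0), ?_, ?_⟩
    · exact Finset.sum_nonneg fun x _ => by split_ifs <;> norm_num
    · push_cast
      refine Finset.sum_congr rfl fun x _ => ?_
      split_ifs with hx
      · rw [h x hx]; simp
      · simp

/-- The Fourier coefficients are absolutely summable with a small bound. -/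
theorem sum_norm_coef_le : ∑ χ : DirichletCharacter ℂ p, ‖coef p χ‖ ≤ ((p - 1).divisors.card : ℝ) := by
  classical
  have hp1 : p - 1 ≠ 0 := by have := hp.out.two_le; omega
  have hpos : (0 : ℝ) < ((p - 1 : ℕ) : ℝ) := by exact_mod_cast Nat.pos_of_ne_zero hp1
  -- the torsion sums
  set T : ℕ → DirichletCharacter ℂ p → ℂ := fun e χ =>
    ∑ x : ZMod p, (if x ^ ((p - 1) / e) = 1 then χ⁻¹ x else 0) with hT
  have hdiv0 : ∀ e ∈ (p - 1).divisors, (p - 1) / e ≠ 0 := by
    intro e he
    obtain ⟨he1, _⟩ := Nat.mem_divisors.1 he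
    exact (Nat.div_pos (Nat.le_of_dvd (Nat.pos_of_ne_zero hp1) he1)
      (Nat.pos_of_mem_divisors he)).ne'
  have h1 : ∀ χ : DirichletCharacter ℂ p, coef p χ = ((p : ℂ) - 1)⁻¹ *
      ∑ e ∈ (p - 1).divisors, ((ArithmeticFunction.moebius e : ℤ) : ℂ) * T e χ := by
    intro χ
    rw [coef_eq]
    congr 1
    simp only [hT, Finset.mul_sum]
    rw [Finset.sum_comm]
    refine Finset.sum_congr rfl fun x _ => ?_
    by_cases hx : x = 0
    · subst hx
      rw [if_neg (fun h => ne_zero_of_orderOf h rfl)]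
      symm
      refine Finset.sum_eq_zero fun e he => ?_
      rw [zero_pow (hdiv0 e he), if_neg zero_ne_one, mul_zero]
    · have h2 := moebius_expansion hx
      calc (if orderOf x = p - 1 then χ⁻¹ x else 0)
          = (if orderOf x = p - 1 then (1 : ℂ) else 0) * χ⁻¹ x := by split_ifs <;> simp
        _ = _ := by
          rw [h2, Finset.sum_mul]
          refine Finset.sum_congr rfl fun e _ => ?_
          split_ifs <;> simp
  have h2 : ∀ χ : DirichletCharacter ℂ p, ‖coef p χ‖ ≤
      ((p - 1 : ℕ) : ℝ)⁻¹ * ∑ e ∈ (p - 1).divisors, ‖T e χ‖ := by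
    intro χ
    rw [h1, norm_mul, norm_inv, ← natCast_sub_one, Complex.norm_natCast]
    gcongr
    refine (norm_sum_le _ _).trans (Finset.sum_le_sum fun e _ => ?_)
    rw [norm_mul]
    have : ‖((ArithmeticFunction.moebius e : ℤ) : ℂ)‖ ≤ 1 := by
      rw [Complex.norm_intCast]
      exact_mod_cast ArithmeticFunction.abs_moebius_le_one
    calc _ ≤ 1 * ‖T e χ‖ := by gcongr
      _ = _ := one_mul _
  have h3 : ∀ e ∈ (p - 1).divisors, ∑ χ : DirichletCharacter ℂ p, ‖T e χ‖ = ((p - 1 : ℕ) : ℝ) := by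
    intro e he
    have h4 : ((∑ χ : DirichletCharacter ℂ p, ‖T e χ‖ : ℝ) : ℂ) =
        ∑ χ : DirichletCharacter ℂ p, T e χ := by
      push_cast
      refine Finset.sum_congr rfl fun χ _ => ?_
      obtain ⟨t, ht0, ht⟩ := torsion_sum (hdiv0 e he) χ⁻¹
      have : T e χ = (t : ℂ) := ht
      rw [this, Complex.norm_real, Real.norm_of_nonneg ht0]
    have h5 : ∑ χ : DirichletCharacter ℂ p, T e χ = ((p - 1 : ℕ) : ℂ) := by
      simp only [hT]
      rw [Finset.sum_comm]
      have h6 : ∀ x : ZMod p, ∑ χ : DirichletCharacter ℂ p,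
          (if x ^ ((p - 1) / e) = 1 then χ⁻¹ x else 0) =
          if x = 1 then ((p - 1 : ℕ) : ℂ) else 0 := by
        intro x
        by_cases hx : x ^ ((p - 1) / e) = 1
        · simp only [if_pos hx]
          have h7 : ∑ χ : DirichletCharacter ℂ p, χ⁻¹ x = ∑ χ : DirichletCharacter ℂ p, χ x :=
            Equiv.sum_comp (Equiv.inv (DirichletCharacter ℂ p)) (fun χ => χ x)
          rw [h7, DirichletCharacter.sum_characters_eq, Nat.totient_prime hp.out]
        · simp only [if_neg hx, Finset.sum_const_zero]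
          rw [if_neg]
          rintro rfl
          exact hx (one_pow _)
      simp only [h6, Finset.sum_ite_eq', Finset.mem_univ, if_true]
    have h8 := h4.trans h5
    exact_mod_cast h8
  calc ∑ χ : DirichletCharacter ℂ p, ‖coef p χ‖
      ≤ ∑ χ : DirichletCharacter ℂ p, ((p - 1 : ℕ) : ℝ)⁻¹ * ∑ e ∈ (p - 1).divisors, ‖T e χ‖ :=
        Finset.sum_le_sum fun χ _ => h2 χ
    _ = ((p - 1 : ℕ) : ℝ)⁻¹ * ∑ e ∈ (p - 1).divisors, ∑ χ : DirichletCharacter ℂ p, ‖T e χ‖ := by
        rw [← Finset.mul_sum, Finset.sum_comm]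
    _ = ((p - 1 : ℕ) : ℝ)⁻¹ * ∑ e ∈ (p - 1).divisors, ((p - 1 : ℕ) : ℝ) := by
        rw [Finset.sum_congr rfl h3]
    _ = ((p - 1).divisors.card : ℝ) := by
        rw [Finset.sum_const, nsmul_eq_mul]
        field_simp

end prime

section prime2

variable {p : ℕ} [hp : Fact p.Prime]

theorem exists_generator : ∃ g : ZMod p, orderOf g = p - 1 ∧ ∀ x : ZMod p, x ≠ 0 → ∃ k : ℕ, g ^ k = x := by
  obtain ⟨g, hg⟩ := IsCyclic.exists_generator (α := (ZMod p)ˣ)
  refine ⟨g, ?_, ?_⟩
  · rw [orderOf_units, orderOf_eq_card_of_forall_mem_zpowers hg, Nat.card_eq_fintype_card,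
      ZMod.card_units_eq_totient, Nat.totient_prime hp.out]
  · intro x hx
    obtain ⟨k, hk⟩ := (mem_powers_iff_mem_zpowers (x := g) (y := Units.mk0 x hx)).2 (hg _)
    refine ⟨k, ?_⟩
    have := congrArg (fun u : (ZMod p)ˣ => (u : ZMod p)) hk
    simpa using this

theorem exists_pow_of_orderOf {g : ZMod p} (hg : orderOf g = p - 1) {x : ZMod p} (hx : x ≠ 0) :
    ∃ k : ℕ, g ^ k = x := by
  have hg0 : g ≠ 0 := ne_zero_of_orderOf hg
  -- the powers of `g` are all the units
  obtain ⟨G, hGg⟩ : ∃ G : (ZMod p)ˣ, (G : ZMod p) = g := ⟨Units.mk0 g hg0, rfl⟩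
  have hG : orderOf G = Nat.card (ZMod p)ˣ := by
    rw [← orderOf_units, hGg]
    rw [hg, Nat.card_eq_fintype_card, ZMod.card_units_eq_totient, Nat.totient_prime hp.out]
  have hmem : Units.mk0 x hx ∈ Submonoid.powers G := by
    rw [mem_powers_iff_mem_zpowers]
    have htop : Subgroup.zpowers G = ⊤ :=
      Subgroup.eq_top_of_card_eq _ (by rw [Nat.card_zpowers, hG])
    rw [htop]
    exact Subgroup.mem_top _
  obtain ⟨k, hk⟩ := hmem
  refine ⟨k, ?_⟩
  have := congrArg (fun u : (ZMod p)ˣ => (u : ZMod p)) hk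
  simpa [hGg] using this

theorem char_eq_of_generator {g : ZMod p} (hg : orderOf g = p - 1) {χ ψ : DirichletCharacter ℂ p}
    (h : χ g = ψ g) : χ = ψ := by
  refine MulChar.ext' fun x => ?_
  by_cases hx : x = 0
  · subst hx
    rw [DirichletCharacter.map_zero' χ hp.out.one_lt.ne',
      DirichletCharacter.map_zero' ψ hp.out.one_lt.ne']
  · obtain ⟨k, rfl⟩ := exists_pow_of_orderOf hg hx
    rw [map_pow, map_pow, h]

/-- The quadratic character as a complex Dirichlet character. -/
noncomputable def qchar (p : ℕ) [Fact p.Prime] : DirichletCharacter ℂ p :=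
  (quadraticChar (ZMod p)).ringHomComp (Int.castRingHom ℂ)

theorem qchar_apply (x : ZMod p) : qchar p x = ((quadraticChar (ZMod p) x : ℤ) : ℂ) := rfl

theorem ringChar_ne_two (h2 : p ≠ 2) : ringChar (ZMod p) ≠ 2 := by
  rw [ZMod.ringChar_zmod_n]; exact h2

theorem qchar_ne_one (h2 : p ≠ 2) : qchar p ≠ 1 := by
  intro h
  apply quadraticChar_ne_one (ringChar_ne_two h2)
  refine MulChar.ext fun u => ?_
  have h1 : qchar p (u : ZMod p) = 1 := by rw [h]; exact MulChar.one_apply_coe u
  rw [qchar_apply] at h1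
  rw [MulChar.one_apply_coe]
  exact_mod_cast h1

theorem qchar_sq : (qchar p) ^ 2 = 1 := by
  refine MulChar.ext fun u => ?_
  rw [MulChar.pow_apply_coe, MulChar.one_apply_coe, qchar_apply]
  have := quadraticChar_sq_one (F := ZMod p) (a := (u : ZMod p)) u.ne_zero
  exact_mod_cast this

theorem apply_generator_of_sq_eq_one {g : ZMod p} (hg : orderOf g = p - 1)
    {χ : DirichletCharacter ℂ p} (h1 : χ ≠ 1) (h2 : χ ^ 2 = 1) : χ g = -1 := by
  have hg0 : g ≠ 0 := ne_zero_of_orderOf hg
  have h3 : χ g ^ 2 = 1 := by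
    have : (χ ^ 2) g = 1 := by
      rw [h2]
      exact MulChar.one_apply_coe (Units.mk0 g hg0)
    rwa [MulChar.pow_apply' χ two_ne_zero] at this
  rcases sq_eq_one_iff.1 h3 with h | h
  · exfalso
    apply h1
    apply char_eq_of_generator hg
    rw [h]
    exact (MulChar.one_apply_coe (Units.mk0 g hg0)).symm
  · exact h

theorem sq_eq_one_iff {χ : DirichletCharacter ℂ p} (h2 : p ≠ 2) :
    χ ^ 2 = 1 ↔ χ = 1 ∨ χ = qchar p := by
  constructor
  · intro h
    by_cases h1 : χ = 1
    · exact Or.inl h1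
    · right
      obtain ⟨g, hg, -⟩ := exists_generator (p := p)
      apply char_eq_of_generator hg
      rw [apply_generator_of_sq_eq_one hg h1 h,
        apply_generator_of_sq_eq_one hg (qchar_ne_one h2) qchar_sq]
  · rintro (rfl | rfl)
    · exact one_pow 2
    · exact qchar_sq

theorem coef_one : coef p 1 = ((Nat.totient (p - 1) : ℕ) : ℂ) / ((p : ℂ) - 1) := by
  rw [coef_eq]
  have : ∑ x : ZMod p, (if orderOf x = p - 1 then (1 : DirichletCharacter ℂ p)⁻¹ x else 0) =
      ((Nat.totient (p - 1) : ℕ) : ℂ) := by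
    have h1 : ∀ x : ZMod p, (if orderOf x = p - 1 then (1 : DirichletCharacter ℂ p)⁻¹ x else 0) =
        if orderOf x = p - 1 then (1 : ℂ) else 0 := by
      intro x
      split_ifs with h
      · rw [inv_one]
        exact MulChar.one_apply_coe (Units.mk0 x (ne_zero_of_orderOf h))
      · rfl
    simp only [h1]
    rw [Finset.sum_ite, Finset.sum_const_zero, add_zero, Finset.sum_const, card_primitive]
    simp
  rw [this]
  ring

theorem coef_qchar (h2 : p ≠ 2) :
    coef p (qchar p) = -(((Nat.totient (p - 1) : ℕ) : ℂ) / ((p : ℂ) - 1)) := by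
  rw [coef_eq]
  have : ∑ x : ZMod p, (if orderOf x = p - 1 then (qchar p)⁻¹ x else 0) =
      -((Nat.totient (p - 1) : ℕ) : ℂ) := by
    have h1 : ∀ x : ZMod p, (if orderOf x = p - 1 then (qchar p)⁻¹ x else 0) =
        if orderOf x = p - 1 then (-1 : ℂ) else 0 := by
      intro x
      split_ifs with h
      · rw [MulChar.inv_apply_eq_inv', apply_generator_of_sq_eq_one h (qchar_ne_one h2) qchar_sq]
        norm_num
      · rfl
    simp only [h1]
    rw [Finset.sum_ite, Finset.sum_const_zero, add_zero, Finset.sum_const, card_primitive]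
    simp
  rw [this]
  ring

omit hp in
open Classical in
/-- The characters modulo `p` whose square is nontrivial. -/
noncomputable def Q (p : ℕ) : Finset (DirichletCharacter ℂ p) :=
  Finset.univ.filter (fun χ => χ ^ 2 ≠ 1)

omit hp in
theorem mem_Q {χ : DirichletCharacter ℂ p} : χ ∈ Q p ↔ χ ^ 2 ≠ 1 := by
  classical
  unfold Q
  simp

/-- The main expansion: the indicator function at `b * m ^ 2` minus its mean over the square
class. -/
theorem expansion_sq (h2 : p ≠ 2) {b m : ZMod p} (hb : b ≠ 0) (hm : m ≠ 0) :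
    (if orderOf (b * m ^ 2) = p - 1 then (1 : ℂ) else 0) -
      ((Nat.totient (p - 1) : ℕ) : ℂ) / ((p : ℂ) - 1) *
        (1 - ((quadraticChar (ZMod p) b : ℤ) : ℂ)) =
      ∑ χ ∈ Q p, coef p χ * χ b * (χ ^ 2) m := by
  classical
  have hu : b * m ^ 2 ≠ 0 := mul_ne_zero hb (pow_ne_zero 2 hm)
  rw [← expansion hu]
  rw [← Finset.sum_filter_add_sum_filter_not Finset.univ
    (fun χ : DirichletCharacter ℂ p => χ ^ 2 ≠ 1) (fun χ => coef p χ * χ (b * m ^ 2))]
  have h3 : ∑ χ ∈ Finset.univ.filter (fun χ : DirichletCharacter ℂ p => ¬ (χ ^ 2 ≠ 1)),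
      coef p χ * χ (b * m ^ 2) = ((Nat.totient (p - 1) : ℕ) : ℂ) / ((p : ℂ) - 1) *
        (1 - ((quadraticChar (ZMod p) b : ℤ) : ℂ)) := by
    have h4 : Finset.univ.filter (fun χ : DirichletCharacter ℂ p => ¬ (χ ^ 2 ≠ 1)) =
        {1, qchar p} := by
      ext χ
      simp only [Finset.mem_filter, Finset.mem_univ, true_and, not_not, Finset.mem_insert,
        Finset.mem_singleton]
      exact sq_eq_one_iff h2
    rw [h4, Finset.sum_pair (qchar_ne_one h2).symm, coef_one, coef_qchar h2]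
    have h5 : (1 : DirichletCharacter ℂ p) (b * m ^ 2) = 1 :=
      MulChar.one_apply_coe (Units.mk0 _ hu)
    have h6 : qchar p (b * m ^ 2) = ((quadraticChar (ZMod p) b : ℤ) : ℂ) := by
      rw [qchar_apply, map_mul, quadraticChar_sq_one' hm, mul_one]
    rw [h5, h6]
    ring
  rw [h3, add_sub_cancel_right]
  refine Finset.sum_congr (by ext χ; rw [mem_Q]; simp) fun χ _ => ?_
  rw [map_mul, map_pow, MulChar.pow_apply' χ two_ne_zero]
  ring

/-- Squaring is at most two-to-one on the characters. -/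
theorem sum_sq_le (h2 : p ≠ 2) (F : DirichletCharacter ℂ p → ℝ) (hF : ∀ ψ, 0 ≤ F ψ) :
    ∑ χ ∈ Q p, F (χ ^ 2) ≤ 2 * ∑ ψ ∈ NT p, F ψ := by
  classical
  rw [Finset.sum_comp F (fun χ : DirichletCharacter ℂ p => χ ^ 2)]
  rw [Finset.mul_sum]
  have hsub : (Q p).image (fun χ => χ ^ 2) ⊆ NT p := by
    intro ψ hψ
    simp only [Finset.mem_image, mem_Q, mem_NT] at hψ ⊢
    obtain ⟨χ, h1, rfl⟩ := hψ
    exact h1
  refine (Finset.sum_le_sum fun ψ _ => ?_).trans
    (Finset.sum_le_sum_of_subset_of_nonneg hsub fun ψ _ _ => by have := hF ψ; positivity)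
  rw [nsmul_eq_mul]
  refine mul_le_mul_of_nonneg_right ?_ (hF ψ)
  have hcard : (((Q p).filter (fun χ => χ ^ 2 = ψ))).card ≤ 2 := by
    by_contra hcon
    push Not at hcon
    obtain ⟨χ, hχ⟩ := Finset.card_pos.1 (by omega : 0 < ((Q p).filter (fun χ => χ ^ 2 = ψ)).card)
    simp only [Finset.mem_filter, mem_Q] at hχ
    have hsub2 : (Q p).filter (fun χ => χ ^ 2 = ψ) ⊆ {χ, χ * qchar p} := by
      intro χ' hχ'
      simp only [Finset.mem_filter, mem_Q] at hχ'
      have h3 : (χ' * χ⁻¹) ^ 2 = 1 := by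
        rw [mul_pow, hχ'.2, inv_pow, hχ.2, mul_inv_cancel]
      rw [Finset.mem_insert, Finset.mem_singleton]
      rcases (sq_eq_one_iff h2).1 h3 with h | h
      · left; rwa [mul_inv_eq_one] at h
      · right
        rw [mul_inv_eq_iff_eq_mul] at h
        rw [h, mul_comm]
    have := Finset.card_le_card hsub2
    have h4 : ({χ, χ * qchar p} : Finset (DirichletCharacter ℂ p)).card ≤ 2 := Finset.card_le_two
    omega
  exact_mod_cast hcard

end prime2

end Pool.Agent.Helper8.ArtinLS
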