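import Mathlib

set_option autoImplicit false

namespace Pool.Agent.Helper8.ArtinLS

open Finset ComplexConjugate

/-- The inequality of Selberg and Bombieri (duality principle in finite form). -/
theorem selberg_ineq {ι κ : Type*} (J : Finset ι) (K : Finset κ) (v : ι → κ → ℂ) (a : κ → ℂ)
    (B : ℝ) (hB0 : 0 ≤ B) (hB : ∀ j ∈ J, ∑ k ∈ J, ‖∑ n ∈ K, v j n * conj (v k n)‖ ≤ B) :
    ∑ j ∈ J, ‖∑ n ∈ K, a n * v j n‖ ^ 2 ≤ B * ∑ n ∈ K, ‖a n‖ ^ 2 := by
  classical
  -- notation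
  set c : ι → ℂ := fun j => ∑ n ∈ K, a n * v j n with hc
  set S : ℝ := ∑ j ∈ J, ‖c j‖ ^ 2 with hS
  set W : κ → ℂ := fun n => ∑ j ∈ J, conj (c j) * v j n with hW
  have hS0 : 0 ≤ S := Finset.sum_nonneg fun j _ => by positivity
  -- first identity
  have h1 : (S : ℂ) = ∑ n ∈ K, a n * W n := by
    simp only [hS, hW, Finset.mul_sum]
    push_cast
    rw [Finset.sum_comm]
    refine Finset.sum_congr rfl fun j _ => ?_
    have : (‖c j‖ : ℂ) ^ 2 = conj (c j) * c j := by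
      rw [mul_comm, Complex.mul_conj, Complex.normSq_eq_norm_sq]
      push_cast
      rfl
    rw [this]
    conv_lhs => rw [hc]
    simp only
    rw [Finset.mul_sum]
    refine Finset.sum_congr rfl fun n _ => ?_
    ring
  -- Cauchy-Schwarz
  have h2 : S ^ 2 ≤ (∑ n ∈ K, ‖a n‖ ^ 2) * ∑ n ∈ K, ‖W n‖ ^ 2 := by
    have h3 : S ≤ ∑ n ∈ K, ‖a n‖ * ‖W n‖ := by
      have : S = ‖(S : ℂ)‖ := by
        rw [Complex.norm_real, Real.norm_of_nonneg hS0]
      rw [this, h1]
      refine (norm_sum_le _ _).trans (le_of_eq ?_)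
      refine Finset.sum_congr rfl fun n _ => norm_mul _ _
    calc S ^ 2 ≤ (∑ n ∈ K, ‖a n‖ * ‖W n‖) ^ 2 := by gcongr
      _ ≤ _ := Finset.sum_mul_sq_le_sq_mul_sq K (fun n => ‖a n‖) (fun n => ‖W n‖)
  -- the Gram matrix
  have h4 : ∑ n ∈ K, ‖W n‖ ^ 2 ≤ B * S := by
    have e1 : ((∑ n ∈ K, ‖W n‖ ^ 2 : ℝ) : ℂ) =
        ∑ j ∈ J, ∑ k ∈ J, conj (c j) * c k * ∑ n ∈ K, v j n * conj (v k n) := by
      push_cast
      have : ∀ n ∈ K, (‖W n‖ : ℂ) ^ 2 =
          ∑ j ∈ J, ∑ k ∈ J, conj (c j) * c k * (v j n * conj (v k n)) := by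
        intro n _
        have e2 : (‖W n‖ : ℂ) ^ 2 = W n * conj (W n) := by
          rw [Complex.mul_conj, Complex.normSq_eq_norm_sq]
          push_cast
          rfl
        rw [e2]
        simp only [hW, map_sum, map_mul, Complex.conj_conj, Finset.sum_mul_sum]
        refine Finset.sum_congr rfl fun j _ => Finset.sum_congr rfl fun k _ => ?_
        ring
      rw [Finset.sum_congr rfl this, Finset.sum_comm]
      refine Finset.sum_congr rfl fun j _ => ?_
      rw [Finset.sum_comm]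
      refine Finset.sum_congr rfl fun k _ => ?_
      exact (Finset.mul_sum _ _ _).symm
    have hsymm : ∀ j k, ‖∑ n ∈ K, v j n * conj (v k n)‖ = ‖∑ n ∈ K, v k n * conj (v j n)‖ := by
      intro j k
      rw [← RCLike.norm_conj (∑ n ∈ K, v j n * conj (v k n))]
      congr 1
      rw [map_sum]
      refine Finset.sum_congr rfl fun n _ => ?_
      simp [mul_comm]
    have e3 : ∑ n ∈ K, ‖W n‖ ^ 2 ≤
        ∑ j ∈ J, ∑ k ∈ J, (‖c j‖ ^ 2 + ‖c k‖ ^ 2) / 2 * ‖∑ n ∈ K, v j n * conj (v k n)‖ := by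
      have e4 : ∑ n ∈ K, ‖W n‖ ^ 2 = ‖((∑ n ∈ K, ‖W n‖ ^ 2 : ℝ) : ℂ)‖ := by
        rw [Complex.norm_real, Real.norm_of_nonneg]
        exact Finset.sum_nonneg fun n _ => by positivity
      rw [e4, e1]
      refine (norm_sum_le _ _).trans (Finset.sum_le_sum fun j _ => ?_)
      refine (norm_sum_le _ _).trans (Finset.sum_le_sum fun k _ => ?_)
      rw [norm_mul, norm_mul, RCLike.norm_conj]
      gcongr
      nlinarith [sq_nonneg (‖c j‖ - ‖c k‖)]
    have e5 : ∑ j ∈ J, ∑ k ∈ J, (‖c j‖ ^ 2 + ‖c k‖ ^ 2) / 2 * ‖∑ n ∈ K, v j n * conj (v k n)‖ =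
        ∑ j ∈ J, ‖c j‖ ^ 2 * ∑ k ∈ J, ‖∑ n ∈ K, v j n * conj (v k n)‖ := by
      have e6 : ∑ j ∈ J, ∑ k ∈ J, ‖c k‖ ^ 2 * ‖∑ n ∈ K, v j n * conj (v k n)‖ =
          ∑ j ∈ J, ∑ k ∈ J, ‖c j‖ ^ 2 * ‖∑ n ∈ K, v j n * conj (v k n)‖ := by
        rw [Finset.sum_comm]
        refine Finset.sum_congr rfl fun j _ => Finset.sum_congr rfl fun k _ => ?_
        rw [hsymm]
      have e7 : ∑ j ∈ J, ∑ k ∈ J,
          (‖c j‖ ^ 2 + ‖c k‖ ^ 2) / 2 * ‖∑ n ∈ K, v j n * conj (v k n)‖ =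
          (∑ j ∈ J, ∑ k ∈ J, ‖c j‖ ^ 2 * ‖∑ n ∈ K, v j n * conj (v k n)‖) / 2 +
          (∑ j ∈ J, ∑ k ∈ J, ‖c k‖ ^ 2 * ‖∑ n ∈ K, v j n * conj (v k n)‖) / 2 := by
        rw [Finset.sum_div, Finset.sum_div, ← Finset.sum_add_distrib]
        refine Finset.sum_congr rfl fun j _ => ?_
        rw [Finset.sum_div, Finset.sum_div, ← Finset.sum_add_distrib]
        refine Finset.sum_congr rfl fun k _ => ?_
        ring
      rw [e7, e6, add_halves]
      refine Finset.sum_congr rfl fun j _ => ?_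
      rw [Finset.mul_sum]
    calc ∑ n ∈ K, ‖W n‖ ^ 2 ≤ _ := e3
      _ = _ := e5
      _ ≤ ∑ j ∈ J, ‖c j‖ ^ 2 * B := by
        refine Finset.sum_le_sum fun j hj => ?_
        exact mul_le_mul_of_nonneg_left (hB j hj) (by positivity)
      _ = B * S := by rw [hS, Finset.mul_sum]; exact Finset.sum_congr rfl fun j _ => mul_comm _ _
  have hA0 : 0 ≤ ∑ n ∈ K, ‖a n‖ ^ 2 := Finset.sum_nonneg fun n _ => by positivity
  by_cases hSz : S = 0
  · rw [hSz]
    positivity
  · have hSpos : 0 < S := lt_of_le_of_ne hS0 (Ne.symm hSz)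
    have h5 : S * S ≤ (B * ∑ n ∈ K, ‖a n‖ ^ 2) * S := by
      calc S * S = S ^ 2 := by ring
        _ ≤ (∑ n ∈ K, ‖a n‖ ^ 2) * ∑ n ∈ K, ‖W n‖ ^ 2 := h2
        _ ≤ (∑ n ∈ K, ‖a n‖ ^ 2) * (B * S) := by gcongr
        _ = _ := by ring
    exact le_of_mul_le_mul_right h5 hSpos

/-- Sums of a periodic function with mean zero are bounded by the period. -/
theorem norm_sum_range_periodic_le {f : ℕ → ℂ} {q : ℕ} (hq : 0 < q)
    (hper : ∀ n, f (n + q) = f n) (hf : ∀ n, ‖f n‖ ≤ 1) (h0 : ∑ n ∈ range q, f n = 0) (N : ℕ) :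
    ‖∑ n ∈ range N, f n‖ ≤ q := by
  induction N using Nat.strong_induction_on with
  | _ N ih =>
    rcases lt_or_ge N q with hN | hN
    · calc ‖∑ n ∈ range N, f n‖ ≤ ∑ n ∈ range N, ‖f n‖ := norm_sum_le _ _
        _ ≤ ∑ n ∈ range N, (1 : ℝ) := Finset.sum_le_sum fun n _ => hf n
        _ = N := by simp
        _ ≤ q := by exact_mod_cast hN.le
    · obtain ⟨k, rfl⟩ := Nat.exists_eq_add_of_le hN
      rw [Finset.sum_range_add, h0, zero_add]
      have : ∑ x ∈ range k, f (q + x) = ∑ x ∈ range k, f x :=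
        Finset.sum_congr rfl fun x _ => by rw [add_comm, hper]
      rw [this]
      exact ih k (by omega)

theorem sum_range_zmod {q : ℕ} [NeZero q] (f : ZMod q → ℂ) :
    ∑ n ∈ range q, f (n : ZMod q) = ∑ x : ZMod q, f x := by
  refine Finset.sum_bij' (fun n _ => (n : ZMod q)) (fun x _ => x.val) ?_ ?_ ?_ ?_ ?_
  · intro n _; exact Finset.mem_univ _
  · intro x _; exact Finset.mem_range.2 (ZMod.val_lt x)
  · intro n hn; exact ZMod.val_cast_of_lt (Finset.mem_range.1 hn)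
  · intro x _; exact ZMod.natCast_zmod_val x
  · intro n _; rfl

theorem norm_char_le_one {p : ℕ} (ψ : DirichletCharacter ℂ p) (x : ZMod p) : ‖ψ x‖ ≤ 1 :=
  DirichletCharacter.norm_le_one ψ x

/-- Incomplete sums of `ψ * conj ψ'` for two different nontrivial characters to prime moduli. -/
theorem norm_sum_mul_conj_le {p p' : ℕ} (hp : p.Prime) (hp' : p'.Prime)
    (ψ : DirichletCharacter ℂ p) (ψ' : DirichletCharacter ℂ p') (hψ : ψ ≠ 1)
    (hne : (⟨p, ψ⟩ : Σ p : ℕ, DirichletCharacter ℂ p) ≠ ⟨p', ψ'⟩) (N : ℕ) :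
    ‖∑ n ∈ range N, ψ (n : ZMod p) * conj (ψ' (n : ZMod p'))‖ ≤ p * p' := by
  have : Fact p.Prime := ⟨hp⟩
  have : Fact p'.Prime := ⟨hp'⟩
  by_cases hpp : p = p'
  · subst hpp
    have hne' : ψ ≠ ψ' := fun h => hne (by rw [h])
    have h1 : ‖∑ n ∈ range N, ψ (n : ZMod p) * conj (ψ' (n : ZMod p))‖ ≤ p := by
      refine norm_sum_range_periodic_le (f := fun n => ψ (n : ZMod p) * conj (ψ' (n : ZMod p)))
        hp.pos ?_ ?_ ?_ N
      · intro n
        simp
      · intro n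
        rw [norm_mul, RCLike.norm_conj]
        exact mul_le_one₀ (norm_char_le_one ψ _) (norm_nonneg _) (norm_char_le_one ψ' _)
      · rw [sum_range_zmod (fun x : ZMod p => ψ x * conj (ψ' x))]
        have h2 : ψ * ψ'⁻¹ ≠ 1 := fun h => hne' (by rwa [mul_inv_eq_one] at h)
        have h3 := MulChar.sum_eq_zero_of_ne_one h2
        rw [← h3]
        refine Finset.sum_congr rfl fun x _ => ?_
        rw [MulChar.mul_apply]
        congr 1
        rw [← MulChar.star_eq_inv ψ', MulChar.star_apply]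
        rfl
    calc _ ≤ (p : ℝ) := h1
      _ ≤ p * p := by
        have : (1 : ℝ) ≤ p := by exact_mod_cast hp.one_lt.le
        nlinarith
  · have hcop : Nat.Coprime p p' := (Nat.coprime_primes hp hp').2 hpp
    have : NeZero (p * p') := ⟨mul_ne_zero hp.ne_zero hp'.ne_zero⟩
    have h1 := norm_sum_range_periodic_le
      (f := fun n => ψ (n : ZMod p) * conj (ψ' (n : ZMod p'))) (q := p * p')
      (Nat.mul_pos hp.pos hp'.pos) ?_ ?_ ?_ N
    · exact_mod_cast h1
    · intro n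
      simp
    · intro n
      rw [norm_mul, RCLike.norm_conj]
      exact mul_le_one₀ (norm_char_le_one ψ _) (norm_nonneg _) (norm_char_le_one ψ' _)
    · have h2 : ∑ n ∈ range (p * p'), ψ (n : ZMod p) * conj (ψ' (n : ZMod p')) =
          ∑ x : ZMod (p * p'), ψ ((ZMod.chineseRemainder hcop x).1) *
            conj (ψ' ((ZMod.chineseRemainder hcop x).2)) := by
        rw [← sum_range_zmod (fun x : ZMod (p * p') => ψ ((ZMod.chineseRemainder hcop x).1) *
            conj (ψ' ((ZMod.chineseRemainder hcop x).2)))]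
        refine Finset.sum_congr rfl fun n _ => ?_
        simp
      rw [h2]
      have h3 := Equiv.sum_comp (ZMod.chineseRemainder hcop).toEquiv
        (fun y : ZMod p × ZMod p' => ψ y.1 * conj (ψ' y.2))
      refine h3.trans ?_
      rw [Fintype.sum_prod_type]
      simp only [← Finset.mul_sum, ← Finset.sum_mul]
      rw [MulChar.sum_eq_zero_of_ne_one hψ, zero_mul]

open Classical in
/-- The nontrivial characters modulo `p`. -/
noncomputable def NT (p : ℕ) : Finset (DirichletCharacter ℂ p) :=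
  Finset.univ.filter (fun ψ => ψ ≠ 1)

theorem mem_NT {p : ℕ} {ψ : DirichletCharacter ℂ p} : ψ ∈ NT p ↔ ψ ≠ 1 := by
  classical
  unfold NT
  simp

/-- The family of nontrivial characters modulo the primes up to `X`. -/
noncomputable def fam (X : ℕ) : Finset (Σ p : ℕ, DirichletCharacter ℂ p) :=
  ((range (X + 1)).filter Nat.Prime).sigma NT

theorem mem_fam {X : ℕ} {j : Σ p : ℕ, DirichletCharacter ℂ p} :
    j ∈ fam X ↔ (j.1 ≤ X ∧ j.1.Prime) ∧ j.2 ≠ 1 := by
  unfold fam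
  rw [Finset.mem_sigma, Finset.mem_filter, Finset.mem_range, mem_NT, Nat.lt_succ_iff]

theorem card_char {p : ℕ} (hp : p.Prime) : Fintype.card (DirichletCharacter ℂ p) = p - 1 := by
  have : Fact p.Prime := ⟨hp⟩
  rw [← Nat.card_eq_fintype_card, DirichletCharacter.card_eq_totient_of_hasEnoughRootsOfUnity,
    Nat.totient_prime hp]

theorem card_fam_le (X : ℕ) : (fam X).card ≤ X ^ 2 := by
  classical
  unfold fam
  rw [Finset.card_sigma]
  calc ∑ a ∈ (range (X + 1)).filter Nat.Prime, (NT a).card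
      ≤ ∑ a ∈ (range (X + 1)).filter Nat.Prime, X := by
        refine Finset.sum_le_sum fun a ha => ?_
        simp only [Finset.mem_filter, Finset.mem_range] at ha
        refine (Finset.card_le_univ _).trans ?_
        rw [card_char ha.2]
        omega
    _ = ((range (X + 1)).filter Nat.Prime).card * X := by simp
    _ ≤ X * X := by
        refine Nat.mul_le_mul_right X ?_
        have hsub : (range (X + 1)).filter Nat.Prime ⊆ Finset.Icc 1 X := by
          intro a ha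
          simp only [Finset.mem_filter, Finset.mem_range] at ha
          exact Finset.mem_Icc.2 ⟨ha.2.pos, by omega⟩
        exact (Finset.card_le_card hsub).trans (by simp)
    _ = X ^ 2 := by ring

/-- The large sieve inequality for all nontrivial characters to prime moduli `≤ X`, in the weak
form `N + X ^ 4`. -/
theorem large_sieve (X N : ℕ) (a : ℕ → ℂ) :
    ∑ j ∈ fam X, ‖∑ n ∈ range (N + 1), a n * j.2 (n : ZMod j.1)‖ ^ 2 ≤
      ((N : ℝ) + (X : ℝ) ^ 4) * ∑ n ∈ range (N + 1), ‖a n‖ ^ 2 := by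
  classical
  refine selberg_ineq (fam X) (range (N + 1)) (fun j n => j.2 (n : ZMod j.1)) a
    ((N : ℝ) + (X : ℝ) ^ 4) (by positivity) ?_
  intro j hj
  rw [mem_fam] at hj
  obtain ⟨⟨hjX, hjp⟩, hj1⟩ := hj
  rw [← Finset.add_sum_erase (fam X) _ (mem_fam.2 ⟨⟨hjX, hjp⟩, hj1⟩)]
  refine add_le_add ?_ ?_
  · have : Fact j.1.Prime := ⟨hjp⟩
    calc ‖∑ n ∈ range (N + 1), j.2 (n : ZMod j.1) * conj (j.2 (n : ZMod j.1))‖
        ≤ ∑ n ∈ range (N + 1), ‖j.2 (n : ZMod j.1) * conj (j.2 (n : ZMod j.1))‖ := norm_sum_le _ _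
      _ = ∑ n ∈ range N, ‖j.2 ((n + 1 : ℕ) : ZMod j.1) * conj (j.2 ((n + 1 : ℕ) : ZMod j.1))‖ := by
        rw [Finset.sum_range_succ']
        simp [DirichletCharacter.map_zero' j.2 hjp.one_lt.ne']
      _ ≤ ∑ n ∈ range N, (1 : ℝ) := by
        refine Finset.sum_le_sum fun n _ => ?_
        rw [norm_mul, RCLike.norm_conj]
        exact mul_le_one₀ (norm_char_le_one _ _) (norm_nonneg _) (norm_char_le_one _ _)
      _ = N := by simp
  · calc ∑ k ∈ (fam X).erase j,
          ‖∑ n ∈ range (N + 1), j.2 (n : ZMod j.1) * conj (k.2 (n : ZMod k.1))‖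
        ≤ ∑ k ∈ (fam X).erase j, ((X : ℝ) * X) := by
          refine Finset.sum_le_sum fun k hk => ?_
          rw [Finset.mem_erase, mem_fam] at hk
          obtain ⟨hkj, ⟨hkX, hkp⟩, hk1⟩ := hk
          refine (norm_sum_mul_conj_le hjp hkp j.2 k.2 hj1 (fun h => hkj ?_) (N + 1)).trans ?_
          · exact h.symm
          · have h1 : (j.1 : ℝ) ≤ X := by exact_mod_cast hjX
            have h2 : (k.1 : ℝ) ≤ X := by exact_mod_cast hkX
            gcongr
      _ = ((fam X).erase j).card * ((X : ℝ) * X) := by simp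
      _ ≤ (X : ℝ) ^ 2 * ((X : ℝ) * X) := by
        gcongr
        calc (((fam X).erase j).card : ℝ) ≤ ((fam X).card : ℝ) := by
              exact_mod_cast Finset.card_le_card (Finset.erase_subset _ _)
          _ ≤ (X : ℝ) ^ 2 := by exact_mod_cast card_fam_le X
      _ = (X : ℝ) ^ 4 := by ring

end Pool.Agent.Helper8.ArtinLS
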