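import Pool.Agent.Helper8.ArtinLS

set_option autoImplicit false

namespace Pool.Agent.Helper8.ArtinLS

open Finset ComplexConjugate MeasureTheory

/-- Parseval's identity from orthogonality relations. -/
theorem parseval_of_orth {ι κ : Type*} [DecidableEq κ] (I : Finset ι) (K : Finset κ) (v : ι → κ → ℂ) (c : ℝ)
    (h : ∀ h ∈ K, ∀ k ∈ K, ∑ i ∈ I, v i h * conj (v i k) = if h = k then (c : ℂ) else 0)
    (Z : κ → ℂ) :
    ∑ i ∈ I, ‖∑ k ∈ K, v i k * Z k‖ ^ 2 = c * ∑ k ∈ K, ‖Z k‖ ^ 2 := by
  classical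
  have hsq : ∀ z : ℂ, ((‖z‖ ^ 2 : ℝ) : ℂ) = z * conj z := by
    intro z
    rw [Complex.mul_conj, Complex.normSq_eq_norm_sq]
  have key : ((∑ i ∈ I, ‖∑ k ∈ K, v i k * Z k‖ ^ 2 : ℝ) : ℂ) =
      ((c * ∑ k ∈ K, ‖Z k‖ ^ 2 : ℝ) : ℂ) := by
    rw [Complex.ofReal_sum, Complex.ofReal_mul, Complex.ofReal_sum]
    simp only [hsq]
    calc ∑ i ∈ I, (∑ k ∈ K, v i k * Z k) * conj (∑ k ∈ K, v i k * Z k)
        = ∑ i ∈ I, ∑ h ∈ K, ∑ k ∈ K, (v i h * conj (v i k)) * (Z h * conj (Z k)) := by
          refine Finset.sum_congr rfl fun i _ => ?_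
          rw [map_sum, Finset.sum_mul_sum]
          refine Finset.sum_congr rfl fun h _ => Finset.sum_congr rfl fun k _ => ?_
          rw [map_mul]; ring
      _ = ∑ h ∈ K, ∑ k ∈ K, (∑ i ∈ I, v i h * conj (v i k)) * (Z h * conj (Z k)) := by
          rw [Finset.sum_comm]
          refine Finset.sum_congr rfl fun h _ => ?_
          rw [Finset.sum_comm]
          refine Finset.sum_congr rfl fun k _ => ?_
          rw [Finset.sum_mul]
      _ = ∑ h ∈ K, ∑ k ∈ K, (if h = k then (c : ℂ) * (Z h * conj (Z k)) else 0) := by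
          refine Finset.sum_congr rfl fun h' hh => Finset.sum_congr rfl fun k hk => ?_
          rw [h h' hh k hk]
          split_ifs
          · rfl
          · rw [zero_mul]
      _ = ∑ h ∈ K, (c : ℂ) * (Z h * conj (Z h)) := by
          refine Finset.sum_congr rfl fun h hh => ?_
          rw [Finset.sum_ite_eq, if_pos hh]
      _ = _ := by rw [Finset.mul_sum]
  exact_mod_cast key

/-- the exponential `exp (2 π i n t)` -/
noncomputable def eC (n : ℕ) (t : ℝ) : ℂ := Complex.exp (2 * Real.pi * Complex.I * n * t)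

theorem eC_cont (n : ℕ) : Continuous (eC n) := by
  unfold eC
  fun_prop

theorem norm_eC (n : ℕ) (t : ℝ) : ‖eC n t‖ = 1 := by
  unfold eC
  have : (2 * Real.pi * Complex.I * n * t : ℂ) = ((2 * Real.pi * n * t : ℝ) : ℂ) * Complex.I := by
    push_cast; ring
  rw [this, Complex.norm_exp_ofReal_mul_I]

theorem integral_eC (m n : ℕ) :
    ∫ t in (0:ℝ)..1, eC m t * conj (eC n t) = if m = n then 1 else 0 := by
  by_cases h : m = n
  · subst h
    rw [if_pos rfl]
    have : ∀ t : ℝ, eC m t * conj (eC m t) = 1 := by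
      intro t
      rw [Complex.mul_conj, Complex.normSq_eq_norm_sq, norm_eC]
      simp
    simp [this]
  · rw [if_neg h]
    set c : ℂ := 2 * Real.pi * Complex.I * ((m : ℂ) - n) with hc
    have hmn : ((m : ℂ) - n) ≠ 0 := by
      rw [sub_ne_zero]
      exact_mod_cast h
    have hc0 : c ≠ 0 := by
      rw [hc]
      exact mul_ne_zero Complex.two_pi_I_ne_zero hmn
    have h1 : ∀ t : ℝ, eC m t * conj (eC n t) = Complex.exp (c * t) := by
      intro t
      unfold eC
      rw [← Complex.exp_conj, ← Complex.exp_add]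
      congr 1
      simp only [map_mul, Complex.conj_ofReal, Complex.conj_I, map_natCast, map_ofNat, hc]
      ring
    simp only [h1]
    rw [integral_exp_mul_complex hc0]
    have h2 : Complex.exp (c * ((1:ℝ):ℂ)) = 1 := by
      rw [hc, Complex.exp_eq_one_iff]
      refine ⟨(m:ℤ) - n, ?_⟩
      push_cast
      ring
    rw [h2]
    simp

/-- Parseval's identity for trigonometric polynomials. -/
theorem parseval_trig (b : ℕ → ℂ) (N : ℕ) :
    ∫ t in (0:ℝ)..1, ‖∑ n ∈ range N, b n * eC n t‖ ^ 2 = ∑ n ∈ range N, ‖b n‖ ^ 2 := by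
  have hsq : ∀ z : ℂ, ((‖z‖ ^ 2 : ℝ) : ℂ) = z * conj z := by
    intro z
    rw [Complex.mul_conj, Complex.normSq_eq_norm_sq]
  have key : ((∫ t in (0:ℝ)..1, ‖∑ n ∈ range N, b n * eC n t‖ ^ 2 : ℝ) : ℂ) =
      ((∑ n ∈ range N, ‖b n‖ ^ 2 : ℝ) : ℂ) := by
    rw [← intervalIntegral.integral_ofReal, Complex.ofReal_sum]
    simp only [hsq]
    have h1 : ∀ t : ℝ, (∑ n ∈ range N, b n * eC n t) * conj (∑ n ∈ range N, b n * eC n t) =
        ∑ m ∈ range N, ∑ n ∈ range N, (b m * conj (b n)) * (eC m t * conj (eC n t)) := by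
      intro t
      rw [map_sum, Finset.sum_mul_sum]
      refine Finset.sum_congr rfl fun m _ => Finset.sum_congr rfl fun n _ => ?_
      rw [map_mul]; ring
    simp only [h1]
    have hint : ∀ m n : ℕ, IntervalIntegrable (fun t : ℝ => (b m * conj (b n)) *
        (eC m t * conj (eC n t))) volume 0 1 := by
      intro m n
      apply Continuous.intervalIntegrable
      have := eC_cont m
      have := eC_cont n
      fun_prop
    rw [intervalIntegral.integral_finsetSum]
    · refine Finset.sum_congr rfl fun m hm => ?_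
      rw [intervalIntegral.integral_finsetSum]
      · rw [Finset.sum_eq_single m]
        · rw [intervalIntegral.integral_const_mul, integral_eC, if_pos rfl, mul_one]
        · intro n _ hn
          rw [intervalIntegral.integral_const_mul, integral_eC, if_neg (Ne.symm hn), mul_zero]
        · intro h; exact absurd hm h
      · intro n _
        exact hint m n
    · intro m _
      apply Continuous.intervalIntegrable
      apply continuous_finsetSum
      intro n _
      have := eC_cont m
      have := eC_cont n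
      fun_prop
  exact_mod_cast key

/-- The inequality of Gallagher (Sobolev). -/
theorem gallagher_ineq (f f' : ℝ → ℂ) (hf : ∀ t, HasDerivAt f (f' t) t) (hf' : Continuous f')
    (α δ : ℝ) (hδ : 0 < δ) :
    ‖f α‖ ^ 2 ≤ δ⁻¹ * (∫ t in (α - δ/2)..(α + δ/2), ‖f t‖ ^ 2) +
      ∫ t in (α - δ/2)..(α + δ/2), 2 * (‖f t‖ * ‖f' t‖) := by
  have hfc : Continuous f := continuous_iff_continuousAt.mpr fun t => (hf t).continuousAt
  have hle : α - δ/2 ≤ α + δ/2 := by linarith
  set G : ℝ := ∫ t in (α - δ/2)..(α + δ/2), 2 * (‖f t‖ * ‖f' t‖) with hG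
  have hptw : ∀ t ∈ Set.Icc (α - δ/2) (α + δ/2), ‖f α‖ ^ 2 ≤ ‖f t‖ ^ 2 + G := by
    intro t ht
    have h1 : ∫ s in t..α, 2 * f s * f' s = f α ^ 2 - f t ^ 2 := by
      apply intervalIntegral.integral_eq_sub_of_hasDerivAt (f := fun s => f s ^ 2)
      · intro s _
        exact (show HasDerivAt (fun s => f s ^ 2) _ s from (hf s).fun_pow 2).congr_deriv (by norm_num)
      · apply Continuous.intervalIntegrable
        fun_prop
    have h2 : ‖∫ s in t..α, 2 * f s * f' s‖ ≤ G := by
      have h3 : ∀ s, ‖2 * f s * f' s‖ = 2 * (‖f s‖ * ‖f' s‖) := by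
        intro s
        rw [norm_mul, norm_mul]; simp; ring
      rw [hG]
      rcases le_total t α with h | h
      · calc ‖∫ s in t..α, 2 * f s * f' s‖ ≤ ∫ s in t..α, ‖2 * f s * f' s‖ :=
              intervalIntegral.norm_integral_le_integral_norm h
          _ = ∫ s in t..α, 2 * (‖f s‖ * ‖f' s‖) := by simp only [h3]
          _ ≤ _ := by
            apply intervalIntegral.integral_mono_interval ht.1 h (by linarith)
            · filter_upwards with s; positivity
            · apply Continuous.intervalIntegrable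
              fun_prop
      · rw [intervalIntegral.integral_symm, norm_neg]
        calc ‖∫ s in α..t, 2 * f s * f' s‖ ≤ ∫ s in α..t, ‖2 * f s * f' s‖ :=
              intervalIntegral.norm_integral_le_integral_norm h
          _ = ∫ s in α..t, 2 * (‖f s‖ * ‖f' s‖) := by simp only [h3]
          _ ≤ _ := by
            apply intervalIntegral.integral_mono_interval (by linarith) h ht.2
            · filter_upwards with s; positivity
            · apply Continuous.intervalIntegrable
              fun_prop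
    have h4 : f α ^ 2 = f t ^ 2 + ∫ s in t..α, 2 * f s * f' s := by rw [h1]; ring
    calc ‖f α‖ ^ 2 = ‖f α ^ 2‖ := (norm_pow _ _).symm
      _ = ‖f t ^ 2 + ∫ s in t..α, 2 * f s * f' s‖ := by rw [h4]
      _ ≤ ‖f t ^ 2‖ + ‖∫ s in t..α, 2 * f s * f' s‖ := norm_add_le _ _
      _ ≤ ‖f t‖ ^ 2 + G := by rw [norm_pow]; gcongr
  have h5 : ∫ _t in (α - δ/2)..(α + δ/2), ‖f α‖ ^ 2 ≤
      ∫ t in (α - δ/2)..(α + δ/2), (‖f t‖ ^ 2 + G) := by
    apply intervalIntegral.integral_mono_on hle
    · exact intervalIntegrable_const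
    · apply Continuous.intervalIntegrable
      fun_prop
    · exact hptw
  rw [intervalIntegral.integral_const, intervalIntegral.integral_add, intervalIntegral.integral_const] at h5
  · have h6 : α + δ/2 - (α - δ/2) = δ := by ring
    rw [h6, smul_eq_mul, smul_eq_mul] at h5
    have h7 : ‖f α‖ ^ 2 = δ⁻¹ * (δ * ‖f α‖ ^ 2) := by field_simp
    rw [h7]
    calc δ⁻¹ * (δ * ‖f α‖ ^ 2) ≤ δ⁻¹ * ((∫ t in (α - δ/2)..(α + δ/2), ‖f t‖ ^ 2) + δ * G) := by
          gcongr
      _ = _ := by field_simp
  · apply Continuous.intervalIntegrable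
    fun_prop
  · exact intervalIntegrable_const

/-- Sums of integrals over disjoint intervals. -/
theorem sum_integral_le {ι : Type*} (S : Finset ι) (α : ι → ℝ) (δ : ℝ) (hδ : 0 < δ)
    (hin : ∀ i ∈ S, 0 ≤ α i - δ/2 ∧ α i + δ/2 ≤ 1)
    (hsep : ∀ i ∈ S, ∀ j ∈ S, i ≠ j → δ ≤ |α i - α j|)
    (G : ℝ → ℝ) (hG : Continuous G) (hG0 : ∀ t, 0 ≤ G t) :
    ∑ i ∈ S, ∫ t in (α i - δ/2)..(α i + δ/2), G t ≤ ∫ t in (0:ℝ)..1, G t := by
  classical
  have h1 : ∀ i ∈ S, ∫ t in (α i - δ/2)..(α i + δ/2), G t =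
      ∫ t in Set.Ioc (α i - δ/2) (α i + δ/2), G t := by
    intro i _
    rw [intervalIntegral.integral_of_le (by linarith)]
  rw [Finset.sum_congr rfl h1, intervalIntegral.integral_of_le zero_le_one]
  rw [← integral_biUnion_finset]
  · apply setIntegral_mono_set
    · exact (hG.integrableOn_Icc (a := 0) (b := 1)).mono_set Set.Ioc_subset_Icc_self
    · filter_upwards with t using hG0 t
    · apply LE.le.eventuallyLE
      intro t ht
      simp only [Set.mem_iUnion] at ht
      obtain ⟨i, hi, ht⟩ := ht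
      have := hin i hi
      exact ⟨by linarith [ht.1], by linarith [ht.2]⟩
  · intro i _
    exact measurableSet_Ioc
  · intro i hi j hj hij
    rw [Function.onFun, Set.disjoint_left]
    intro t ht1 ht2
    have h2 := hsep i hi j hj hij
    rw [le_abs] at h2
    rcases h2 with h | h
    · linarith [ht1.1, ht2.2]
    · linarith [ht1.2, ht2.1]
  · intro i _
    exact (hG.integrableOn_Icc).mono_set Set.Ioc_subset_Icc_self

end Pool.Agent.Helper8.ArtinLS
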